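import Pool.Agent.H80.SU.AFb
import Pool.Agent.H27.SU.RJb

/-!
# MP_cda23d_nt.AuxiliaryField: corollaries
-/

set_option autoImplicit false

namespace Pool.Agent.H80.SU

open jacobiSym WeierstrassCurve Pool.Agent.H27.SU
open scoped NumberTheorySymbols Classical

/-- `x = -1` -/
theorem cor_neg_one (E : WeierstrassCurve ℚ) [E.IsElliptic] (hj0 : E.j ≠ 0) (hj1 : E.j ≠ 1728)
    (h2 : padicValRat 2 E.j ≤ 0 ∨ ¬ (3 : ℤ) ∣ padicValRat 2 E.j)
    (h3 : padicValRat 3 E.j ≤ 0 ∨ ¬ (3 : ℤ) ∣ padicValRat 3 E.j)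
    (hQ : ∀ q ∈ oddPrimes E.j, q % 4 = 1) (p : ℕ) [Fact p.Prime] (hp : 29 ≤ p) :
    ¬ InNonsplitNormaliser E p := by
  intro hE
  have h1 : ∀ q ∈ oddPrimes E.j, J(-1 | q) = 1 := by
    intro q hq
    have h5 := hQ q hq
    rw [at_neg_one (Nat.odd_iff.2 (by omega)), ZMod.χ₄_nat_one_mod_four h5]
  have h := aux_field E hj0 hj1 p hp hE (-1) (IsUnit.squarefree (by simp))
    (fun q hq _ => Or.inl (h1 q (Finset.mem_filter.1 hq).1))
    (by
      intro l hl h5 hd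
      exfalso
      have := Int.le_of_dvd (by norm_num) (dvd_neg.1 hd)
      omega)
    (Or.inr h2) (by
      rcases h3 with h | h
      · exact Or.inr (Or.inl h)
      · exact Or.inr (Or.inr ⟨by omega, h⟩))
  have e1 : poleProd E.j (-1) = 1 := by simp [poleProd]
  have e2 : inertCount E.j (-1) p = 0 := by simp [inertCount]
  have e3 : ∏ q ∈ candPrimes E.j p, J(-1 | q) = 1 :=
    Finset.prod_eq_one fun q hq => h1 q (Finset.mem_filter.1 hq).1
  rw [e1, e2, e3] at h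
  norm_num at h
  have := Int.le_of_dvd (by norm_num) h
  omega

/-- `x = -1` in terms of sums of two squares -/
theorem cor_two_squares (E : WeierstrassCurve ℚ) [E.IsElliptic] (hj0 : E.j ≠ 0)
    (hj1 : E.j ≠ 1728) (h2 : padicValRat 2 E.j ≤ 0 ∨ ¬ (3 : ℤ) ∣ padicValRat 2 E.j)
    (h3 : padicValRat 3 E.j ≤ 0 ∨ ¬ (3 : ℤ) ∣ padicValRat 3 E.j) (u v : ℤ)
    (huv : |(E.j - 1728).num| = u ^ 2 + v ^ 2) (p : ℕ) [Fact p.Prime] (hp : 29 ≤ p) :
    ¬ InNonsplitNormaliser E p := by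
  refine cor_neg_one E hj0 hj1 h2 h3 ?_ p hp
  intro q hq
  obtain ⟨hqp, hq2, hpos, hodd⟩ := of_mem_oddPrimes hq
  have hF : Fact q.Prime := ⟨hqp⟩
  by_contra hq4
  have h43 : q % 4 = 3 := by
    rcases hqp.eq_two_or_odd with h | h
    · exact absurd h hq2
    · omega
  have hn : (E.j - 1728).num.natAbs = u.natAbs ^ 2 + v.natAbs ^ 2 := by
    have h : (((E.j - 1728).num.natAbs : ℕ) : ℤ) = ((u.natAbs ^ 2 + v.natAbs ^ 2 : ℕ) : ℤ) := by
      push_cast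
      rw [sq_abs, sq_abs]
      exact huv
    exact_mod_cast h
  have hqn := Nat.dvd_of_mem_primeFactors (Finset.mem_filter.1 hq).1
  have hcop : ¬ q ∣ (E.j - 1728).den := by
    intro h4
    have h5 : q ∣ Nat.gcd (E.j - 1728).num.natAbs (E.j - 1728).den := Nat.dvd_gcd hqn h4
    rw [(E.j - 1728).reduced] at h5
    exact hqp.one_lt.ne' (Nat.dvd_one.1 h5)
  have hev := Nat.eq_sq_add_sq_iff.1 ⟨_, _, hn⟩ q (Finset.mem_filter.1 hq).1 h43
  have hval : padicValRat q (E.j - 1728) =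
      ((padicValNat q (E.j - 1728).num.natAbs : ℕ) : ℤ) := by
    show (padicValInt q (E.j - 1728).num : ℤ) - (padicValNat q (E.j - 1728).den : ℤ) = _
    rw [padicValNat.eq_zero_of_not_dvd hcop, Nat.cast_zero, sub_zero]
    rfl
  rw [hval, Int.odd_coe_nat] at hodd
  exact (Nat.not_even_iff_odd.2 hodd) hev

/-- negative `x = 1 mod 24` -/
theorem cor_neg (E : WeierstrassCurve ℚ) [E.IsElliptic] (hj0 : E.j ≠ 0) (hj1 : E.j ≠ 1728)
    (x : ℤ) (hx : Squarefree x) (hx0 : x < 0) (hx24 : x % 24 = 1)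
    (hQ : ∀ q ∈ oddPrimes E.j, J(x | q) = 1)
    (p : ℕ) [Fact p.Prime] (hp : 29 ≤ p)
    (h2 : ∀ (l : ℕ) [Fact l.Prime], (l : ℤ) ∣ x → 0 ≤ padicValRat l E.j ∧ OrdinaryAt E.j l ∧
      4 * l < p ^ 2) :
    ¬ InNonsplitNormaliser E p := by
  intro hE
  obtain ⟨-, hop, -, -, -, m, -, -, -, -, -, -, ho, -, -, hd⟩ :=
    Pool.Agent.H82.HW.quad_field7 E hj0 hj1 p hp hE
  have h := aux_field E hj0 hj1 p hp hE x hx
    (fun q hq _ => Or.inl (hQ q (Finset.mem_filter.1 hq).1))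
    (by
      intro l hl h5 hd
      exact Or.inr (Or.inr (Or.inr ⟨(h2 l hd).2.1, (h2 l hd).2.2⟩)))
    (Or.inl (by omega)) (Or.inl (by omega))
  have e1 : poleProd E.j x = 1 := by
    rw [poleProd, Finset.filter_false_of_mem, Finset.prod_empty]
    intro l hl
    have hF : Fact l.Prime := ⟨Nat.prime_of_mem_primeFactors hl⟩
    exact not_lt.2 (h2 l (Int.natCast_dvd.2 (Nat.dvd_of_mem_primeFactors hl))).1
  have e2 : inertCount E.j x p = 0 := by
    rw [inertCount, Finset.card_eq_zero, Finset.filter_false_of_mem]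
    intro l hl hcon
    have hF : Fact l.Prime := ⟨Nat.prime_of_mem_primeFactors hl⟩
    have hlx : (l : ℤ) ∣ x := Int.natCast_dvd.2 (Nat.dvd_of_mem_primeFactors hl)
    obtain ⟨h6, h7, h8⟩ := h2 l hlx
    rcases hcon with hlp | ⟨h3, h4, h5⟩
    · subst hlp
      exact hop h7
    have hl5 : 5 ≤ l := by
      have hl2 := hF.out.two_le
      rcases (by omega : l = 2 ∨ l = 3 ∨ l = 4 ∨ 5 ≤ l) with h | h | h | h
      · rw [h] at hlx
        omega
      · rw [h] at hlx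
        omega
      · rw [h] at hF
        exact absurd hF.out (by norm_num)
      · exact h
    apply ho l hl5 h8 h6 h7
    rw [(hd l h4 h5).2.2.2 hl5, legendreSym.to_jacobiSym, jac_neg_three hF.out hl5, if_pos h3]
  have e3 : ∏ q ∈ candPrimes E.j p, J(x | q) = 1 :=
    Finset.prod_eq_one fun q hq => hQ q (Finset.mem_filter.1 hq).1
  rw [e1, e2, e3, Int.sign_eq_neg_one_of_neg hx0] at h
  norm_num at h
  have := Int.le_of_dvd (by norm_num) h
  omega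

theorem card_ord_ge' (ℓ : ℕ) [Fact ℓ.Prime] (hℓ : 19 ≤ ℓ) :
    (ℓ : ℝ) / 8 ≤ (Finset.univ.filter (fun J : ZMod ℓ => OrdZ ℓ J)).card := by
  refine (card_good ℓ hℓ 1 one_ne_zero).trans ?_
  exact_mod_cast Finset.card_le_card (by
    intro J hJ
    rw [Finset.mem_filter] at hJ ⊢
    exact ⟨hJ.1, hJ.2.1⟩)

/-- primes `-1` modulo `n` -/
theorem neg_one_infinite (n : ℕ) (hn : 0 < n) : {ℓ : ℕ | ℓ.Prime ∧ 19 ≤ ℓ ∧ n ∣ ℓ + 1}.Infinite := by
  have : NeZero n := ⟨hn.ne'⟩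
  have h1 := Nat.infinite_setOfPred_prime_and_eq_mod (q := n) (a := -1) (isUnit_neg_one)
  refine (h1.sdiff (Set.finite_lt_nat 19)).mono ?_
  rintro ℓ ⟨⟨h2, h3⟩, h4⟩
  simp only [Set.mem_ofPred_eq, not_lt] at h4
  refine ⟨h2, h4, ?_⟩
  rw [← ZMod.natCast_eq_zero_iff]
  push_cast
  rw [h3]
  ring

/-- a finite set of primes of type III, III* -/
theorem cor_dens (S : Finset ℕ) (ε : ℝ) (hε : 0 < ε) :
    ∃ (N C : ℕ) (R : Finset (ZMod N)), 0 < N ∧ (1 - ε) * N ≤ (R.card : ℝ) ∧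
      ∀ (E : WeierstrassCurve ℚ) [E.IsElliptic], E.j ≠ 0 → E.j ≠ 1728 → oddPrimes E.j ⊆ S →
        ∀ x : ℤ, (N : ℤ) ∣ (E.j - x).num → (x : ZMod N) ∈ R →
          ∀ (p : ℕ) [Fact p.Prime], C < p → ¬ InNonsplitNormaliser E p := by
  set n : ℕ := 24 * ∏ q ∈ S.filter Nat.Prime, q with hn
  have hn0 : 0 < n := by
    refine Nat.mul_pos (by norm_num) (Finset.prod_pos fun q hq => ?_)
    exact (Finset.mem_filter.1 hq).2.pos
  obtain ⟨N₁, C, R₁, hN₁, hR₁, hx⟩ := dens (ι := Unit)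
    (fun _ => {ℓ : ℕ | ℓ.Prime ∧ 19 ≤ ℓ ∧ n ∣ ℓ + 1})
    (fun _ => neg_one_infinite n hn0) (fun _ ℓ hℓ => hℓ.1)
    (fun _ ℓ => {J : ZMod ℓ | ∃ _ : Fact ℓ.Prime, OrdZ ℓ J})
    (by
      intro _ ℓ hℓ
      have : Fact ℓ.Prime := ⟨hℓ.1⟩
      refine (card_ord_ge' ℓ hℓ.2.1).trans (le_of_eq ?_)
      rw [← Set.ncard_coe_finset]
      congr 2
      ext J
      simp only [Finset.coe_filter, Finset.mem_univ, true_and, Set.mem_ofPred_eq]
      constructor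
      · intro h
        exact ⟨inferInstance, h⟩
      · rintro ⟨_, h⟩
        exact h) ε hε
  have hfac : 0 < C.factorial := C.factorial_pos
  have : NeZero C.factorial := ⟨hfac.ne'⟩
  obtain ⟨R, hR, hRR⟩ := dens_two hN₁ hfac R₁ Finset.univ ε 0 hR₁ (by
    rw [Finset.card_univ, ZMod.card]
    linarith)
  rw [add_zero] at hR
  refine ⟨N₁ * C.factorial, C + 29, R, Nat.mul_pos hN₁ hfac, hR, ?_⟩
  intro E _ hj0 hj1 hS x hxN hxR p _ hp hI
  obtain ⟨ℓ, ⟨hℓ, h19, hnl⟩, hℓC, hF, hO⟩ := hx x (hRR x hxR).1 ()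
  have hFp : Fact p.Prime := inferInstance
  have hlN : (ℓ : ℤ) ∣ (E.j - x).num := by
    refine dvd_trans ?_ hxN
    have h1 : ℓ ∣ C.factorial := Nat.dvd_factorial hℓ.pos (by nlinarith)
    exact_mod_cast h1.trans (dvd_mul_left _ _)
  obtain ⟨hv, hjx⟩ := rj_cast ℓ E.j x hlN
  have hpl : (ℓ : ℤ) + 1 = n * ((ℓ + 1) / n : ℕ) := by
    exact_mod_cast (Nat.mul_div_cancel' hnl).symm
  have hn24 : (24 : ℤ) ∣ (ℓ : ℤ) + 1 := by
    exact_mod_cast (Dvd.intro _ rfl : 24 ∣ n).trans hnl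
  refine cor_neg E hj0 hj1 (-ℓ) ?_ ?_ ?_ ?_ p (by omega) ?_ hI
  · rw [← Int.squarefree_natAbs, Int.natAbs_neg, Int.natAbs_natCast]
    exact hℓ.prime.squarefree
  · have : (0 : ℤ) < ℓ := by exact_mod_cast hℓ.pos
    omega
  · omega
  · intro q hq
    obtain ⟨hqp, -, -, -⟩ := of_mem_oddPrimes hq
    have hqn : (q : ℤ) ∣ (ℓ : ℤ) + 1 := by
      have h1 : q ∣ n := dvd_mul_of_dvd_right
        (Finset.dvd_prod_of_mem (fun q => q) (Finset.mem_filter.2 ⟨hS hq, hqp⟩)) _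
      exact_mod_cast h1.trans hnl
    have h1 : (-(ℓ : ℤ)) % (q : ℤ) = 1 % (q : ℤ) := by
      rw [Int.emod_eq_emod_iff_emod_sub_eq_zero]
      apply Int.emod_eq_zero_of_dvd
      rw [show -(ℓ : ℤ) - 1 = -((ℓ : ℤ) + 1) by ring, dvd_neg]
      exact hqn
    rw [mod_left' h1]
    exact one_left _
  · intro l hl hlx
    have hll : l = ℓ := by
      rw [dvd_neg, Int.natCast_dvd_natCast] at hlx
      exact (Nat.prime_dvd_prime_iff_eq hl.out hℓ).1 hlx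
    subst hll
    refine ⟨hv, ?_, ?_⟩
    · rw [ordinaryAt_iff, hjx]
      exact hO
    · have h1 : 2 * l ^ 2 < p := by omega
      nlinarith

end Pool.Agent.H80.SU
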