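import Pool.Agent.H27.SU.PPloc
import Pool.Agent.H27.SU.ORdef
import Pool.Agent.H27.SU.ORpoly
import Pool.Agent.H27.SU.HSmain

/-!
# `j = 1728` is ordinary modulo `r = 1 mod 4`
-/

set_option autoImplicit false

namespace Pool.Agent.H80.SU

open WeierstrassCurve Polynomial Pool.Agent.H27.SU
open scoped Classical

theorem ordinary_i (r : ℕ) [Fact r.Prime] (h5 : 5 ≤ r) (h4 : r % 4 = 1) (j : ℚ)
    (hj : (j : ZMod r) = 1728) : OrdinaryAt j r := by
  have h2 : (2 : ZMod r) ≠ 0 := by
    intro h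
    have : ((2 : ℕ) : ZMod r) = 0 := by exact_mod_cast h
    rw [ZMod.natCast_eq_zero_iff] at this
    have := Nat.le_of_dvd (by norm_num) this
    omega
  set W : WeierstrassCurve (ZMod r) := ⟨0, 0, 0, 1, 0⟩ with hW
  have hs : W.IsShortNF := ⟨rfl, rfl, rfl⟩
  have he : W.IsElliptic := by
    apply elliptic_short h2 W
    show 4 * (1 : ZMod r) ^ 3 + 27 * (0 : ZMod r) ^ 2 ≠ 0
    have : 4 * (1 : ZMod r) ^ 3 + 27 * (0 : ZMod r) ^ 2 = 2 ^ 2 := by norm_num
    rw [this]
    exact pow_ne_zero _ h2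
  refine ⟨W, he, ?_, ?_⟩
  · obtain ⟨h4, h5⟩ := j_short h2 W
    apply mul_right_cancel₀ h4
    rw [h5, hj]
    show 1728 * (4 * (1 : ZMod r) ^ 3) = 1728 * (4 * (1 : ZMod r) ^ 3 + 27 * (0 : ZMod r) ^ 2)
    ring
  · set K := AlgebraicClosure (ZMod r)
    have hsK : (W.baseChange K).IsShortNF := by
      constructor
      · simp
      · simp [a₂_of_isShortNF]
      · simp
    have heK : (W.baseChange K).IsElliptic := inferInstanceAs (W.map (algebraMap (ZMod r) K)).IsElliptic
    have hchar : CharP K r := charP_of_injective_algebraMap (algebraMap (ZMod r) K).injective r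
    have e4 : (W.baseChange K).a₄ = 1 := by
      show algebraMap (ZMod r) K 1 = 1
      exact map_one _
    have e6 : (W.baseChange K).a₆ = 0 := by
      show algebraMap (ZMod r) K 0 = 0
      exact map_zero _
    refine ordinary_of_hasse r h5 (W.baseChange K) ?_ ?_ ?_ ?_
    · rw [e4, one_pow]
    · rw [e6, zero_pow (by omega)]
    · rw [e4]; exact one_ne_zero
    · rw [e4, e6]
      exact hasse_b0 r h4 1 one_ne_zero

end Pool.Agent.H80.SU
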