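import Pool.Agent.H80.SU.AFb
import Pool.Agent.H80.SU.Ord
import Pool.Agent.H27.SU.CFsq
import Pool.Agent.H27.SU.SQC

/-!
# MP_cda23d_nt.AuxiliaryField: primes `p = 1 mod 4`
-/

set_option autoImplicit false

namespace Pool.Agent.H80.SU

open jacobiSym WeierstrassCurve Pool.Agent.H27.SU
open scoped NumberTheorySymbols Classical

theorem sq_mod24 {t : ℤ} (h2 : ¬ (2 : ℤ) ∣ t) (h3 : ¬ (3 : ℤ) ∣ t) : t ^ 2 % 24 = 1 := by
  have h : t % 24 = 1 ∨ t % 24 = 5 ∨ t % 24 = 7 ∨ t % 24 = 11 ∨ t % 24 = 13 ∨ t % 24 = 17 ∨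
    t % 24 = 19 ∨ t % 24 = 23 := by omega
  rw [pow_two, Int.mul_emod]
  rcases h with h | h | h | h | h | h | h | h <;> rw [h] <;> norm_num

theorem val_two {j : ℚ} (hj : j ≠ 1728) (hj0 : j ≠ 0) (h : padicValRat 2 j = 0) :
    padicValRat 2 (j - 1728) = 0 := by
  have h1 : padicValRat 2 (-1728 : ℚ) = 6 := by
    rw [show (-1728 : ℚ) = -((1728 : ℕ) : ℚ) by norm_num, padicValRat.neg, padicValRat.of_nat,
      show 1728 = 2 ^ 6 * 27 by norm_num, padicValNat.mul (by norm_num) (by norm_num),
      padicValNat.prime_pow, padicValNat.eq_zero_of_not_dvd (by norm_num)]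
    norm_num
  rw [sub_eq_add_neg, padicValRat.add_eq_of_lt (by rw [← sub_eq_add_neg]; exact sub_ne_zero.2 hj)
    hj0 (by norm_num) (by rw [h, h1]; norm_num), h]

/-- numerator and valuation -/
theorem val_num {y : ℚ} (hy : y ≠ 0) {q : ℕ} (hq : q.Prime) :
    ((q : ℤ) ∣ y.num → padicValRat q y = padicValInt q y.num ∧ 0 < padicValRat q y) ∧
      (0 < padicValRat q y → (q : ℤ) ∣ y.num) := by
  have hF : Fact q.Prime := ⟨hq⟩
  constructor
  · intro h
    have hcop : ¬ q ∣ y.den := by
      intro h4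
      have h5 : q ∣ Nat.gcd y.num.natAbs y.den := Nat.dvd_gcd (Int.natCast_dvd.1 h) h4
      rw [y.reduced] at h5
      exact hq.one_lt.ne' (Nat.dvd_one.1 h5)
    have hval : padicValRat q y = ((padicValInt q y.num : ℕ) : ℤ) := by
      show (padicValInt q y.num : ℤ) - (padicValNat q y.den : ℤ) = _
      rw [padicValNat.eq_zero_of_not_dvd hcop, Nat.cast_zero, sub_zero]
    refine ⟨hval, ?_⟩
    rw [hval]
    have := (padicValInt_dvd_iff (p := q) 1 y.num).1 (by simpa using h)
    have h6 := this.resolve_left (Rat.num_ne_zero.2 hy)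
    exact_mod_cast h6
  · intro h
    by_contra h1
    have h2 : padicValRat q y = (padicValInt q y.num : ℤ) - (padicValNat q y.den : ℤ) := rfl
    rw [padicValInt.eq_zero_of_not_dvd h1] at h2
    omega

/-- `p = 1 mod 4` determines the field up to `2` and `3` -/
theorem cor_one_mod_four (E : WeierstrassCurve ℚ) [E.IsElliptic] (hj0 : E.j ≠ 0)
    (hj1 : E.j ≠ 1728) (p : ℕ) [Fact p.Prime] (hp : 29 ≤ p) (hp4 : p % 4 = 1)
    (hE : InNonsplitNormaliser E p) :
    ∃ c : ℤ, (c = 1 ∨ c = 2 ∨ c = 3 ∨ c = 6) ∧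
      (padicValRat 2 E.j ≤ 0 → padicValRat 3 E.j ≤ 0 →
        c = 1 ∧ (-|(E.j - 1728).num|) % 24 = 1) ∧
      legendreSym p (-(c * |(E.j - 1728).num|)) = -1 ∧
      ∀ (l : ℕ) [Fact l.Prime], 5 ≤ l → 4 * l < p ^ 2 → 0 ≤ padicValRat l E.j →
        OrdinaryAt E.j l → legendreSym l (-(c * |(E.j - 1728).num|)) ≠ -1 := by
  have hpp : p.Prime := Fact.out
  have hF2 : Fact (Nat.Prime 2) := ⟨Nat.prime_two⟩
  have hF3 : Fact (Nat.Prime 3) := ⟨Nat.prime_three⟩
  obtain ⟨hvp, hop, -, -, -, m, hm, hm0, hmp, hpole, ha, ha', ho, hb, hc, -⟩ :=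
    Pool.Agent.H82.HW.quad_field7 E hj0 hj1 p hp hE
  set y : ℚ := E.j - 1728 with hydef
  have hy : y ≠ 0 := sub_ne_zero.2 hj1
  set D : ℤ := y.num with hDdef
  have hD0 : D ≠ 0 := Rat.num_ne_zero.2 hy
  have hmD0 : m * D ≠ 0 := mul_ne_zero hm.ne_zero hD0
  obtain ⟨s, t, hst, ht0, hs⟩ := sq_class (m * D) hmD0 (by
    intro q hq h5
    have hF : Fact q.Prime := ⟨hq⟩
    rw [padicValRat.of_int, padicValInt.mul hm.ne_zero hD0, cf_padic_sqfree hm hq]
    by_cases hqm : (q : ℤ) ∣ m
    · rw [if_pos hqm]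
      obtain ⟨h6, h7, -⟩ := ha q hq h5 hqm
      have h8 := ((val_num hy hq).1 ((val_num hy hq).2 h6)).1
      rw [h8, Int.odd_coe_nat] at h7
      obtain ⟨c, hc⟩ := h7
      exact ⟨((c + 1 : ℕ) : ℤ), by push_cast; rw [hc]; push_cast; ring⟩
    · rw [if_neg hqm, zero_add]
      by_contra hcon
      rw [Int.not_even_iff_odd, Int.odd_coe_nat] at hcon
      have hqD : (q : ℤ) ∣ y.num := by
        by_contra h
        rw [padicValInt.eq_zero_of_not_dvd h] at hcon
        exact absurd hcon (by decide)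
      obtain ⟨h6, h7⟩ := (val_num hy hq).1 hqD
      rcases ha' q h5 h7 (by rw [h6, Int.odd_coe_nat]; exact hcon) with h | h
      · exact hqm h
      · omega)
  -- the sign
  have hs0 : s ≠ 0 := by
    rintro rfl
    rw [zero_mul] at hst
    exact hmD0 hst
  have hsD : s * D = -(|s| * |D|) := by
    have ht2 : 0 < t ^ 2 := by positivity
    have h1 : s * D < 0 := by
      rcases lt_or_gt_of_ne hD0 with h | h
      · have h2 : 0 < m * D := mul_pos_of_neg_of_neg hm0 h
        rw [hst] at h2
        have h3 : 0 < s := (mul_pos_iff_of_pos_right ht2).1 h2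
        exact mul_neg_of_pos_of_neg h3 h
      · have h2 : m * D < 0 := mul_neg_of_neg_of_pos hm0 h
        rw [hst] at h2
        have h3 : s < 0 := by
          by_contra h4
          push Not at h4
          have := mul_nonneg h4 ht2.le
          omega
        exact mul_neg_of_neg_of_pos h3 h
    rw [← abs_mul, abs_of_neg h1, neg_neg]
  have hsabs : |s| = 1 ∨ |s| = 2 ∨ |s| = 3 ∨ |s| = 6 := by
    rcases hs with h | h | h | h | h | h | h | h <;> rw [h] <;> norm_num
  have key : s * (m * D) = (s * t) ^ 2 := by rw [hst]; ring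
  refine ⟨|s|, hsabs, ?_, ?_, ?_⟩
  · intro h2 h3
    have hv2 : padicValRat 2 E.j = 0 := by
      refine le_antisymm h2 ?_
      by_contra h
      have := (hpole 2 (not_le.1 h)).2.1
      omega
    have hv3 : padicValRat 3 E.j = 0 := by
      refine le_antisymm h3 ?_
      by_contra h
      have := (hpole 3 (not_le.1 h)).2.1
      omega
    have hm8 := hb hv2
    have hm3 := hc hv3
    have hD2 : ¬ (2 : ℤ) ∣ D := by
      intro h
      have h5 := ((val_num hy Nat.prime_two).1 (by exact_mod_cast h)).2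
      rw [hydef, val_two hj1 hj0 hv2] at h5
      omega
    have hD3 : ¬ (3 : ℤ) ∣ D := by
      intro h
      have h5 := ((val_num hy Nat.prime_three).1 (by exact_mod_cast h)).2
      rw [hydef, val_three hj1 hj0 hv3] at h5
      omega
    have hmD2 : ¬ (2 : ℤ) ∣ m * D := by
      intro h
      rcases Int.prime_two.dvd_or_dvd h with h | h
      · omega
      · exact hD2 h
    have hmD3 : ¬ (3 : ℤ) ∣ m * D := by
      intro h
      rcases Int.prime_three.dvd_or_dvd h with h | h
      · omega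
      · exact hD3 h
    rw [hst] at hmD2 hmD3
    have ht24 : t ^ 2 % 24 = 1 := by
      apply sq_mod24
      · intro h
        exact hmD2 (dvd_mul_of_dvd_right (h.trans (dvd_pow_self t two_ne_zero)) _)
      · intro h
        exact hmD3 (dvd_mul_of_dvd_right (h.trans (dvd_pow_self t two_ne_zero)) _)
    have hs1 : s = 1 ∨ s = -1 := by
      rcases hs with h | h | h | h | h | h | h | h
      · exact Or.inl h
      · exact Or.inr h
      · exact absurd (by rw [h]; exact dvd_mul_of_dvd_left (by norm_num) _) hmD2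
      · exact absurd (by rw [h]; exact dvd_mul_of_dvd_left (by norm_num) _) hmD2
      · exact absurd (by rw [h]; exact dvd_mul_of_dvd_left (by norm_num) _) hmD3
      · exact absurd (by rw [h]; exact dvd_mul_of_dvd_left (by norm_num) _) hmD3
      · exact absurd (by rw [h]; exact dvd_mul_of_dvd_left (by norm_num) _) hmD2
      · exact absurd (by rw [h]; exact dvd_mul_of_dvd_left (by norm_num) _) hmD2
    have habs : |s| = 1 := by
      rcases hs1 with h | h <;> rw [h] <;> norm_num
    refine ⟨habs, ?_⟩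
    rw [habs, one_mul] at hsD
    rw [← hsD]
    have hm24 : m % 24 = 1 := by omega
    -- `D ≡ s` modulo `24`
    have h5 : D % 24 = s % 24 := by
      have h6 : (m * D) % 24 = (s * t ^ 2) % 24 := by rw [hst]
      rw [Int.mul_emod, hm24, one_mul, Int.emod_emod_of_dvd _ (dvd_refl _), Int.mul_emod s,
        ht24, mul_one, Int.emod_emod_of_dvd _ (dvd_refl _)] at h6
      exact h6
    rw [Int.mul_emod, h5, ← Int.mul_emod]
    rcases hs1 with h | h <;> rw [h] <;> norm_num
  · rw [← hsD]
    -- `p` does not divide `D`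
    have hpD : ¬ (p : ℤ) ∣ D := by
      intro h
      apply hop
      apply ordinary_i p (by omega) hp4
      have hden : ¬ p ∣ y.den := by
        intro h1
        have h2 : p ∣ Nat.gcd y.num.natAbs y.den := Nat.dvd_gcd (Int.natCast_dvd.1 h) h1
        rw [y.reduced] at h2
        exact hpp.one_lt.ne' (Nat.dvd_one.1 h2)
      have d1 : ((y.den : ℕ) : ZMod p) ≠ 0 := by
        rw [Ne, ZMod.natCast_eq_zero_iff]
        exact hden
      have d2 : (((1728 : ℚ).den : ℕ) : ZMod p) ≠ 0 := by
        have : (1728 : ℚ).den = 1 := rfl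
        rw [this]
        simp
      have e1 : ((y : ℚ) : ZMod p) = 0 := by
        rw [Rat.cast_def, (ZMod.intCast_zmod_eq_zero_iff_dvd _ _).2 h, zero_div]
      have e2 : E.j = y + 1728 := by rw [hydef]; ring
      rw [e2, Rat.cast_add_of_ne_zero d1 d2, e1, zero_add]
      exact Rat.cast_ofNat 1728
    have hps : ¬ (p : ℤ) ∣ s := by
      intro h
      have h1 := Int.le_of_dvd (abs_pos.2 hs0) ((dvd_abs _ _).2 h)
      omega
    have hsD0 : ((s * D : ℤ) : ZMod p) ≠ 0 := by
      rw [Ne, ZMod.intCast_zmod_eq_zero_iff_dvd]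
      intro h
      rcases (Nat.prime_iff_prime_int.1 hpp).dvd_or_dvd h with h | h
      · exact hps h
      · exact hpD h
    have hpm : ¬ (p : ℤ) ∣ m := by
      intro h
      rw [← ZMod.intCast_zmod_eq_zero_iff_dvd, ← legendreSym.eq_zero_iff, hmp] at h
      norm_num at h
    have hst0 : ((s * t : ℤ) : ZMod p) ≠ 0 := by
      rw [Ne, ZMod.intCast_zmod_eq_zero_iff_dvd]
      intro h
      have h1 : (p : ℤ) ∣ s * (m * D) := by
        rw [key, pow_two]
        exact dvd_mul_of_dvd_left h _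
      rcases (Nat.prime_iff_prime_int.1 hpp).dvd_or_dvd h1 with h | h
      · exact hps h
      · rcases (Nat.prime_iff_prime_int.1 hpp).dvd_or_dvd h with h | h
        · exact hpm h
        · exact hpD h
    have h1 : legendreSym p (s * D) * legendreSym p m = 1 := by
      rw [← legendreSym.mul, show s * D * m = (s * t) ^ 2 by rw [← key]; ring]
      exact legendreSym.sq_one' p hst0
    rw [hmp] at h1
    omega
  · intro l hl h5 hl4 hv hord
    rw [← hsD]
    intro h
    exact ho l h5 hl4 hv hord (leg_transfer l m D s (s * t) hm key h)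

end Pool.Agent.H80.SU
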