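import Pool.Agent.H27.SU.CGmain
import Pool.Agent.H82.HW.QuadField7

/-!
# MP_cda23d_nt.AuxiliaryField: `x = 3 a b` (as `Pool.Agent.H27.SU.cube_free_rat`, Hasse range)
-/

set_option autoImplicit false

namespace Pool.Agent.H80.SU

open jacobiSym WeierstrassCurve Pool.Agent.H27.SU
open scoped NumberTheorySymbols Classical

theorem cube_free7 (E : WeierstrassCurve ℚ) [E.IsElliptic] (hcub : ∀ c : ℤ, E.j.num ≠ c ^ 3)
    (h2e : (2 : ℤ) ∣ E.j.num → ¬ 3 ∣ padicValInt 2 E.j.num)
    (h3e : (3 : ℤ) ∣ E.j.num → ¬ 3 ∣ padicValInt 3 E.j.num) (p : ℕ) [Fact p.Prime] (hp : 29 ≤ p)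
    (h6 : ∀ r : ℕ, r.Prime → 5 ≤ r → padicValInt r E.j.num % 6 = 3 →
      r % 3 = 1 ∧ 4 * r < p ^ 2)
    (hN : InNonsplitNormaliser E p) :
    p % 3 = 2 ∧ (E.j.num % 2 = 1 ∧ legendreSym p (-7) = -1 ∨ (16 : ℤ) ∣ E.j.num) ∧
      (¬ (3 : ℤ) ∣ E.j.num → (p : ℤ) ∣ E.j.den - J(E.j.num | 3)) ∧
      (p % 4 = 1 → (p : ℤ) ∣ E.j.den - (if E.j < 1728 then 1 else -1)) := by
  have hpp : p.Prime := Fact.out
  have hF2 : Fact (Nat.Prime 2) := ⟨Nat.prime_two⟩
  have hF3 : Fact (Nat.Prime 3) := ⟨Nat.prime_three⟩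
  set a : ℤ := E.j.num with ha_def
  set b : ℕ := E.j.den with hb_def
  have hb0 : b ≠ 0 := E.j.den_nz
  have hbQ : (b : ℚ) ≠ 0 := by exact_mod_cast hb0
  have hjab : E.j = (a : ℚ) / b := (Rat.num_div_den E.j).symm
  have hcop : ∀ r : ℕ, r.Prime → (r : ℤ) ∣ a → ¬ r ∣ b := by
    intro r hr h1 h2
    have h3 : r ∣ Nat.gcd a.natAbs b := Nat.dvd_gcd (Int.natCast_dvd.1 h1) h2
    rw [E.j.reduced] at h3
    exact hr.one_lt.ne' (Nat.dvd_one.1 h3)
  have ha0 : a ≠ 0 := by
    intro h
    exact hcub 0 (by rw [h]; norm_num)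
  have hv : ∀ q : ℕ, padicValRat q E.j = (padicValInt q a : ℤ) - (padicValNat q b : ℤ) :=
    fun q => rfl
  have hpos : ∀ r : ℕ, r.Prime → ((r : ℤ) ∣ a ↔ 1 ≤ padicValInt r a) := by
    intro r hr
    have : Fact r.Prime := ⟨hr⟩
    have h1 := padicValInt_dvd_iff (p := r) 1 a
    rw [pow_one] at h1
    rw [h1]
    constructor
    · rintro (h | h)
      · exact absurd h ha0
      · exact h
    · exact Or.inr
  have hva : ∀ r : ℕ, r.Prime → (r : ℤ) ∣ a → padicValRat r E.j = (padicValInt r a : ℤ) := by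
    intro r hr h
    rw [hv, padicValNat.eq_zero_of_not_dvd (hcop r hr h)]
    simp
  have hvb : ∀ r : ℕ, r.Prime → r ∣ b → padicValRat r E.j < 0 := by
    intro r hr h
    have : Fact r.Prime := ⟨hr⟩
    have h1 : ¬ (r : ℤ) ∣ a := fun h2 => hcop r hr h2 h
    rw [hv, padicValInt.eq_zero_of_not_dvd h1]
    have := one_le_padicValNat_of_dvd hb0 h
    omega
  have hEj0 : E.j ≠ 0 := by
    intro h
    apply ha0
    rw [ha_def, h]
    rfl
  have hEj1 : E.j ≠ 1728 := by
    intro h
    apply hcub 12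
    rw [ha_def, h]
    rfl
  set D : ℤ := a - 1728 * b with hD_def
  have hD : E.j - 1728 = (D : ℚ) / b := by
    rw [hjab, hD_def]
    push_cast
    field_simp
  have hD0 : D ≠ 0 := by
    intro h
    rw [h] at hD
    apply hEj1
    have : E.j - 1728 = 0 := by rw [hD]; simp
    linarith
  have hvD : ∀ q : ℕ, q.Prime → padicValRat q (E.j - 1728) =
      (padicValInt q D : ℤ) - (padicValNat q b : ℤ) := by
    intro q hq
    have : Fact q.Prime := ⟨hq⟩
    rw [hD, padicValRat.div (by exact_mod_cast hD0) hbQ, padicValRat.of_int,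
      padicValRat.of_nat]
  obtain ⟨hjp, -, -, -, -, m, hm, hm0, hmp, hpole, ha, ha', ho, hb, hc, hd⟩ :=
    Pool.Agent.H82.HW.quad_field7 E hEj0 hEj1 p hp hN
  have hpb : ¬ p ∣ b := fun h => absurd (hvb p hpp h) (not_lt.2 hjp)
  have hb2 : b % 2 = 1 := by
    by_contra h
    have := (hpole 2 (hvb 2 Nat.prime_two (by omega))).2.1
    omega
  have hb3 : ¬ 3 ∣ b := by
    intro h
    have := (hpole 3 (hvb 3 Nat.prime_three h)).2.1
    omega
  have hDb : ∀ q : ℕ, q.Prime → q ∣ b → ¬ (q : ℤ) ∣ D := by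
    intro q hq h1 h2
    apply hcop q hq ?_ h1
    have h3 : (q : ℤ) ∣ 1728 * b := dvd_mul_of_dvd_right (Int.natCast_dvd_natCast.2 h1) _
    have := dvd_add h2 h3
    rwa [hD_def, sub_add_cancel] at this
  have hmb : ∀ q : ℕ, q.Prime → 5 ≤ q → q ∣ b → ¬ (q : ℤ) ∣ m := by
    intro q hq h5 h1 h2
    have := (ha q hq h5 h2).1
    rw [hvD q hq, padicValInt.eq_zero_of_not_dvd (hDb q hq h1)] at this
    omega
  have hb5 : ∀ q : ℕ, q.Prime → q ∣ b → 5 ≤ q := by
    intro q hq h
    have := hq.two_le
    rcases (by omega : q = 2 ∨ q = 3 ∨ q = 4 ∨ 5 ≤ q) with rfl | rfl | rfl | h'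
    · omega
    · exact absurd h hb3
    · exact absurd hq (by norm_num)
    · exact h'
  have hJb : (p : ℤ) ∣ b - J(m | b) := by
    apply cg_mod _ _ _ hb0
    intro q hq h
    have : Fact q.Prime := ⟨hq⟩
    rw [← legendreSym.to_jacobiSym]
    exact (hpole q (hvb q hq h)).2.2
  have h3' : ∀ r : ℕ, r.Prime → (r : ℤ) ∣ a → ¬ 3 ∣ padicValInt r a →
      0 < padicValRat r E.j ∧ ¬ (3 : ℤ) ∣ padicValRat r E.j := by
    intro r hr hra h3r
    rw [hva r hr hra]
    refine ⟨by exact_mod_cast (hpos r hr).1 hra, fun h => h3r (by exact_mod_cast h)⟩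
  have hv0 : ∀ r : ℕ, r.Prime → ¬ (r : ℤ) ∣ a → ¬ r ∣ b → padicValRat r E.j = 0 := by
    intro r _ h1 h2
    rw [hv, padicValInt.eq_zero_of_not_dvd h1, padicValNat.eq_zero_of_not_dvd h2]
    rfl
  -- two
  have hwild : ∀ k : ℕ, 1 ≤ k → k ≤ 11 → ¬ 4 ∣ k → padicValInt 2 a ≠ k := by
    intro k h1 h2 h4 hk
    have h2a : (2 : ℤ) ∣ a := by
      have := hpos 2 Nat.prime_two
      push_cast at this
      rw [this, hk]
      exact h1
    refine wild_two E h1 h2 ?_ h4 (by rw [hva 2 Nat.prime_two (by exact_mod_cast h2a), hk]) p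
      (by omega) hN
    rw [← hk]
    exact h2e h2a
  have htwo : a % 2 = 1 ∨ (16 : ℤ) ∣ a := by
    by_cases h2 : a % 2 = 1
    · exact Or.inl h2
    right
    have h1 : 1 ≤ padicValInt 2 a := (hpos 2 Nat.prime_two).1 (by push_cast; omega)
    have h4 : 4 ≤ padicValInt 2 a := by
      by_contra hlt
      push Not at hlt
      exact hwild (padicValInt 2 a) h1 (by omega) (by omega) rfl
    have h5 := (padicValInt_dvd_iff (p := 2) 4 a).2 (Or.inr h4)
    simpa using h5
  have h2b : ¬ 2 ∣ b := by omega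
  have hm8 : (a % 2 = 1 ∧ m % 8 = 1) ∨ (a % 2 = 0 ∧ m % 8 = 5) := by
    by_cases h2 : a % 2 = 1
    · exact Or.inl ⟨h2, hb (hv0 2 Nat.prime_two (by push_cast; omega) h2b)⟩
    · right
      have h2j : (2 : ℤ) ∣ a := by omega
      obtain ⟨h4, h5⟩ := h3' 2 Nat.prime_two (by exact_mod_cast h2j) (h2e h2j)
      exact ⟨by omega, (hd 2 h4 h5).2.1 rfl⟩
  have hdvd1728 : ∀ r : ℕ, r.Prime → 5 ≤ r → ¬ (r : ℤ) ∣ 1728 := by
    intro r hr h5 h10
    have h11 : r ∣ 2 ^ 6 * 3 ^ 3 := by
      norm_num
      exact_mod_cast h10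
    rcases (Nat.Prime.dvd_mul hr).1 h11 with h12 | h12
    · have := Nat.le_of_dvd (by norm_num) (hr.dvd_of_dvd_pow h12)
      omega
    · have := Nat.le_of_dvd (by norm_num) (hr.dvd_of_dvd_pow h12)
      omega
  have haD : ∀ r : ℕ, r.Prime → 5 ≤ r → (r : ℤ) ∣ a → ¬ (r : ℤ) ∣ D := by
    intro r hr h5 h1 h2
    have h3 : (r : ℤ) ∣ 1728 * b := by
      have := dvd_sub h1 h2
      rwa [hD_def, sub_sub_cancel] at this
    rcases (Nat.prime_iff_prime_int.1 hr).dvd_or_dvd h3 with h | h
    · exact hdvd1728 r hr h5 h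
    · exact hcop r hr h1 (Int.natCast_dvd_natCast.1 h)
  have hmD : ∀ r : ℕ, r.Prime → 5 ≤ r → (r : ℤ) ∣ m → Odd (padicValInt r D) ∧ ¬ r ∣ b := by
    intro r hr h5 h1
    have h2 : ¬ r ∣ b := fun h => hmb r hr h5 h h1
    have h3 := (ha r hr h5 h1).2.1
    rw [hvD r hr, padicValNat.eq_zero_of_not_dvd h2, Nat.cast_zero, sub_zero,
      Int.odd_coe_nat] at h3
    exact ⟨h3, h2⟩
  have hma : ∀ r : ℕ, r.Prime → 5 ≤ r → (r : ℤ) ∣ a → ¬ (r : ℤ) ∣ m := by
    intro r hr h5 h1 h2
    have : Fact r.Prime := ⟨hr⟩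
    apply haD r hr h5 h1
    obtain ⟨c, hc⟩ := (hmD r hr h5 h2).1
    have h5 := (padicValInt_dvd_iff (p := r) 1 D).2 (Or.inr (by omega))
    simpa using h5
  -- the symbol of `m` at the primes of `a`
  have hleg : ∀ r : ℕ, r.Prime → 5 ≤ r → Odd (padicValInt r a) → J(m | r) = J(-3 | r) := by
    intro r hr h5 hodd
    have hrF : Fact r.Prime := ⟨hr⟩
    have hra : (r : ℤ) ∣ a := (hpos r hr).2 (by
      obtain ⟨c, hc⟩ := hodd
      omega)
    by_cases h30 : 3 ∣ padicValInt r a
    · obtain ⟨h7, h8⟩ := h6 r hr h5 (by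
        obtain ⟨c, hc⟩ := hodd
        obtain ⟨d, hd'⟩ := h30
        omega)
      have h9 := ho r h5 h8 (by rw [hva r hr hra]; exact Int.natCast_nonneg _)
        (cg_ordinary r h5 h7 E.j hra)
      have hrm0 : ((m : ℤ) : ZMod r) ≠ 0 := by
        rw [Ne, ZMod.intCast_zmod_eq_zero_iff_dvd]
        exact hma r hr h5 hra
      have h10 : legendreSym r m = 1 := (legendreSym.eq_one_or_neg_one r hrm0).resolve_right h9
      have h11 : legendreSym r (-3) = 1 := by
        have h12 : legendreSym 3 (r : ℤ) = 1 := by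
          have h13 : legendreSym 3 ((r : ℤ) % ((3 : ℕ) : ℤ)) = legendreSym 3 (r : ℤ) :=
            (legendreSym.mod 3 (r : ℤ)).symm
          rw [← h13, show ((r : ℤ) % ((3 : ℕ) : ℤ)) = 1 by omega]
          exact legendreSym.at_one 3
        have h14 : r ≠ 2 := by omega
        have e3 : legendreSym r (-3) = legendreSym r (-1) * legendreSym r ((3 : ℕ) : ℤ) := by
          rw [← legendreSym.mul]
          norm_num
        rcases (by
          rcases hr.eq_two_or_odd with h | h
          · omega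
          · omega : r % 4 = 1 ∨ r % 4 = 3) with h15 | h15
        · have e1 : legendreSym r ((3 : ℕ) : ℤ) = legendreSym 3 ((r : ℕ) : ℤ) :=
            (legendreSym.quadratic_reciprocity_one_mod_four h15 (by norm_num)).symm
          have e2 : legendreSym r (-1) = 1 := by
            rw [legendreSym.at_neg_one h14, ZMod.χ₄_nat_one_mod_four h15]
          rw [e3, e1, e2, h12]
          norm_num
        · have e1 : legendreSym r ((3 : ℕ) : ℤ) = -legendreSym 3 ((r : ℕ) : ℤ) :=
            legendreSym.quadratic_reciprocity_three_mod_four (by norm_num) h15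
          have e2 : legendreSym r (-1) = -1 := by
            rw [legendreSym.at_neg_one h14, ZMod.χ₄_nat_three_mod_four h15]
          rw [e3, e1, e2, h12]
          norm_num
      rw [← legendreSym.to_jacobiSym, ← legendreSym.to_jacobiSym, h10, h11]
    · obtain ⟨h4, h6'⟩ := h3' r hr hra h30
      rw [← legendreSym.to_jacobiSym, ← legendreSym.to_jacobiSym]
      exact (hd r h4 h6').2.2.2 h5
  have hm3sq : ∀ r : ℕ, r.Prime → 5 ≤ r → J(-3 | r) ^ 2 = 1 := by
    intro r hr h5
    apply sq_one
    rw [Int.gcd, Int.natAbs_natCast]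
    exact (Nat.coprime_primes Nat.prime_three hr).2 (by omega)
  refine ⟨?_, ?_, ?_, ?_⟩
  · -- `p = 2 mod 3`
    have h30 : p % 3 ≠ 0 := by
      intro h
      have := (Nat.prime_dvd_prime_iff_eq Nat.prime_three hpp).1 (Nat.dvd_of_mod_eq_zero h)
      omega
    by_contra hne
    have h31 : p % 3 = 1 := by omega
    obtain ⟨c, hc⟩ := Pool.Agent.H41.SD.numerator_cube E p hp h31 hN
    exact hcub c hc
  · rcases htwo with h | h
    · exact Or.inl ⟨h, Pool.Agent.H82.SX.leg_two_main E hEj1 hEj0
        (hv0 2 Nat.prime_two (by push_cast; omega) h2b) (by omega) hN⟩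
    · exact Or.inr h
  · -- reciprocity
    intro h3a
    have hm3 : m % 3 = 1 := hc (hv0 3 Nat.prime_three (by exact_mod_cast h3a) hb3)
    have hmdvd : m ∣ D := by
      apply cf_sqf_dvd hm
      intro r hr hrm
      have hr2 := hr.two_le
      rcases (by omega : r = 2 ∨ r = 3 ∨ r = 4 ∨ 5 ≤ r) with rfl | rfl | rfl | h
      · exfalso
        have : (2 : ℤ) ∣ m := by exact_mod_cast hrm
        omega
      · exfalso
        have : (3 : ℤ) ∣ m := by exact_mod_cast hrm
        omega
      · exact absurd hr (by norm_num)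
      · have : Fact r.Prime := ⟨hr⟩
        obtain ⟨c, hc⟩ := (hmD r hr h hrm).1
        have h5 := (padicValInt_dvd_iff (p := r) 1 D).2 (Or.inr (by omega))
        simpa using h5
    have h := cg_recip a m b hb2 h3a hm0 hmdvd hcop hm8 hm3 (by
      intro r hr h5 hodd
      rw [mul_left, hleg r hr h5 hodd, ← pow_two]
      exact hm3sq r hr h5)
    rw [← h]
    exact hJb
  · -- `p = 1 mod 4`
    intro hp4
    have hm2 : m % 2 = 1 := by omega
    have hmD0 : m * D ≠ 0 := mul_ne_zero hm.ne_zero hD0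
    have hodd2 : padicValInt 2 m = 0 := padicValInt.eq_zero_of_not_dvd (by push_cast; omega)
    -- the class in `ℚ_3`
    have hsq3 : (3 : ℤ) ∣ a → IsSquare (((m * D : ℤ) : ℚ_[3]) / ((b : ℤ) : ℚ_[3])) := by
      intro h
      obtain ⟨h1, h2⟩ := h3' 3 Nat.prime_three (by exact_mod_cast h) (h3e h)
      have h4 := (hd 3 h1 h2).2.2.1 rfl
      rw [hD] at h4
      push_cast at h4 ⊢
      rw [mul_div_assoc]
      exact h4
    have hb3' : ((b : ℤ) : ℚ_[3]) ≠ 0 := by exact_mod_cast hb0
    obtain ⟨t, ht0, ht⟩ := cf_even_sq (m * D) hmD0 (by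
      intro q hq
      have hqF : Fact q.Prime := ⟨hq⟩
      have hq2 := hq.two_le
      rcases (by omega : q = 2 ∨ q = 3 ∨ q = 4 ∨ 5 ≤ q) with rfl | rfl | rfl | h
      · rw [padicValInt.mul hm.ne_zero hD0, hodd2, zero_add]
        rcases htwo with h | h
        · rw [padicValInt.eq_zero_of_not_dvd (by push_cast; omega)]
          exact Even.zero
        · have h7 : (2 : ℤ) ∣ a := (by norm_num : (2 : ℤ) ∣ 16).trans h
          have h8 := h2e h7
          exact cg_two_adic (by omega) h (hwild 5 (by norm_num) (by norm_num) (by norm_num))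
            (by rintro h9; rw [h9] at h8; omega) ha0
      · by_cases h : (3 : ℤ) ∣ a
        · obtain ⟨x, hx⟩ := hsq3 h
          have h9 : (((m * D * b : ℤ)) : ℚ_[3]) = (x * ((b : ℤ) : ℚ_[3])) *
              (x * ((b : ℤ) : ℚ_[3])) := by
            rw [div_eq_iff hb3'] at hx
            push_cast at hx ⊢
            rw [hx]
            ring
          have h10 := cf_val_even_of_sq (mul_ne_zero hmD0 (by exact_mod_cast hb0)) 3 ⟨_, h9⟩
          rw [padicValInt.mul hmD0 (by exact_mod_cast hb0),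
            padicValInt.eq_zero_of_not_dvd (show ¬ ((3 : ℕ) : ℤ) ∣ (b : ℤ) from
              fun h => hb3 (Int.natCast_dvd_natCast.1 h)), add_zero] at h10
          exact h10
        · have hm3 : m % 3 = 1 := hc (hv0 3 Nat.prime_three (by exact_mod_cast h) hb3)
          rw [padicValInt.mul hm.ne_zero hD0,
            padicValInt.eq_zero_of_not_dvd (show ¬ ((3 : ℕ) : ℤ) ∣ m by push_cast; omega),
            padicValInt.eq_zero_of_not_dvd (show ¬ ((3 : ℕ) : ℤ) ∣ D by push_cast; omega)]
          exact Even.zero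
      · exact absurd hq (by norm_num)
      · rw [padicValInt.mul hm.ne_zero hD0, cf_padic_sqfree hm hq]
        by_cases hqm : (q : ℤ) ∣ m
        · rw [if_pos hqm]
          obtain ⟨c, hc⟩ := (hmD q hq h hqm).1
          exact ⟨c + 1, by omega⟩
        · rw [if_neg hqm, zero_add]
          by_contra hcon
          rw [Nat.not_even_iff_odd] at hcon
          have hqb : ¬ q ∣ b := by
            intro h1
            rw [padicValInt.eq_zero_of_not_dvd (hDb q hq h1)] at hcon
            exact absurd hcon (by decide)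
          have hval : padicValRat q (E.j - 1728) = (padicValInt q D : ℤ) := by
            rw [hvD q hq, padicValNat.eq_zero_of_not_dvd hqb, Nat.cast_zero, sub_zero]
          rcases ha' q h (by
              rw [hval]
              obtain ⟨c, hc⟩ := hcon
              omega) (by rw [hval, Int.odd_coe_nat]; exact hcon) with h4 | h4
          · exact hqm h4
          · omega)
    -- the sign
    have hbpos : (0 : ℚ) < b := by
      have : 0 < b := Nat.pos_of_ne_zero hb0
      exact_mod_cast this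
    obtain ⟨σ, hσ, hσD, hσE⟩ : ∃ σ : ℤ, (σ = 1 ∨ σ = -1) ∧ (σ = 1 → 0 < D) ∧
        (m * D = -σ * t ^ 2 ∧ (if E.j < 1728 then (1 : ℤ) else -1) = -σ) := by
      rcases lt_or_gt_of_ne hD0 with h | h
      · refine ⟨-1, Or.inr rfl, fun h => absurd h (by norm_num), ?_, ?_⟩
        · have h1 : 0 < m * D := mul_pos_of_neg_of_neg hm0 h
          rcases ht with h2 | h2
          · rw [h2]; ring
          · rw [h2] at h1
            nlinarith [sq_nonneg t]
        · have h1 : (D : ℚ) < 0 := by exact_mod_cast h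
          have h2 : E.j - 1728 < 0 := by
            rw [hD]
            exact div_neg_of_neg_of_pos h1 hbpos
          rw [if_pos (by linarith)]
          norm_num
      · refine ⟨1, Or.inl rfl, fun _ => h, ?_, ?_⟩
        · have h1 : m * D < 0 := mul_neg_of_neg_of_pos hm0 h
          rcases ht with h2 | h2
          · rw [h2] at h1
            nlinarith [sq_nonneg t]
          · rw [h2]; ring
        · have h1 : (0 : ℚ) < D := by exact_mod_cast h
          have h2 : 0 < E.j - 1728 := by
            rw [hD]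
            exact div_pos h1 hbpos
          rw [if_neg (by linarith)]
    obtain ⟨hmt, hif⟩ := hσE
    have hσ3 : ∀ r : ℕ, r.Prime → (r : ℤ) ∣ m * D → (r : ℤ) ∣ m ∨ (r : ℤ) ∣ D := fun r hr h =>
      (Nat.prime_iff_prime_int.1 hr).dvd_or_dvd h
    have hrt : ∀ r : ℕ, (r : ℤ) ∣ t → (r : ℤ) ∣ m * D := by
      intro r h
      rw [hmt, pow_two]
      exact dvd_mul_of_dvd_right (dvd_mul_of_dvd_left h _) _
    have hkey : J(m | b) = -σ := by
      apply cg_one a b m σ t hσ hb2 ha0 ?_ hm8 htwo
        (hwild 5 (by norm_num) (by norm_num) (by norm_num)) ?_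
        (hwild 7 (by norm_num) (by norm_num) (by norm_num)) hcop hmt ?_ ?_
      · intro h
        have h1 := hσD h
        have h2 : (0 : ℤ) < b := by exact_mod_cast Nat.pos_of_ne_zero hb0
        rw [hD_def] at h1
        linarith
      · intro h9
        have h7 : (2 : ℤ) ∣ a := by
          have := hpos 2 Nat.prime_two
          push_cast at this
          rw [this, h9]
          norm_num
        have h8 := h2e h7
        rw [h9] at h8
        omega
      · intro r hr h1 h2
        rcases hσ3 r hr (hrt r h2) with h | h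
        · exact hmb r hr (hb5 r hr h1) h1 h
        · exact hDb r hr h1 h
      · intro r hr h3 hodd
        have hrF : Fact r.Prime := ⟨hr⟩
        have hra : (r : ℤ) ∣ a := (hpos r hr).2 (by
          obtain ⟨c, hc⟩ := hodd
          omega)
        rcases (by omega : r = 3 ∨ r = 4 ∨ 5 ≤ r) with rfl | rfl | h5
        · -- `r = 3`
          obtain ⟨x, hx⟩ := hsq3 (by exact_mod_cast hra)
          have ht3 : (t : ℚ_[3]) ≠ 0 := by exact_mod_cast ht0
          have h9 : (((-σ * b : ℤ)) : ℚ_[3]) = (x * ((b : ℤ) : ℚ_[3]) / t) *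
              (x * ((b : ℤ) : ℚ_[3]) / t) := by
            rw [div_eq_iff hb3', hmt] at hx
            rw [div_mul_div_comm, eq_div_iff (mul_ne_zero ht3 ht3)]
            push_cast at hx ⊢
            linear_combination (b : ℚ_[3]) * hx
          have h10 := cg_sq_padic3 (by
            intro h
            rcases (Int.prime_three).dvd_or_dvd h with h | h
            · rcases hσ with rfl | rfl <;> norm_num at h
            · exact hb3 (by exact_mod_cast h)) ⟨_, h9⟩
          rw [mod_left, show ((-σ * b) % ((3 : ℕ) : ℤ)) = 1 by exact_mod_cast h10]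
          exact one_left _
        · exact absurd hr (by norm_num)
        · have hcopr : ∀ y : ℤ, ¬ (r : ℤ) ∣ y → Int.gcd y r = 1 := by
            intro y hy
            rw [Int.gcd, Int.natAbs_natCast]
            refine (Nat.Coprime.symm ((Nat.Prime.coprime_iff_not_dvd hr).2 ?_))
            intro h
            exact hy (Int.natCast_dvd.2 h)
          have hrt' : ¬ (r : ℤ) ∣ t := by
            intro h2
            rcases hσ3 r hr (hrt r h2) with h | h
            · exact hma r hr h5 hra h
            · exact haD r hr h5 hra h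
          have e1 : J(m * D | r) = J(-σ | r) := by
            rw [hmt, mul_left, sq_one' (hcopr t hrt'), mul_one]
          have e2 : J(D | r) = J(-3 | r) * J(b | r) := by
            have h9 : D % (r : ℤ) = (-3 * b * 24 ^ 2) % (r : ℤ) := by
              rw [Int.emod_eq_emod_iff_emod_sub_eq_zero]
              apply Int.emod_eq_zero_of_dvd
              rw [show D - -3 * b * 24 ^ 2 = a by rw [hD_def]; ring]
              exact hra
            rw [mod_left' h9, mul_left, sq_one' (hcopr 24 (by
              intro h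
              apply hdvd1728 r hr h5
              exact h.trans (by norm_num))), mul_one, mul_left]
          have e3 := hm3sq r hr h5
          rw [mul_left, hleg r hr h5 hodd, e2] at e1
          have e4 : J(b | r) = J(-σ | r) := by
            rw [← e1]
            linear_combination (-J(b | r)) * e3
          rw [mul_left, e4, ← pow_two]
          apply sq_one
          apply hcopr
          intro h
          have h8 : (r : ℤ) ∣ 1 := by
            rcases hσ with rfl | rfl
            · rwa [dvd_neg] at h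
            · rwa [neg_neg] at h
          have := Int.le_of_dvd (by norm_num) h8
          omega
    rw [hif, ← hkey]
    exact hJb

end Pool.Agent.H80.SU
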