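import Mathlib

/-!
# MP_cda23d_nt.AuxiliaryField: definitions
-/

set_option autoImplicit false

namespace Pool.Agent.H80.SU

/-- the odd primes `q` at which the valuation of `j - 1728` is positive and odd (for `j ≠ 1728`) -/
def oddPrimes (j : ℚ) : Finset ℕ :=
  {q ∈ (j - 1728).num.natAbs.primeFactors | q ≠ 2 ∧ Odd (padicValRat q (j - 1728))}

/-- the primes of `oddPrimes j`, without the `q = 1 mod 4` with `4 q < p ^ 2` -/
def candPrimes (j : ℚ) (p : ℕ) : Finset ℕ := {q ∈ oddPrimes j | ¬ (q % 4 = 1 ∧ 4 * q < p ^ 2)}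

/-- the product of the primes `l` dividing `x` at which `j` is not integral -/
def poleProd (j : ℚ) (x : ℤ) : ℕ := ∏ l ∈ x.natAbs.primeFactors with padicValRat l j < 0, l

/-- the number of primes `l` dividing `x` which are equal to `p`, or which are `2` modulo `3` and
such that the valuation of `j` at `l` is positive and prime to `3` -/
def inertCount (j : ℚ) (x : ℤ) (p : ℕ) : ℕ :=
  Finset.card {l ∈ x.natAbs.primeFactors | l = p ∨ l % 3 = 2 ∧ 0 < padicValRat l j ∧
    ¬ (3 : ℤ) ∣ padicValRat l j}

end Pool.Agent.H80.SU
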