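import Pool.Agent.H80.SU.Rec
import Pool.Agent.H80.SU.AFdef
import Pool.Agent.H27.SU.CFsq

/-!
# MP_cda23d_nt.AuxiliaryField: products over primes
-/

set_option autoImplicit false

namespace Pool.Agent.H80.SU

open jacobiSym
open scoped NumberTheorySymbols Classical

theorem jac_prod (x : ℤ) (S : Finset ℕ) (h : ∀ q ∈ S, q ≠ 0) :
    J(x | ∏ q ∈ S, q) = ∏ q ∈ S, J(x | q) := by
  induction S using Finset.induction_on with
  | empty => simp
  | insert a S ha ih =>
    rw [Finset.prod_insert ha, Finset.prod_insert ha]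
    have h1 : NeZero a := ⟨h a (Finset.mem_insert_self a S)⟩
    have h2 : NeZero (∏ q ∈ S, q) :=
      ⟨Finset.prod_ne_zero_iff.2 fun q hq => h q (Finset.mem_insert_of_mem hq)⟩
    rw [mul_right, ih fun q hq => h q (Finset.mem_insert_of_mem hq)]

theorem jac_sqf (x : ℤ) {M : ℕ} (hM : Squarefree M) : J(x | M) = ∏ q ∈ M.primeFactors, J(x | q) := by
  conv_lhs => rw [← Nat.prod_primeFactors_of_squarefree hM]
  exact jac_prod x _ fun q hq => (Nat.prime_of_mem_primeFactors hq).ne_zero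

/-- the local factor -/
noncomputable def gf (j : ℚ) (p l : ℕ) : ℤ :=
  if padicValRat l j < 0 then (l : ℤ) else
    if l = p ∨ l % 3 = 2 ∧ 0 < padicValRat l j ∧ ¬ (3 : ℤ) ∣ padicValRat l j then -1 else 1

theorem prod_gf (j : ℚ) (x : ℤ) (p : ℕ) (hp : 0 ≤ padicValRat p j) :
    ∏ l ∈ x.natAbs.primeFactors, gf j p l = poleProd j x * (-1) ^ inertCount j x p := by
  have h1 : ((poleProd j x : ℕ) : ℤ) =
      ∏ l ∈ x.natAbs.primeFactors, (if padicValRat l j < 0 then (l : ℤ) else 1) := by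
    rw [poleProd, Nat.cast_prod, Finset.prod_filter]
  have h2 : ((-1 : ℤ)) ^ inertCount j x p = ∏ l ∈ x.natAbs.primeFactors,
      (if l = p ∨ l % 3 = 2 ∧ 0 < padicValRat l j ∧ ¬ (3 : ℤ) ∣ padicValRat l j
        then -1 else 1) := by
    rw [← Finset.prod_filter, Finset.prod_const, inertCount]
  rw [h1, h2, ← Finset.prod_mul_distrib]
  refine Finset.prod_congr rfl fun l _ => ?_
  unfold gf
  by_cases h3 : padicValRat l j < 0
  · rw [if_pos h3, if_pos h3, if_neg ?_, mul_one]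
    rintro (h | h)
    · rw [h] at h3
      omega
    · omega
  · rw [if_neg h3, if_neg h3, one_mul]

/-- splitting off the primes `2` and `3` -/
theorem prod_parts (g : ℕ → ℤ) (g3 : g 3 = 1) {x : ℤ} {c e X : ℕ} (hX2 : X % 2 = 1)
    (hxN : x.natAbs = 2 ^ c * 3 ^ e * X) :
    ∏ l ∈ x.natAbs.primeFactors, g l =
      (if (2 : ℤ) ∣ x then g 2 else 1) * ∏ l ∈ X.primeFactors, g l := by
  have hX0 : X ≠ 0 := by omega
  have hx0 : x.natAbs ≠ 0 := by rw [hxN]; positivity
  have hsub : X.primeFactors ⊆ x.natAbs.primeFactors :=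
    Nat.primeFactors_mono ⟨2 ^ c * 3 ^ e, by rw [hxN]; ring⟩ hx0
  have h2X : 2 ∉ X.primeFactors := by
    intro h
    have := Nat.dvd_of_mem_primeFactors h
    omega
  have hmem : ∀ l ∈ x.natAbs.primeFactors, l = 2 ∨ l = 3 ∨ l ∈ X.primeFactors := by
    intro l hl
    have hlp := Nat.prime_of_mem_primeFactors hl
    have h1 := Nat.dvd_of_mem_primeFactors hl
    rw [hxN] at h1
    rcases hlp.dvd_mul.1 h1 with h | h
    · rcases hlp.dvd_mul.1 h with h | h
      · exact Or.inl ((Nat.prime_dvd_prime_iff_eq hlp Nat.prime_two).1 (hlp.dvd_of_dvd_pow h))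
      · exact Or.inr (Or.inl ((Nat.prime_dvd_prime_iff_eq hlp Nat.prime_three).1
          (hlp.dvd_of_dvd_pow h)))
    · exact Or.inr (Or.inr (Nat.mem_primeFactors.2 ⟨hlp, h, hX0⟩))
  by_cases h2 : (2 : ℤ) ∣ x
  · rw [if_pos h2]
    have h2m : 2 ∈ x.natAbs.primeFactors :=
      Nat.mem_primeFactors.2 ⟨Nat.prime_two, Int.natCast_dvd.1 (by exact_mod_cast h2), hx0⟩
    have hsub' : insert 2 X.primeFactors ⊆ x.natAbs.primeFactors :=
      Finset.insert_subset h2m hsub
    rw [← Finset.prod_insert h2X]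
    refine (Finset.prod_subset hsub' fun l hl hl' => ?_).symm
    rcases hmem l hl with h | h | h
    · exact absurd (by rw [h]; exact Finset.mem_insert_self 2 _) hl'
    · rw [h, g3]
    · exact absurd (Finset.mem_insert_of_mem h) hl'
  · rw [if_neg h2, one_mul]
    refine (Finset.prod_subset hsub fun l hl hl' => ?_).symm
    rcases hmem l hl with h | h | h
    · exfalso
      apply h2
      have := Nat.dvd_of_mem_primeFactors hl
      rw [h] at this
      exact_mod_cast Int.natCast_dvd.2 this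
    · rw [h, g3]
    · exact absurd h hl'

theorem mem_oddPrimes {j : ℚ} (hj : j ≠ 1728) {q : ℕ} (hq : q.Prime) (h2 : q ≠ 2)
    (h0 : 0 < padicValRat q (j - 1728)) (hodd : Odd (padicValRat q (j - 1728))) :
    q ∈ oddPrimes j := by
  have hF : Fact q.Prime := ⟨hq⟩
  have hne : j - 1728 ≠ 0 := sub_ne_zero.2 hj
  refine Finset.mem_filter.2 ⟨Nat.mem_primeFactors.2 ⟨hq, ?_, ?_⟩, h2, hodd⟩
  · by_contra h
    have h1 : padicValInt q (j - 1728).num = 0 :=
      padicValInt.eq_zero_of_not_dvd fun h' => h (Int.natCast_dvd.1 h')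
    rw [padicValRat, h1] at h0
    omega
  · exact Int.natAbs_ne_zero.2 (Rat.num_ne_zero.2 hne)

theorem of_mem_oddPrimes {j : ℚ} {q : ℕ} (h : q ∈ oddPrimes j) : q.Prime ∧ q ≠ 2 ∧
    0 < padicValRat q (j - 1728) ∧ Odd (padicValRat q (j - 1728)) := by
  obtain ⟨h1, h2, h3⟩ := Finset.mem_filter.1 h
  have hq := Nat.prime_of_mem_primeFactors h1
  have hF : Fact q.Prime := ⟨hq⟩
  refine ⟨hq, h2, ?_, h3⟩
  have hd := Nat.dvd_of_mem_primeFactors h1
  have h0 := (Nat.mem_primeFactors.1 h1).2.2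
  have hcop : ¬ q ∣ (j - 1728).den := by
    intro h4
    have h5 : q ∣ Nat.gcd (j - 1728).num.natAbs (j - 1728).den := Nat.dvd_gcd hd h4
    rw [(j - 1728).reduced] at h5
    exact hq.one_lt.ne' (Nat.dvd_one.1 h5)
  rw [padicValRat, padicValNat.eq_zero_of_not_dvd hcop]
  have : 1 ≤ padicValInt q (j - 1728).num := one_le_padicValNat_of_dvd h0 hd
  omega

theorem even_of_sq_padic {r : ℚ} (hr : r ≠ 0) {q : ℕ} [Fact q.Prime]
    (h : IsSquare ((r : ℚ) : ℚ_[q])) : Even (padicValRat q r) := by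
  obtain ⟨y, hy⟩ := h
  have hr' : ((r : ℚ) : ℚ_[q]) ≠ 0 := by exact_mod_cast hr
  have hy0 : y ≠ 0 := by
    rintro rfl
    rw [mul_zero] at hy
    exact hr' hy
  rw [← Padic.valuation_ratCast, hy, Padic.valuation_mul hy0 hy0]
  exact ⟨_, rfl⟩

theorem parity_three {m : ℤ} (hm : Squarefree m) {j : ℚ} (hj : j ≠ 1728)
    (h : IsSquare ((m * (j - 1728) : ℚ) : ℚ_[3])) :
    (3 : ℤ) ∣ m ↔ Odd (padicValRat 3 (j - 1728)) := by
  have hm0 : (m : ℚ) ≠ 0 := by exact_mod_cast hm.ne_zero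
  have hne : j - 1728 ≠ 0 := sub_ne_zero.2 hj
  have h1 := even_of_sq_padic (mul_ne_zero hm0 hne) h
  have h2 := Pool.Agent.H27.SU.cf_padic_sqfree hm Nat.prime_three
  rw [padicValRat.mul hm0 hne, padicValRat.of_int, h2] at h1
  by_cases h3 : (3 : ℤ) ∣ m
  · rw [if_pos (by exact_mod_cast h3)] at h1
    refine ⟨fun _ => ?_, fun _ => h3⟩
    obtain ⟨k, hk⟩ := h1
    exact ⟨k - 1, by push_cast at hk; omega⟩
  · rw [if_neg (by exact_mod_cast h3)] at h1
    refine ⟨fun h4 => absurd h4 h3, fun h4 => ?_⟩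
    obtain ⟨k, hk⟩ := h1
    obtain ⟨k', hk'⟩ := h4
    push_cast at hk
    omega

end Pool.Agent.H80.SU
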