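import Pool.Agent.H80.SU.AFa
import Pool.Agent.H27.SU.CGrec
import Pool.Agent.H82.HW.QuadField7

/-!
# MP_cda23d_nt.AuxiliaryField: the main congruence
-/

set_option autoImplicit false

namespace Pool.Agent.H80.SU

open jacobiSym WeierstrassCurve Pool.Agent.H27.SU
open scoped NumberTheorySymbols Classical

theorem jac_neg_three {l : ℕ} (hl : l.Prime) (h5 : 5 ≤ l) :
    J(-3 | l) = if l % 3 = 2 then -1 else 1 := by
  have hF : Fact l.Prime := ⟨hl⟩
  have h2 : l % 2 = 1 := by
    rcases hl.eq_two_or_odd with h | h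
    · omega
    · exact h
  have h3 : l % 3 ≠ 0 := by
    intro h
    have := (Nat.prime_dvd_prime_iff_eq Nat.prime_three hl).1 (Nat.dvd_of_mod_eq_zero h)
    omega
  rw [show (-3 : ℤ) = -1 * 3 by norm_num, mul_left, f4_eq h2, f12_eq h2 h3]
  unfold f4 f12
  have h : l % 12 = 1 ∨ l % 12 = 5 ∨ l % 12 = 7 ∨ l % 12 = 11 := by omega
  rcases h with h | h | h | h
  · rw [if_pos (by omega), if_pos (by omega), if_neg (by omega)]; norm_num
  · rw [if_pos (by omega), if_neg (by omega), if_pos (by omega)]; norm_num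
  · rw [if_neg (by omega), if_neg (by omega), if_neg (by omega)]; norm_num
  · rw [if_neg (by omega), if_pos (by omega), if_pos (by omega)]; norm_num

theorem val_three {j : ℚ} (hj : j ≠ 1728) (hj0 : j ≠ 0) (h : padicValRat 3 j = 0) :
    padicValRat 3 (j - 1728) = 0 := by
  have h1 : padicValRat 3 (-1728 : ℚ) = 3 := by
    rw [show (-1728 : ℚ) = -((1728 : ℕ) : ℚ) by norm_num, padicValRat.neg, padicValRat.of_nat,
      show 1728 = 3 ^ 3 * 64 by norm_num, padicValNat.mul (by norm_num) (by norm_num),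
      padicValNat.prime_pow, padicValNat.eq_zero_of_not_dvd (by norm_num)]
    norm_num
  rw [sub_eq_add_neg, padicValRat.add_eq_of_lt (by rw [← sub_eq_add_neg]; exact sub_ne_zero.2 hj)
    hj0 (by norm_num) (by rw [h, h1]; norm_num), h]

theorem val_three_pos {j : ℚ} (hj : j ≠ 1728) (h : 0 < padicValRat 3 j) :
    0 < padicValRat 3 (j - 1728) := by
  have h1 : padicValRat 3 (-1728 : ℚ) = 3 := by
    rw [show (-1728 : ℚ) = -((1728 : ℕ) : ℚ) by norm_num, padicValRat.neg, padicValRat.of_nat,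
      show 1728 = 3 ^ 3 * 64 by norm_num, padicValNat.mul (by norm_num) (by norm_num),
      padicValNat.prime_pow, padicValNat.eq_zero_of_not_dvd (by norm_num)]
    norm_num
  have h2 := padicValRat.min_le_padicValRat_add (p := 3) (q := j) (r := -1728)
    (by rw [← sub_eq_add_neg]; exact sub_ne_zero.2 hj)
  rw [← sub_eq_add_neg, h1] at h2
  omega

theorem aux_field (E : WeierstrassCurve ℚ) [E.IsElliptic] (hj0 : E.j ≠ 0) (hj1 : E.j ≠ 1728)
    (p : ℕ) [Fact p.Prime] (hp : 29 ≤ p) (hE : InNonsplitNormaliser E p) (x : ℤ)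
    (hx : Squarefree x)
    (h1 : ∀ q ∈ candPrimes E.j p, 5 ≤ q → J(x | q) = 1 ∨ (p % 4 = 1 ∧ J(x | q) = -1))
    (h2 : ∀ (l : ℕ) [Fact l.Prime], 5 ≤ l → (l : ℤ) ∣ x → l = p ∨ padicValRat l E.j < 0 ∨
      ¬ (3 : ℤ) ∣ padicValRat l E.j ∨ (OrdinaryAt E.j l ∧ 4 * l < p ^ 2))
    (h3 : x % 8 = 1 ∨ padicValRat 2 E.j ≤ 0 ∨ ¬ (3 : ℤ) ∣ padicValRat 2 E.j)
    (h4 : x % 3 = 1 ∨ padicValRat 3 E.j ≤ 0 ∨ ¬ (3 : ℤ) ∣ x ∧ ¬ (3 : ℤ) ∣ padicValRat 3 E.j) :
    (p : ℤ) ∣ poleProd E.j x -
      x.sign * (-1) ^ inertCount E.j x p * ∏ q ∈ candPrimes E.j p, J(x | q) := by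
  have hpp : p.Prime := Fact.out
  have hF2 : Fact (Nat.Prime 2) := ⟨Nat.prime_two⟩
  have hF3 : Fact (Nat.Prime 3) := ⟨Nat.prime_three⟩
  obtain ⟨hvp, -, -, -, -, m, hm, hm0, hmp, hpole, ha, ha', ho, hb, hc, hd⟩ :=
    Pool.Agent.H82.HW.quad_field7 E hj0 hj1 p hp hE
  have hv2 : 0 ≤ padicValRat 2 E.j := by
    by_contra h
    have := (hpole 2 (not_le.1 h)).2.1
    omega
  have hv3 : 0 ≤ padicValRat 3 E.j := by
    by_contra h
    have := (hpole 3 (not_le.1 h)).2.1
    omega
  obtain ⟨s', a, b, M, -, ha2, hb2, hM2, hM3, hmM, hs'm, hmN, hMsq⟩ := parts6 hm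
  obtain ⟨s, c, e, X, hs, hc2, he2, hX2, hX3, hxX, hsx, hxN, hXsq⟩ := parts6 hx
  have hs' : s' = -1 := by rw [hs'm]; exact Int.sign_eq_neg_one_of_neg hm0
  have hprime5 : ∀ r : ℕ, r.Prime → r % 2 = 1 → r % 3 ≠ 0 → 5 ≤ r := by
    intro r hr hr2 hr3
    have := hr.two_le
    omega
  have hfive : ∀ N r : ℕ, N % 2 = 1 → N % 3 ≠ 0 → r.Prime → r ∣ N → 5 ≤ r := by
    intro N r hN2 hN3 hr hrN
    by_contra hlt
    push Not at hlt
    have h5 := hr.two_le
    rcases (by omega : r = 2 ∨ r = 3 ∨ r = 4) with rfl | rfl | rfl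
    · omega
    · omega
    · exact absurd hr (by norm_num)
  have hMm : ∀ r : ℕ, r ∣ M → (r : ℤ) ∣ m := by
    intro r hr
    apply Int.natCast_dvd.2
    rw [hmN]
    exact dvd_mul_of_dvd_right hr _
  have hmMr : ∀ r : ℕ, r.Prime → 5 ≤ r → (r : ℤ) ∣ m → r ∣ M := by
    intro r hr h5 hrm
    have h6 := Int.natCast_dvd.1 hrm
    rw [hmN] at h6
    rcases hr.dvd_mul.1 h6 with h | h
    · rcases hr.dvd_mul.1 h with h | h
      · have := Nat.le_of_dvd (by norm_num) (hr.dvd_of_dvd_pow h)
        omega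
      · have := Nat.le_of_dvd (by norm_num) (hr.dvd_of_dvd_pow h)
        omega
    · exact h
  have hXx : ∀ r : ℕ, r ∣ X → (r : ℤ) ∣ x := by
    intro r hr
    apply Int.natCast_dvd.2
    rw [hxN]
    exact dvd_mul_of_dvd_right hr _
  have hmQ : ∀ r : ℕ, r.Prime → 5 ≤ r → (r : ℤ) ∣ m → r ∈ candPrimes E.j p := by
    intro r hr h5 hrm
    obtain ⟨h6, h7, h8⟩ := ha r hr h5 hrm
    exact Finset.mem_filter.2 ⟨mem_oddPrimes hj1 hr (by omega) h6 h7, h8⟩
  -- the product over the primes of `m`
  have hM0 : M ≠ 0 := by omega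
  have hJM : ∏ q ∈ (candPrimes E.j p).filter (fun q => 5 ≤ q), J(x | q) = J(x | M) := by
    rw [jac_sqf x hMsq]
    symm
    apply Finset.prod_subset
    · intro q hq
      have hqp := Nat.prime_of_mem_primeFactors hq
      have hqM := Nat.dvd_of_mem_primeFactors hq
      have h5 := hfive M q hM2 hM3 hqp hqM
      exact Finset.mem_filter.2 ⟨hmQ q hqp h5 (hMm q hqM), h5⟩
    · intro q hq hqM
      obtain ⟨hqQ, h5⟩ := Finset.mem_filter.1 hq
      obtain ⟨hqp, -, h6, h7⟩ := of_mem_oddPrimes (Finset.mem_filter.1 hqQ).1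
      have hFq : Fact q.Prime := ⟨hqp⟩
      rcases h1 q hqQ h5 with h | ⟨h, -⟩
      · exact h
      · exfalso
        rcases ha' q h5 h6 h7 with h8 | h8
        · exact hqM (Nat.mem_primeFactors.2 ⟨hqp, hmMr q hqp h5 h8, hM0⟩)
        · omega
  -- the factor at `3`
  have hT : ∏ q ∈ candPrimes E.j p, J(x | q) = (if (3 : ℤ) ∣ m then J(x | 3) else 1) * J(x | M) := by
    rw [← hJM, ← Finset.prod_filter_mul_prod_filter_not (candPrimes E.j p) (fun q => 5 ≤ q),
      mul_comm]
    congr 1
    have hin : 3 ∈ candPrimes E.j p ↔ 0 < padicValRat 3 (E.j - 1728) ∧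
        Odd (padicValRat 3 (E.j - 1728)) := by
      constructor
      · intro h
        obtain ⟨-, -, h5, h6⟩ := of_mem_oddPrimes (Finset.mem_filter.1 h).1
        exact ⟨h5, h6⟩
      · rintro ⟨h5, h6⟩
        exact Finset.mem_filter.2 ⟨mem_oddPrimes hj1 Nat.prime_three (by norm_num) h5 h6,
          by norm_num⟩
    have hsplit : ∏ q ∈ (candPrimes E.j p).filter (fun q => ¬ 5 ≤ q), J(x | q) =
        if 3 ∈ candPrimes E.j p then J(x | 3) else 1 := by
      have hall : ∀ q ∈ (candPrimes E.j p).filter (fun q => ¬ 5 ≤ q), q = 3 := by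
        intro q hq
        obtain ⟨hqQ, h5⟩ := Finset.mem_filter.1 hq
        obtain ⟨hqp, h6, -, -⟩ := of_mem_oddPrimes (Finset.mem_filter.1 hqQ).1
        have := hqp.two_le
        rcases (by omega : q = 2 ∨ q = 3 ∨ q = 4) with h | h | h
        · exact absurd h h6
        · exact h
        · rw [h] at hqp
          exact absurd hqp (by norm_num)
      by_cases h3Q : 3 ∈ candPrimes E.j p
      · rw [if_pos h3Q]
        have : (candPrimes E.j p).filter (fun q => ¬ 5 ≤ q) = {3} := by
          apply Finset.eq_singleton_iff_unique_mem.2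
          exact ⟨Finset.mem_filter.2 ⟨h3Q, by norm_num⟩, hall⟩
        rw [this, Finset.prod_singleton]
      · rw [if_neg h3Q]
        have : (candPrimes E.j p).filter (fun q => ¬ 5 ≤ q) = ∅ := by
          apply Finset.eq_empty_of_forall_notMem
          intro q hq
          have h5 := hall q hq
          rw [h5] at hq
          exact h3Q (Finset.mem_filter.1 hq).1
        rw [this, Finset.prod_empty]
    rw [hsplit]
    rcases hv3.eq_or_lt with h0 | h0
    · -- `v_3(j) = 0`
      have h5 := hc h0.symm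
      rw [if_neg (by rw [hin, val_three hj1 hj0 h0.symm]; omega), if_neg (by omega)]
    · rcases h4 with h | h | ⟨h, h'⟩
      · have h5 : J(x | 3) = 1 := by
          rw [f3_eq (by omega), f3, if_pos h]
        rw [h5]
        simp
      · omega
      · have h5 := (hd 3 h0 h').2.2.1 rfl
        have h6 := parity_three hm hj1 h5
        have h7 := val_three_pos hj1 h0
        congr 1
        apply propext
        rw [hin, h6]
        exact ⟨fun h => h.2, fun h => ⟨h7, h⟩⟩
  have hm8 : (2 : ℤ) ∣ x → (if m % 8 = 5 then (-1 : ℤ) else 1) = gf E.j p 2 := by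
    intro h2x
    unfold gf
    rw [if_neg (not_lt.2 hv2)]
    rcases h3 with h | h | h
    · omega
    · have h5 : padicValRat 2 E.j = 0 := le_antisymm h hv2
      rw [if_neg (by rw [hb h5]; norm_num), if_neg]
      rintro (h6 | h6)
      · omega
      · omega
    · have h5 : 0 < padicValRat 2 E.j := by
        rcases hv2.eq_or_lt with h6 | h6
        · rw [← h6] at h
          exact absurd (dvd_zero _) h
        · exact h6
      rw [if_pos ((hd 2 h5 h).2.1 rfl), if_pos (Or.inr ⟨by norm_num, h5, h⟩)]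
  have hrec := rec_main hs hs' ha2 hb2 hc2 he2 hM2 hM3 hX2 hX3 hmM hxX (by
      rcases h3 with h | h | h
      · exact Or.inr (Or.inl h)
      · exact Or.inl (hb (le_antisymm h hv2))
      · right; right
        have h5 : 0 < padicValRat 2 E.j := by
          rcases hv2.eq_or_lt with h6 | h6
          · rw [← h6] at h
            exact absurd (dvd_zero _) h
          · exact h6
        exact (hd 2 h5 h).2.1 rfl) (by
      rcases h4 with h | h | ⟨h, -⟩
      · right; omega
      · exact Or.inl (hc (le_antisymm h hv3))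
      · exact Or.inr h)
  rw [mul_assoc, ← hT] at hrec
  -- the local factors
  have hloc : ∀ l ∈ X.primeFactors, ((J(m | l) : ℤ) : ZMod p) = ((gf E.j p l : ℤ) : ZMod p) := by
    intro l hl
    have hlp := Nat.prime_of_mem_primeFactors hl
    have hlX := Nat.dvd_of_mem_primeFactors hl
    have hFl : Fact l.Prime := ⟨hlp⟩
    have h5 := hfive X l hX2 hX3 hlp hlX
    have hlx := hXx l hlX
    unfold gf
    by_cases hneg : padicValRat l E.j < 0
    · rw [if_pos hneg]
      have h6 := (hpole l hneg).2.2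
      rw [legendreSym.to_jacobiSym] at h6
      exact ((ZMod.intCast_eq_intCast_iff_dvd_sub _ _ _).2 h6)
    · rw [if_neg hneg]
      push Not at hneg
      by_cases hlp' : l = p
      · have h6 : J(m | p) = -1 := by
          rw [← legendreSym.to_jacobiSym]
          exact hmp
        rw [if_pos (Or.inl hlp'), hlp', h6]
      by_cases h3l : (3 : ℤ) ∣ padicValRat l E.j
      · rw [if_neg (by
          rintro (h | h)
          · exact hlp' h
          · exact h.2.2 h3l)]
        rcases h2 l h5 hlx with h | h | h | ⟨h, h'⟩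
        · exact absurd h hlp'
        · omega
        · exact absurd h3l h
        · have h6 := ho l h5 h' hneg h
          have h7 : ((m : ℤ) : ZMod l) ≠ 0 := by
            rw [Ne, ZMod.intCast_zmod_eq_zero_iff_dvd]
            intro hlm
            have h8 := h1 l (hmQ l hlp h5 hlm) h5
            have h9 : J(x | l) = 0 := by
              rw [← legendreSym.to_jacobiSym, legendreSym.eq_zero_iff,
                ZMod.intCast_zmod_eq_zero_iff_dvd]
              exact hlx
            rw [h9] at h8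
            rcases h8 with h8 | ⟨-, h8⟩ <;> norm_num at h8
          have h8 : legendreSym l m = 1 := (legendreSym.eq_one_or_neg_one l h7).resolve_right h6
          rw [← legendreSym.to_jacobiSym, h8]
      · have h6 : 0 < padicValRat l E.j := by
          rcases hneg.eq_or_lt with h6 | h6
          · rw [← h6] at h3l
            exact absurd (dvd_zero _) h3l
          · exact h6
        have h7 := (hd l h6 h3l).2.2.2 h5
        rw [← legendreSym.to_jacobiSym, h7, legendreSym.to_jacobiSym, jac_neg_three hlp h5]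
        by_cases h8 : l % 3 = 2
        · rw [if_pos h8, if_pos (Or.inr ⟨h8, h6, h3l⟩)]
        · rw [if_neg h8, if_neg (by
            rintro (h | h)
            · exact hlp' h
            · exact h8 h.1)]
  have hprod : ((J(m | X) : ℤ) : ZMod p) = ((∏ l ∈ X.primeFactors, gf E.j p l : ℤ) : ZMod p) := by
    rw [jac_sqf m hXsq, Int.cast_prod, Int.cast_prod]
    exact Finset.prod_congr rfl hloc
  have hg3 : gf E.j p 3 = 1 := by
    unfold gf
    rw [if_neg (not_lt.2 hv3), if_neg]
    rintro (h6 | h6)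
    · omega
    · omega
  have hall := prod_parts (gf E.j p) hg3 hX2 hxN
  rw [prod_gf _ _ _ hvp] at hall
  -- put together
  have hsq : ((-1 : ℤ) ^ inertCount E.j x p) * (-1) ^ inertCount E.j x p = 1 := by
    rw [← mul_pow]; norm_num
  set T : ℤ := ∏ q ∈ candPrimes E.j p, J(x | q) with hTdef
  set B : ℤ := (poleProd E.j x : ℤ) with hBdef
  set w : ℤ := (-1 : ℤ) ^ inertCount E.j x p with hwdef
  set G : ℤ := ∏ l ∈ X.primeFactors, gf E.j p l with hGdef
  have hε : (if m % 8 = 5 ∧ (2 : ℤ) ∣ x then (-1 : ℤ) else 1) =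
      (if (2 : ℤ) ∣ x then gf E.j p 2 else 1) := by
    by_cases h2x : (2 : ℤ) ∣ x
    · rw [if_pos h2x, ← hm8 h2x]
      congr 1
      apply propext
      exact ⟨fun h => h.1, fun h => ⟨h, h2x⟩⟩
    · rw [if_neg (fun h => h2x h.2), if_neg h2x]
  rw [hε] at hrec
  have hg2 : (if (2 : ℤ) ∣ x then gf E.j p 2 else 1) * (if (2 : ℤ) ∣ x then gf E.j p 2 else 1) = 1 := by
    rw [← hε]
    split_ifs <;> norm_num
  set g2 : ℤ := (if (2 : ℤ) ∣ x then gf E.j p 2 else 1) with hg2def
  rw [← hsx]
  -- `G = J(m | X)` modulo `p`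
  have hG : (p : ℤ) ∣ G - s * g2 * T := by
    rw [← hrec]
    exact (ZMod.intCast_eq_intCast_iff_dvd_sub _ _ _).1 hprod
  have hfin : B - s * w * T = (w * g2) * (G - s * g2 * T) := by
    have e1 : B = w * g2 * G := by
      calc B = B * (w * w) := by rw [hsq, mul_one]
        _ = w * (B * w) := by ring
        _ = w * g2 * G := by rw [hall]; ring
    rw [e1]
    have e2 : w * g2 * (s * g2 * T) = (g2 * g2) * (s * w * T) := by ring
    rw [mul_sub, e2, hg2, one_mul]
  rw [hfin]
  exact dvd_mul_of_dvd_right hG _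

end Pool.Agent.H80.SU
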