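import Pool.Agent.H27.SU.OCb

/-!
# At most `(ℓ - 1) / 12` invariants `J ≠ 0, 1728` are not ordinary modulo `ℓ`
-/

set_option autoImplicit false

namespace Pool.Agent.H80.SU

open WeierstrassCurve Polynomial Pool.Agent.H27.SU
open scoped Classical

/-- the Hasse polynomial of `y² = x³ + 3k x + 2k` without its power of `k` -/
theorem exists_hasse_poly12 (ℓ : ℕ) [Fact ℓ.Prime] (hℓ : 5 ≤ ℓ) :
    ∃ H : (ZMod ℓ)[X], H ≠ 0 ∧ H.natDegree ≤ (ℓ - 1) / 2 / 2 - ((ℓ - 1) / 2 + 2) / 3 ∧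
      ∀ k : ZMod ℓ, k ^ (((ℓ - 1) / 2 + 2) / 3) * H.eval k =
        ((X ^ 3 + C (3 * k) * X + C (2 * k) : (ZMod ℓ)[X]) ^ ((ℓ - 1) / 2)).coeff (ℓ - 1) := by
  have hl : ℓ.Prime := Fact.out
  have hodd : ℓ % 2 = 1 := by
    rcases hl.eq_two_or_odd with h | h
    · omega
    · exact h
  obtain ⟨M, hM⟩ : ∃ M, ℓ = 2 * M + 1 := ⟨ℓ / 2, by omega⟩
  have hM1 : (ℓ - 1) / 2 = M := by omega
  have hM2 : ℓ - 1 = 2 * M := by omega
  have hM4 : 2 ≤ M := by omega
  rw [hM1]
  obtain ⟨e, he⟩ : ∃ e, e = (M + 2) / 3 := ⟨_, rfl⟩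
  rw [← he]
  have heM : e ≤ M / 2 := by omega
  have hch : ∀ a b : ℕ, b ≤ a → a < ℓ → ((a.choose b : ℕ) : ZMod ℓ) ≠ 0 := by
    intro a b hba hal h0
    rw [ZMod.natCast_eq_zero_iff] at h0
    have h4 : ℓ ∣ a.factorial := by
      rw [← Nat.choose_mul_factorial_mul_factorial hba, mul_assoc]
      exact h0.mul_right _
    have h5 := (Nat.Prime.dvd_factorial hl).1 h4
    omega
  have hnum : ∀ a : ℕ, 0 < a → a < ℓ → ((a : ℕ) : ZMod ℓ) ≠ 0 := by
    intro a h0 ha h1
    rw [ZMod.natCast_eq_zero_iff] at h1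
    have := Nat.le_of_dvd h0 h1
    omega
  have h20 : (2 : ZMod ℓ) ≠ 0 := by exact_mod_cast hnum 2 (by norm_num) (by omega)
  have h30 : (3 : ZMod ℓ) ≠ 0 := by exact_mod_cast hnum 3 (by norm_num) (by omega)
  refine ⟨∑ s ∈ Finset.range (M + 1 - e), C (ocaC (ZMod ℓ) M (e + s)) * X ^ s, ?_, ?_, ?_⟩
  · intro h0
    have h1 := congrArg (fun q => coeff q (M / 2 - e)) h0
    simp only [finsetSum_coeff, coeff_C_mul_X_pow, coeff_zero] at h1
    rw [Finset.sum_ite_eq (Finset.range (M + 1 - e)) (M / 2 - e)] at h1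
    rw [if_pos (Finset.mem_range.2 (by omega)), show e + (M / 2 - e) = M / 2 by omega] at h1
    unfold ocaC at h1
    rw [if_pos (by omega), coeff_X_add_C_pow] at h1
    exact mul_ne_zero (hch M (M / 2) (by omega) (by omega)) (mul_ne_zero
      (mul_ne_zero (pow_ne_zero _ h20) (hch (M / 2) _ (by omega) (by omega))) (pow_ne_zero _ h30)) h1
  · apply natDegree_sum_le_of_forall_le
    intro s hs
    by_cases h1 : 2 * (e + s) ≤ M
    · exact (natDegree_C_mul_X_pow_le _ _).trans (by omega)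
    · have h2 : ocaC (ZMod ℓ) M (e + s) = 0 := by
        unfold ocaC
        rw [if_pos (by omega), coeff_X_add_C_pow,
          Nat.choose_eq_zero_of_lt (show e + s < 3 * (e + s) - M by omega)]
        simp
      rw [h2, C_0, zero_mul, natDegree_zero]
      exact Nat.zero_le _
  · intro k
    have hz : ∑ s ∈ Finset.range e, ocaC (ZMod ℓ) M s * k ^ s = 0 := by
      apply Finset.sum_eq_zero
      intro s hs
      rw [Finset.mem_range] at hs
      unfold ocaC
      rw [if_neg (by omega), zero_mul]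
    have hsum : ∑ s ∈ Finset.range (M + 1), ocaC (ZMod ℓ) M s * k ^ s =
        ∑ s ∈ Finset.range e, ocaC (ZMod ℓ) M s * k ^ s +
          ∑ s ∈ Finset.range (M + 1 - e), ocaC (ZMod ℓ) M (e + s) * k ^ (e + s) := by
      rw [← Finset.sum_range_add, show e + (M + 1 - e) = M + 1 by omega]
    rw [hM2, oca_coeff, hsum, hz, zero_add, eval_finsetSum, Finset.mul_sum]
    apply Finset.sum_congr rfl
    intro s _
    simp only [eval_mul, eval_C, eval_pow, eval_X]
    ring

theorem card_not_ord12 (ℓ : ℕ) [Fact ℓ.Prime] (hℓ : 5 ≤ ℓ) :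
    (Finset.univ.filter (fun J : ZMod ℓ => ¬ OrdZ ℓ J ∧ J ≠ 0 ∧ J ≠ 1728)).card ≤
      (ℓ - 1) / 2 / 2 - ((ℓ - 1) / 2 + 2) / 3 := by
  obtain ⟨H, hH0, hHd, hHe⟩ := exists_hasse_poly12 ℓ hℓ
  have h2 : (2 : ZMod ℓ) ≠ 0 := by
    have := OCb_natCast_ne_zero ℓ 2 (by norm_num) (by omega)
    exact_mod_cast this
  have h3 : (3 : ZMod ℓ) ≠ 0 := by
    have := OCb_natCast_ne_zero ℓ 3 (by norm_num) (by omega)
    exact_mod_cast this
  have h1728 : (1728 : ZMod ℓ) ≠ 0 := by
    have : (1728 : ZMod ℓ) = 2 ^ 6 * 3 ^ 3 := by norm_num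
    rw [this]
    exact mul_ne_zero (pow_ne_zero _ h2) (pow_ne_zero _ h3)
  have hroots : (Finset.univ.filter (fun J : ZMod ℓ => ¬ OrdZ ℓ J ∧ J ≠ 0 ∧ J ≠ 1728)).card ≤
      H.roots.toFinset.card := by
    apply Finset.card_le_card_of_injOn (fun J => J / (1728 - J))
    · intro J hJ
      rw [Finset.mem_coe, Finset.mem_filter] at hJ
      obtain ⟨-, hJS, hJ0, hJn⟩ := hJ
      have hJ1 : 1728 - J ≠ 0 := fun h => hJn (sub_eq_zero.1 h).symm
      rw [Finset.mem_coe, Multiset.mem_toFinset, mem_roots hH0, IsRoot.def]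
      by_contra hne
      apply hJS
      have hkk : J / (1728 - J) + 1 = 1728 / (1728 - J) := by
        field_simp
        ring
      have hk0 : J / (1728 - J) ≠ 0 := div_ne_zero hJ0 hJ1
      have hk1 : J / (1728 - J) + 1 ≠ 0 := by
        rw [hkk]
        exact div_ne_zero h1728 hJ1
      have := ordZ_of_hasse ℓ hℓ (J / (1728 - J)) hk0 hk1 (by
        rw [← hHe]
        exact mul_ne_zero (pow_ne_zero _ hk0) hne)
      rw [hkk] at this
      have e : 1728 * (J / (1728 - J)) / (1728 / (1728 - J)) = J := by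
        field_simp
      rwa [e] at this
    · intro J hJ J' hJ' hjj
      rw [Finset.mem_coe, Finset.mem_filter] at hJ hJ'
      have hJ1 : 1728 - J ≠ 0 := fun h => hJ.2.2.2 (sub_eq_zero.1 h).symm
      have hJ1' : 1728 - J' ≠ 0 := fun h => hJ'.2.2.2 (sub_eq_zero.1 h).symm
      have hjj' : J / (1728 - J) = J' / (1728 - J') := hjj
      rw [div_eq_div_iff hJ1 hJ1'] at hjj'
      apply mul_left_cancel₀ h1728
      linear_combination hjj'
  calc _ ≤ H.roots.toFinset.card := hroots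
    _ ≤ H.roots.card := Multiset.toFinset_card_le _
    _ ≤ H.natDegree := card_roots' H
    _ ≤ _ := hHd

/-- the number of `J` with `quadraticChar (c (J - 1728)) = -1` -/
theorem card_nonsq5 (ℓ : ℕ) [Fact ℓ.Prime] (hℓ : 5 ≤ ℓ) (c : ZMod ℓ) (hc : c ≠ 0) :
    2 * (Finset.univ.filter (fun J : ZMod ℓ =>
      quadraticChar (ZMod ℓ) (c * (J - 1728)) = -1)).card = ℓ - 1 := by
  have h2 : ringChar (ZMod ℓ) ≠ 2 := by
    rw [ZMod.ringChar_zmod_n]
    omega
  have hsum : ∑ J : ZMod ℓ, quadraticChar (ZMod ℓ) (c * (J - 1728)) = 0 := by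
    rw [← quadraticChar_sum_zero h2]
    apply Fintype.sum_bijective (fun J : ZMod ℓ => c * (J - 1728))
    · constructor
      · intro x y hxy
        have hxy' : c * (x - 1728) = c * (y - 1728) := hxy
        have := mul_left_cancel₀ hc hxy'
        linear_combination this
      · intro y
        refine ⟨y / c + 1728, ?_⟩
        show c * (y / c + 1728 - 1728) = y
        field_simp
        ring
    · intro x
      rfl
  have hpt : ∀ J : ZMod ℓ, (2 : ℤ) * (if quadraticChar (ZMod ℓ) (c * (J - 1728)) = -1 then 1 else 0)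
      = 1 - quadraticChar (ZMod ℓ) (c * (J - 1728)) - (if J = 1728 then 1 else 0) := by
    intro J
    by_cases hJ : J = 1728
    · rw [hJ, sub_self, mul_zero, quadraticChar_zero]
      simp
    · have hne : c * (J - 1728) ≠ 0 := mul_ne_zero hc (sub_ne_zero.2 hJ)
      rw [if_neg hJ]
      rcases quadraticChar_dichotomy hne with h | h
      · rw [h]
        norm_num
      · rw [h]
        norm_num
  have hS := Finset.sum_congr (rfl : (Finset.univ : Finset (ZMod ℓ)) = Finset.univ)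
    (fun J _ => hpt J)
  rw [← Finset.mul_sum, Finset.sum_sub_distrib, Finset.sum_sub_distrib, hsum,
    Finset.sum_ite_eq' Finset.univ (1728 : ZMod ℓ) (fun _ => (1 : ℤ)), if_pos (Finset.mem_univ _),
    Finset.sum_const, Finset.card_univ, ZMod.card, ← Finset.sum_filter, Finset.sum_const] at hS
  simp only [nsmul_eq_mul, mul_one] at hS
  have : ((2 * (Finset.univ.filter (fun J : ZMod ℓ =>
      quadraticChar (ZMod ℓ) (c * (J - 1728)) = -1)).card : ℕ) : ℤ) = ((ℓ - 1 : ℕ) : ℤ) := by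
    rw [Nat.cast_sub (by omega)]
    push_cast
    linarith
  exact_mod_cast this

/-- the number of good classes -/
def gcnt (ℓ : ℕ) : ℕ := (ℓ - 1) / 2 - 1 - ((ℓ - 1) / 2 / 2 - ((ℓ - 1) / 2 + 2) / 3)

theorem card_good5 (ℓ : ℕ) [Fact ℓ.Prime] (hℓ : 5 ≤ ℓ) (c : ZMod ℓ) (hc : c ≠ 0) :
    gcnt ℓ ≤ (Finset.univ.filter (fun J : ZMod ℓ =>
      OrdZ ℓ J ∧ quadraticChar (ZMod ℓ) (c * (J - 1728)) = -1)).card := by
  have h1 := card_nonsq5 ℓ hℓ c hc
  have h2 := card_not_ord12 ℓ hℓ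
  have h3 : (Finset.univ.filter (fun J : ZMod ℓ =>
      quadraticChar (ZMod ℓ) (c * (J - 1728)) = -1)).card ≤
      (Finset.univ.filter (fun J : ZMod ℓ =>
        OrdZ ℓ J ∧ quadraticChar (ZMod ℓ) (c * (J - 1728)) = -1)).card +
      ((Finset.univ.filter (fun J : ZMod ℓ => ¬ OrdZ ℓ J ∧ J ≠ 0 ∧ J ≠ 1728)).card + 1) := by
    have h4 : (Finset.univ.filter (fun J : ZMod ℓ =>
        quadraticChar (ZMod ℓ) (c * (J - 1728)) = -1)) ⊆
        (Finset.univ.filter (fun J : ZMod ℓ =>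
          OrdZ ℓ J ∧ quadraticChar (ZMod ℓ) (c * (J - 1728)) = -1)) ∪
        ((Finset.univ.filter (fun J : ZMod ℓ => ¬ OrdZ ℓ J ∧ J ≠ 0 ∧ J ≠ 1728)) ∪ {0}) := by
      intro J hJ
      rw [Finset.mem_filter] at hJ
      rw [Finset.mem_union, Finset.mem_filter, Finset.mem_union, Finset.mem_filter]
      by_cases h : OrdZ ℓ J
      · exact Or.inl ⟨Finset.mem_univ _, h, hJ.2⟩
      · right
        by_cases h0 : J = 0
        · right
          rw [h0]
          exact Finset.mem_singleton_self 0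
        · left
          refine ⟨Finset.mem_univ _, h, h0, ?_⟩
          rintro rfl
          have := hJ.2
          rw [sub_self, mul_zero, quadraticChar_zero] at this
          norm_num at this
    exact (Finset.card_le_card h4).trans ((Finset.card_union_le _ _).trans
      (Nat.add_le_add_left ((Finset.card_union_le _ _).trans (by simp)) _))
  unfold gcnt
  omega

end Pool.Agent.H80.SU
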