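import Pool.Agent.H80.SU.EXa
import Pool.Agent.H80.SU.EXb
import Pool.Agent.H80.SU.AFd
import Pool.Agent.H27.SU.FINb
import Pool.Agent.H27.SU.CGmain

/-!
# Explicit residue classes: local counts
-/

set_option autoImplicit false

namespace Pool.Agent.H80.SU

open WeierstrassCurve Pool.Agent.H27.SU
open scoped Classical NumberTheorySymbols

/-- the Legendre symbol of `-(2 ^ a * 3 ^ b)` -/
def sg (a b ℓ : ℕ) : ℤ := f4 (ℓ % 24) * f8 (ℓ % 24) ^ a * f12 (ℓ % 24) ^ b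

/-- the number of ordinary classes -/
def ocnt (ℓ : ℕ) : ℕ := ℓ - 2 - ((ℓ - 1) / 2 / 2 - ((ℓ - 1) / 2 + 2) / 3)

theorem prime_odd5 {ℓ : ℕ} (hp : ℓ.Prime) (h5 : 5 ≤ ℓ) : ℓ % 2 = 1 ∧ ℓ % 3 ≠ 0 := by
  constructor
  · rcases hp.eq_two_or_odd with h | h
    · omega
    · exact h
  · intro h
    have := (Nat.prime_dvd_prime_iff_eq Nat.prime_three hp).1 (Nat.dvd_of_mod_eq_zero h)
    omega

theorem sg_eq {a b ℓ : ℕ} [Fact ℓ.Prime] (h5 : 5 ≤ ℓ) :
    legendreSym ℓ (-(2 ^ a * 3 ^ b)) = sg a b ℓ := by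
  obtain ⟨h2, h3⟩ := prime_odd5 (Fact.out : ℓ.Prime) h5
  rw [jacobiSym.legendreSym.to_jacobiSym, show (-(2 ^ a * 3 ^ b) : ℤ) = -1 * 2 ^ a * 3 ^ b by ring,
    jacobiSym.mul_left, jacobiSym.mul_left, jacobiSym.pow_left, jacobiSym.pow_left, f4_eq h2,
    f8_eq h2, f12_eq h2 h3]
  rfl

theorem cl_ne (i : Fin 8) {ℓ : ℕ} [Fact ℓ.Prime] (hℓ : 5 ≤ ℓ) : ((cl i : ℤ) : ZMod ℓ) ≠ 0 := by
  rw [Ne, ZMod.intCast_zmod_eq_zero_iff_dvd]
  intro h
  have hp : ℓ.Prime := Fact.out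
  have h1 : cl i ∣ 6 := by fin_cases i <;> decide
  have h2 : (ℓ : ℤ) ∣ ((6 : ℕ) : ℤ) := h.trans h1
  have h3 : ℓ ∣ 2 * 3 := Int.natCast_dvd_natCast.1 h2
  rcases hp.dvd_mul.1 h3 with h4 | h4
  · have := Nat.le_of_dvd (by norm_num) h4
    omega
  · have := Nat.le_of_dvd (by norm_num) h4
    omega

/-- numerator of `j - 1728` -/
theorem num_sub (j : ℚ) : (j - 1728).num = j.num - 1728 * j.den := by
  have hb : (j.den : ℚ) ≠ 0 := by exact_mod_cast j.den_nz
  have h1 : j - 1728 = ((j.num - 1728 * j.den : ℤ) : ℚ) / ((j.den : ℕ) : ℤ) := by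
    conv_lhs => rw [← Rat.num_div_den j]
    push_cast
    field_simp
  rw [h1, Rat.num_div_eq_of_coprime (by exact_mod_cast Nat.pos_of_ne_zero j.den_nz)]
  have h2 : Nat.Coprime j.num.natAbs j.den := j.reduced
  rw [Int.natAbs_natCast]
  have h3 : IsCoprime (j.num) (j.den : ℤ) := by
    rw [Int.isCoprime_iff_gcd_eq_one, Int.gcd, Int.natAbs_natCast]
    exact h2
  have h4 : IsCoprime (j.num - 1728 * j.den) (j.den : ℤ) := by
    have h5 : j.num - 1728 * j.den = j.num + j.den * (-1728) := by ring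
    rw [h5]
    exact IsCoprime.add_mul_left_left h3 _
  rw [Int.isCoprime_iff_gcd_eq_one, Int.gcd, Int.natAbs_natCast] at h4
  exact h4

/-- the good numerators for a given denominator -/
theorem card_good_den (ℓ : ℕ) [Fact ℓ.Prime] (hℓ : 5 ≤ ℓ) (c y : ZMod ℓ) (hc : c ≠ 0)
    (hy : y ≠ 0) : gcnt ℓ ≤ (Finset.univ.filter (fun A : ZMod ℓ =>
      OrdZ ℓ (A / y) ∧ quadraticChar (ZMod ℓ) (c * (A - 1728 * y)) = -1)).card := by
  refine (card_good5 ℓ hℓ (c * y) (mul_ne_zero hc hy)).trans ?_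
  apply Finset.card_le_card_of_injOn (fun J => J * y)
  · intro J hJ
    rw [Finset.mem_coe, Finset.mem_filter] at hJ ⊢
    refine ⟨Finset.mem_univ _, ?_, ?_⟩
    · rw [mul_div_cancel_right₀ _ hy]
      exact hJ.2.1
    · rw [show c * (J * y - 1728 * y) = c * y * (J - 1728) by ring]
      exact hJ.2.2
  · intro J _ J' _ h
    exact mul_right_cancel₀ hy h

theorem card_ord_den (ℓ : ℕ) [Fact ℓ.Prime] (hℓ : 5 ≤ ℓ) (y : ZMod ℓ) (hy : y ≠ 0) :
    ocnt ℓ ≤ (Finset.univ.filter (fun A : ZMod ℓ => OrdZ ℓ (A / y))).card := by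
  have h1 := card_not_ord12 ℓ hℓ
  have h2 : ℓ ≤ (Finset.univ.filter (fun J : ZMod ℓ => OrdZ ℓ J)).card +
      ((Finset.univ.filter (fun J : ZMod ℓ => ¬ OrdZ ℓ J ∧ J ≠ 0 ∧ J ≠ 1728)).card + 2) := by
    have h3 : (Finset.univ : Finset (ZMod ℓ)) ⊆ (Finset.univ.filter (fun J : ZMod ℓ => OrdZ ℓ J)) ∪
        ((Finset.univ.filter (fun J : ZMod ℓ => ¬ OrdZ ℓ J ∧ J ≠ 0 ∧ J ≠ 1728)) ∪ {0, 1728}) := by
      intro J _
      by_cases h : OrdZ ℓ J
      · exact Finset.mem_union_left _ (Finset.mem_filter.2 ⟨Finset.mem_univ _, h⟩)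
      · apply Finset.mem_union_right
        by_cases h0 : J ∈ ({0, 1728} : Finset (ZMod ℓ))
        · exact Finset.mem_union_right _ h0
        · apply Finset.mem_union_left
          simp only [Finset.mem_insert, Finset.mem_singleton, not_or] at h0
          exact Finset.mem_filter.2 ⟨Finset.mem_univ _, h, h0.1, h0.2⟩
    have h4 := Finset.card_le_card h3
    rw [Finset.card_univ, ZMod.card] at h4
    exact h4.trans ((Finset.card_union_le _ _).trans (Nat.add_le_add_left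
      ((Finset.card_union_le _ _).trans (Nat.add_le_add_left Finset.card_le_two _)) _))
  have h3 : (Finset.univ.filter (fun J : ZMod ℓ => OrdZ ℓ J)).card ≤
      (Finset.univ.filter (fun A : ZMod ℓ => OrdZ ℓ (A / y))).card := by
    apply Finset.card_le_card_of_injOn (fun J => J * y)
    · intro J hJ
      rw [Finset.mem_coe, Finset.mem_filter] at hJ ⊢
      refine ⟨Finset.mem_univ _, ?_⟩
      rw [mul_div_cancel_right₀ _ hy]
      exact hJ.2
    · intro J _ J' _ h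
      exact mul_right_cancel₀ hy h
  unfold ocnt
  omega

/-- if the primes `q ≥ 5` of `m` are all those of `oddPrimes j` then `m` is known up to `2, 3` -/
theorem class_of_all {m : ℤ} (hm : Squarefree m) {j : ℚ} (hj : j ≠ 1728)
    (ha : ∀ q : ℕ, q.Prime → 5 ≤ q → (q : ℤ) ∣ m → 0 < padicValRat q (j - 1728) ∧
      Odd (padicValRat q (j - 1728)))
    (hall : ∀ q : ℕ, q.Prime → 5 ≤ q → 0 < padicValRat q (j - 1728) →
      Odd (padicValRat q (j - 1728)) → (q : ℤ) ∣ m) :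
    ∃ (i : Fin 8) (t : ℤ), m * (j - 1728).num = cl i * t ^ 2 := by
  have hy : j - 1728 ≠ 0 := sub_ne_zero.2 hj
  have hD0 : (j - 1728).num ≠ 0 := Rat.num_ne_zero.2 hy
  obtain ⟨s, t, hst, -, hs⟩ := sq_class (m * (j - 1728).num) (mul_ne_zero hm.ne_zero hD0) (by
    intro q hq h5
    have hF : Fact q.Prime := ⟨hq⟩
    rw [padicValRat.of_int, padicValInt.mul hm.ne_zero hD0, cf_padic_sqfree hm hq]
    by_cases hqm : (q : ℤ) ∣ m
    · rw [if_pos hqm]
      obtain ⟨h6, h7⟩ := ha q hq h5 hqm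
      have h8 := ((val_num hy hq).1 ((val_num hy hq).2 h6)).1
      rw [h8, Int.odd_coe_nat] at h7
      obtain ⟨c, hc⟩ := h7
      exact ⟨((c + 1 : ℕ) : ℤ), by push_cast; rw [hc]; push_cast; ring⟩
    · rw [if_neg hqm, zero_add]
      by_contra hcon
      rw [Int.not_even_iff_odd, Int.odd_coe_nat] at hcon
      have hqD : (q : ℤ) ∣ (j - 1728).num := by
        by_contra h
        rw [padicValInt.eq_zero_of_not_dvd h] at hcon
        exact absurd hcon (by decide)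
      obtain ⟨h6, h7⟩ := (val_num hy hq).1 hqD
      exact hqm (hall q hq h5 h7 (by rw [h6, Int.odd_coe_nat]; exact hcon)))
  obtain ⟨i, hi⟩ := cl_of hs
  exact ⟨i, t, by rw [hst, hi]⟩

end Pool.Agent.H80.SU
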