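import Mathlib

/-!
# Counting vectors of residue classes that avoid given classes modulo all primes of a finite set
-/

set_option autoImplicit false

namespace Pool.Agent.H80.SU

open scoped Classical

/-- reduction of a vector -/
def red {k N : ℕ} (ℓ : ℕ) (v : (Fin k → ZMod N) × ZMod N) : (Fin k → ZMod ℓ) × ZMod ℓ :=
  (fun t => (v.1 t).cast, v.2.cast)

theorem vcard_avoid_all {k : ℕ} (L : Finset ℕ) (hL : ∀ ℓ ∈ L, ℓ.Prime)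
    (G : (ℓ : ℕ) → Set ((Fin k → ZMod ℓ) × ZMod ℓ)) (g : ℕ → ℕ)
    (hG : ∀ ℓ ∈ L, g ℓ ≤ (G ℓ).ncard) :
    ({x : (Fin k → ZMod (∏ ℓ ∈ L, ℓ)) × ZMod (∏ ℓ ∈ L, ℓ) | ∀ ℓ ∈ L, red ℓ x ∉ G ℓ} :
      Set _).ncard ≤ ∏ ℓ ∈ L, (ℓ ^ (k + 1) - g ℓ) := by
  have hL0 : ∀ ℓ ∈ L, ℓ ≠ 0 := fun ℓ h => (hL ℓ h).ne_zero
  obtain ⟨N, hN⟩ : ∃ N, N = ∏ ℓ ∈ L, ℓ := ⟨_, rfl⟩
  rw [← hN]
  have hN0 : N ≠ 0 := by
    rw [hN]
    exact Finset.prod_ne_zero_iff.2 hL0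
  have : NeZero N := ⟨hN0⟩
  have : ∀ i : L, NeZero (i : ℕ) := fun i => ⟨hL0 i i.2⟩
  have hinj : ∀ x y : ZMod N, (∀ ℓ ∈ L, (x.cast : ZMod ℓ) = y.cast) → x = y := by
    intro x y hxy
    have h1 : ∀ ℓ ∈ L, ℓ ∣ (x - y).val := by
      intro ℓ hℓ
      have hd : ℓ ∣ N := by
        rw [hN]
        exact Finset.dvd_prod_of_mem (fun ℓ => ℓ) hℓ
      have h3 : ((x - y).cast : ZMod ℓ) = 0 := by
        have e := map_sub (ZMod.castHom hd (ZMod ℓ)) x y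
        rw [ZMod.castHom_apply, ZMod.castHom_apply, ZMod.castHom_apply] at e
        rw [e, hxy ℓ hℓ, sub_self]
      rw [← ZMod.natCast_val] at h3
      exact (ZMod.natCast_eq_zero_iff _ _).1 h3
    have h2 : N ∣ (x - y).val := by
      have h3 := Finset.prod_primes_dvd _ (fun ℓ hℓ => (hL ℓ hℓ).prime) h1
      rwa [← hN] at h3
    have h3 : (x - y).val = 0 := Nat.eq_zero_of_dvd_of_lt h2 (ZMod.val_lt _)
    exact sub_eq_zero.1 ((ZMod.val_eq_zero _).1 h3)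
  let φ : (Fin k → ZMod N) × ZMod N → ((i : L) → (Fin k → ZMod (i : ℕ)) × ZMod (i : ℕ)) :=
    fun x i => red i x
  have hφ : Function.Injective φ := by
    rintro ⟨x, x'⟩ ⟨y, y'⟩ hxy
    have h1 : ∀ ℓ ∈ L, red ℓ (x, x') = red ℓ (y, y') := fun ℓ hℓ => congrFun hxy ⟨ℓ, hℓ⟩
    refine Prod.ext (funext fun t => hinj _ _ fun ℓ hℓ => ?_) (hinj _ _ fun ℓ hℓ => ?_)
    · exact congrFun (congrArg Prod.fst (h1 ℓ hℓ)) t
    · exact congrArg Prod.snd (h1 ℓ hℓ)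
  let T : (i : L) → Finset ((Fin k → ZMod (i : ℕ)) × ZMod (i : ℕ)) :=
    fun i => Finset.univ.filter (fun x => x ∉ G i)
  have h1 : ({x : (Fin k → ZMod N) × ZMod N | ∀ ℓ ∈ L, red ℓ x ∉ G ℓ} : Set _).ncard ≤
      (Fintype.piFinset T).card := by
    rw [← Set.ncard_coe_finset]
    refine Set.ncard_le_ncard_of_injOn φ ?_ hφ.injOn (Finset.finite_toSet _)
    intro x hx
    rw [Finset.mem_coe, Fintype.mem_piFinset]
    intro i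
    exact Finset.mem_filter.2 ⟨Finset.mem_univ _, hx i i.2⟩
  have h2 : ∀ i : L, (T i).card ≤ (i : ℕ) ^ (k + 1) - g i := by
    intro i
    have h3 := hG i i.2
    have h5 : (G i).ncard = (Finset.univ.filter (fun x => x ∈ G i)).card := by
      rw [← Set.ncard_coe_finset]
      congr 1
      ext x
      simp
    have h4 : (G i).ncard + (Finset.univ.filter (fun x => x ∉ G i)).card = (i : ℕ) ^ (k + 1) := by
      rw [h5, Finset.card_filter_add_card_filter_not, Finset.card_univ, Fintype.card_prod,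
        Fintype.card_fun, ZMod.card, Fintype.card_fin, pow_succ]
    show (Finset.univ.filter (fun x => x ∉ G i)).card ≤ (i : ℕ) ^ (k + 1) - g i
    omega
  calc ({x : (Fin k → ZMod N) × ZMod N | ∀ ℓ ∈ L, red ℓ x ∉ G ℓ} : Set _).ncard
      ≤ (Fintype.piFinset T).card := h1
    _ = ∏ i : L, (T i).card := Fintype.card_piFinset _
    _ ≤ ∏ i : L, ((i : ℕ) ^ (k + 1) - g i) := Finset.prod_le_prod' fun i _ => h2 i
    _ = ∏ ℓ ∈ L, (ℓ ^ (k + 1) - g ℓ) := Finset.prod_coe_sort L (fun ℓ => ℓ ^ (k + 1) - g ℓ)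

/-- the same for several families of classes -/
theorem vcard_meet {k : ℕ} {ι : Type} [Fintype ι] (L : Finset ℕ) (hL : ∀ ℓ ∈ L, ℓ.Prime)
    (G : ι → (ℓ : ℕ) → Set ((Fin k → ZMod ℓ) × ZMod ℓ)) (g : ι → ℕ → ℕ)
    (hG : ∀ i, ∀ ℓ ∈ L, g i ℓ ≤ (G i ℓ).ncard) (ε : ℝ)
    (hK : ((∑ i, ∏ ℓ ∈ L, (ℓ ^ (k + 1) - g i ℓ) : ℕ) : ℝ) ≤
      ε * ((∏ ℓ ∈ L, ℓ : ℕ) : ℝ) ^ (k + 1)) :
    ∃ R : Finset ((Fin k → ZMod (∏ ℓ ∈ L, ℓ)) × ZMod (∏ ℓ ∈ L, ℓ)),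
      (1 - ε) * ((∏ ℓ ∈ L, ℓ : ℕ) : ℝ) ^ (k + 1) ≤ R.card ∧
      ∀ x, x ∈ R → ∀ i, ∃ ℓ ∈ L, red ℓ x ∈ G i ℓ := by
  have hNpos : 0 < ∏ ℓ ∈ L, ℓ := Finset.prod_pos fun ℓ hℓ => (hL ℓ hℓ).pos
  have : NeZero (∏ ℓ ∈ L, ℓ) := ⟨hNpos.ne'⟩
  refine ⟨Finset.univ.filter (fun x => ∀ i, ∃ ℓ ∈ L, red ℓ x ∈ G i ℓ), ?_, ?_⟩
  · set R : Finset ((Fin k → ZMod (∏ ℓ ∈ L, ℓ)) × ZMod (∏ ℓ ∈ L, ℓ)) :=
      Finset.univ.filter (fun x => ∀ i, ∃ ℓ ∈ L, red ℓ x ∈ G i ℓ) with hR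
    set B : ι → Finset ((Fin k → ZMod (∏ ℓ ∈ L, ℓ)) × ZMod (∏ ℓ ∈ L, ℓ)) := fun i =>
      Finset.univ.filter (fun x => ∀ ℓ ∈ L, red ℓ x ∉ G i ℓ) with hB
    have hcov : (Finset.univ : Finset ((Fin k → ZMod (∏ ℓ ∈ L, ℓ)) × ZMod (∏ ℓ ∈ L, ℓ))) ⊆
        R ∪ Finset.univ.biUnion B := by
      intro x _
      by_cases hx : x ∈ R
      · exact Finset.mem_union_left _ hx
      · refine Finset.mem_union_right _ ?_
        rw [hR, Finset.mem_filter] at hx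
        push Not at hx
        obtain ⟨i, hi⟩ := hx (Finset.mem_univ _)
        exact Finset.mem_biUnion.2 ⟨i, Finset.mem_univ _,
          Finset.mem_filter.2 ⟨Finset.mem_univ _, hi⟩⟩
    have hcard : (∏ ℓ ∈ L, ℓ) ^ (k + 1) ≤ R.card + ∑ i, (B i).card := by
      have h1 := Finset.card_le_card hcov
      rw [Finset.card_univ, Fintype.card_prod, Fintype.card_fun, ZMod.card, Fintype.card_fin,
        ← pow_succ] at h1
      exact h1.trans ((Finset.card_union_le _ _).trans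
        (Nat.add_le_add_left Finset.card_biUnion_le _))
    have hBi : ∀ i, (B i).card ≤ ∏ ℓ ∈ L, (ℓ ^ (k + 1) - g i ℓ) := by
      intro i
      have h1 := vcard_avoid_all L hL (G i) (g i) (hG i)
      have h2 : ({x : (Fin k → ZMod (∏ ℓ ∈ L, ℓ)) × ZMod (∏ ℓ ∈ L, ℓ) |
          ∀ ℓ ∈ L, red ℓ x ∉ G i ℓ} : Set _) = (B i : Set _) := by
        ext x
        simp [hB]
      rw [h2, Set.ncard_coe_finset] at h1
      exact h1
    have hsum : ∑ i, (B i).card ≤ ∑ i, ∏ ℓ ∈ L, (ℓ ^ (k + 1) - g i ℓ) :=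
      Finset.sum_le_sum fun i _ => hBi i
    have h1 : ((∏ ℓ ∈ L, ℓ : ℕ) : ℝ) ^ (k + 1) ≤ (R.card : ℝ) +
        ((∑ i, ∏ ℓ ∈ L, (ℓ ^ (k + 1) - g i ℓ) : ℕ) : ℝ) := by
      exact_mod_cast hcard.trans (Nat.add_le_add_left hsum _)
    linarith
  · intro x hx i
    exact (Finset.mem_filter.1 hx).2 i

end Pool.Agent.H80.SU
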