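import Pool.Agent.H80.SU.EYa
import Pool.Agent.H80.SU.EXc

/-!
# Counting the good vectors modulo a prime
-/

set_option autoImplicit false

namespace Pool.Agent.H80.SU

open WeierstrassCurve Pool.Agent.H27.SU
open scoped Classical NumberTheorySymbols

theorem vcard_fiber {k ℓ : ℕ} [Fact ℓ.Prime] (t₀ : Fin k)
    (G : Set ((Fin k → ZMod ℓ) × ZMod ℓ)) (g : ℕ)
    (h : ∀ (f : {t // t ≠ t₀} → ZMod ℓ) (w : ZMod ℓ), (∀ t, f t ≠ 0) → w ≠ 0 →
      g ≤ (Finset.univ.filter (fun z : ZMod ℓ =>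
        ((Equiv.funSplitAt t₀ (ZMod ℓ)).symm (z, f), w) ∈ G)).card) :
    (ℓ - 1) ^ k * g ≤ G.ncard := by
  have hk : 0 < k := lt_of_le_of_lt (Nat.zero_le _) t₀.isLt
  let D : Finset (({t // t ≠ t₀} → ZMod ℓ) × ZMod ℓ) :=
    (Fintype.piFinset (fun _ : {t // t ≠ t₀} => (Finset.univ.erase (0 : ZMod ℓ)))) ×ˢ
      (Finset.univ.erase (0 : ZMod ℓ))
  have hD : D.card = (ℓ - 1) ^ k := by
    show Finset.card ((Fintype.piFinset (fun _ : {t // t ≠ t₀} =>
      (Finset.univ.erase (0 : ZMod ℓ)))) ×ˢ (Finset.univ.erase (0 : ZMod ℓ))) = _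
    have h1 : (Finset.univ.erase (0 : ZMod ℓ)).card = ℓ - 1 := by
      rw [Finset.card_erase_of_mem (Finset.mem_univ _), Finset.card_univ, ZMod.card]
    have h2 : Fintype.card {t // t ≠ t₀} = k - 1 := by
      rw [Fintype.card_subtype_compl, Fintype.card_fin]
      simp
    rw [Finset.card_product, Fintype.card_piFinset, Finset.prod_const, h1, Finset.card_univ, h2,
      ← pow_succ]
    congr 1
    omega
  let S := D.sigma (fun d => Finset.univ.filter (fun z : ZMod ℓ =>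
        ((Equiv.funSplitAt t₀ (ZMod ℓ)).symm (z, d.1), d.2) ∈ G))
  have hS : (ℓ - 1) ^ k * g ≤ S.card := by
    show _ ≤ (D.sigma _).card
    rw [Finset.card_sigma, ← hD, ← smul_eq_mul, ← Finset.sum_const]
    apply Finset.sum_le_sum
    rintro ⟨f, w⟩ hd
    obtain ⟨h1, h2⟩ := Finset.mem_product.1 hd
    rw [Fintype.mem_piFinset] at h1
    exact h f w (fun t => (Finset.mem_erase.1 (h1 t)).1) (Finset.mem_erase.1 h2).1
  have hG : G.ncard = (Finset.univ.filter (fun x => x ∈ G)).card := by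
    rw [← Set.ncard_coe_finset]
    congr 1
    ext x
    simp
  rw [hG]
  refine hS.trans ?_
  apply Finset.card_le_card_of_injOn
    (fun s => ((Equiv.funSplitAt t₀ (ZMod ℓ)).symm (s.2, s.1.1), s.1.2))
  · rintro ⟨⟨f, w⟩, z⟩ hs
    have h1 := (Finset.mem_filter.1 (Finset.mem_sigma.1 (Finset.mem_coe.1 hs)).2).2
    exact Finset.mem_coe.2 (Finset.mem_filter.2 ⟨Finset.mem_univ _, h1⟩)
  · rintro ⟨⟨f, w⟩, z⟩ _ ⟨⟨f', w'⟩, z'⟩ _ h
    have h1 := (Equiv.funSplitAt t₀ (ZMod ℓ)).symm.injective (congrArg Prod.fst h)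
    have h2 : w = w' := congrArg Prod.snd h
    have h3 : z = z' := congrArg Prod.fst h1
    have h4 : f = f' := congrArg Prod.snd h1
    subst h2 h3 h4
    rfl

theorem split_prod {k ℓ : ℕ} [Fact ℓ.Prime] (t₀ : Fin k) (f : {t // t ≠ t₀} → ZMod ℓ)
    (z : ZMod ℓ) : ∏ t, (Equiv.funSplitAt t₀ (ZMod ℓ)).symm (z, f) t = z * ∏ t, f t := by
  rw [Fintype.prod_eq_mul_prod_subtype_ne _ t₀]
  congr 1
  · simp [Equiv.funSplitAt, Equiv.piSplitAt]
  · refine Finset.prod_congr rfl fun t _ => ?_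
    simp [Equiv.funSplitAt, Equiv.piSplitAt, t.2]

theorem split_prod_sub {k ℓ : ℕ} [Fact ℓ.Prime] (t₀ : Fin k) (f : {t // t ≠ t₀} → ZMod ℓ)
    (hf : ∀ t, f t ≠ 0) (S : Finset (Fin k)) (hS : t₀ ∈ S) :
    ∃ s : ZMod ℓ, s ≠ 0 ∧
      ∀ z, ∏ t ∈ S, (Equiv.funSplitAt t₀ (ZMod ℓ)).symm (z, f) t = z * s := by
  refine ⟨∏ t ∈ S.erase t₀, (Equiv.funSplitAt t₀ (ZMod ℓ)).symm (1, f) t, ?_, fun z => ?_⟩
  · rw [Finset.prod_ne_zero_iff]
    intro t ht
    have h1 := (Finset.mem_erase.1 ht).1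
    have h2 : (Equiv.funSplitAt t₀ (ZMod ℓ)).symm (1, f) t = f ⟨t, h1⟩ := by
      simp [Equiv.funSplitAt, Equiv.piSplitAt, h1]
    rw [h2]
    exact hf _
  · rw [← Finset.mul_prod_erase _ _ hS]
    congr 1
    · simp [Equiv.funSplitAt, Equiv.piSplitAt]
    · refine Finset.prod_congr rfl fun t ht => ?_
      have h1 := (Finset.mem_erase.1 ht).1
      simp [Equiv.funSplitAt, Equiv.piSplitAt, h1]

/-- the good vectors: `j` is ordinary and the symbol is `-1` -/
def VG {k : ℕ} (c : ℤ) (y : ℕ) (s : Fin 4) (S : Finset (Fin k)) (ℓ : ℕ) :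
    Set ((Fin k → ZMod ℓ) × ZMod ℓ) :=
  {v | ∃ _ : Fact ℓ.Prime,
    OrdZ ℓ ((1728 * (y : ZMod ℓ) + (c : ZMod ℓ) * (∏ t, v.1 t) * v.2 ^ 2) / (y : ZMod ℓ)) ∧
    quadraticChar (ZMod ℓ)
      (((-(2 ^ (s.val % 2) * 3 ^ (s.val / 2)) : ℤ) : ZMod ℓ) * ∏ t ∈ S, v.1 t) = -1}

/-- lower bounds for the number of good vectors -/
def vg (k : ℕ) (s : Fin 4) (S : Finset (Fin k)) (ℓ : ℕ) : ℕ :=
  if S = ∅ then (if sg (s.val % 2) (s.val / 2) ℓ = -1 then
    (if k = 0 then 2 * gcnt ℓ else (ℓ - 1) ^ k * ocnt ℓ) else 0)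
  else (ℓ - 1) ^ k * gcnt ℓ

theorem unit23 {ℓ : ℕ} [Fact ℓ.Prime] (h5 : 5 ≤ ℓ) (s : Fin 4) :
    (((-(2 ^ (s.val % 2) * 3 ^ (s.val / 2)) : ℤ)) : ZMod ℓ) ≠ 0 := by
  have h2 : ((2 : ℕ) : ZMod ℓ) ≠ 0 := OCb_natCast_ne_zero ℓ 2 (by norm_num) (by omega)
  have h3 : ((3 : ℕ) : ZMod ℓ) ≠ 0 := OCb_natCast_ne_zero ℓ 3 (by norm_num) (by omega)
  push_cast at h2 h3 ⊢
  exact neg_ne_zero.2 (mul_ne_zero (pow_ne_zero _ h2) (pow_ne_zero _ h3))

theorem card_sq_fiber {ℓ : ℕ} [Fact ℓ.Prime] (h5 : 5 ≤ ℓ) (c y : ZMod ℓ) (hc : c ≠ 0)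
    (hy : y ≠ 0) :
    2 * gcnt ℓ ≤ (Finset.univ.filter (fun w : ZMod ℓ =>
      OrdZ ℓ ((1728 * y + c * w ^ 2) / y))).card := by
  have hchar : ringChar (ZMod ℓ) ≠ 2 := by
    rw [ZMod.ringChar_zmod_n]
    omega
  obtain ⟨r, hr⟩ := FiniteField.exists_nonsquare hchar
  have hr0 : r ≠ 0 := by
    rintro rfl
    exact hr ⟨0, by simp⟩
  have hrχ : quadraticChar (ZMod ℓ) r = -1 := quadraticChar_neg_one_iff_not_isSquare.2 hr
  set T : Finset (ZMod ℓ) := Finset.univ.filter (fun J => OrdZ ℓ J ∧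
    quadraticChar (ZMod ℓ) ((r * (c * y)) * (J - 1728)) = -1) with hT
  have hTc : gcnt ℓ ≤ T.card := card_good5 ℓ h5 (r * (c * y)) (mul_ne_zero hr0 (mul_ne_zero hc hy))
  have hsq : ∀ J ∈ T, ∃ w : ZMod ℓ, w ≠ 0 ∧ w ^ 2 = y / c * (J - 1728) := by
    intro J hJ
    obtain ⟨-, -, h2⟩ := Finset.mem_filter.1 hJ
    rw [mul_assoc, map_mul, hrχ, neg_one_mul, neg_inj] at h2
    have h3 : c * y * (J - 1728) ≠ 0 := by
      intro h0
      rw [h0, MulChar.map_zero] at h2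
      exact zero_ne_one h2
    obtain ⟨v, hv⟩ := (quadraticChar_one_iff_isSquare h3).1 h2
    have hv0 : v ≠ 0 := by
      rintro rfl
      rw [hv] at h3
      simp at h3
    refine ⟨v / c, div_ne_zero hv0 hc, ?_⟩
    rw [div_pow, pow_two v, ← hv]
    field_simp
  choose! W hW0 hW using hsq
  have hval : ∀ J ∈ T, ∀ w : ZMod ℓ, w ^ 2 = y / c * (J - 1728) →
      (1728 * y + c * w ^ 2) / y = J := by
    intro J _ w hw
    rw [hw]
    field_simp
    ring
  have h2ne : (2 : ZMod ℓ) ≠ 0 := by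
    have := OCb_natCast_ne_zero ℓ 2 (by norm_num) (by omega)
    exact_mod_cast this
  have hcard : (T ×ˢ (Finset.univ : Finset Bool)).card = 2 * T.card := by
    rw [Finset.card_product, Finset.card_univ, Fintype.card_bool, mul_comm]
  refine (Nat.mul_le_mul_left 2 hTc).trans ?_
  rw [← hcard]
  apply Finset.card_le_card_of_injOn (fun x => if x.2 then W x.1 else -W x.1)
  · rintro ⟨J, b⟩ hJ
    have hJT := (Finset.mem_product.1 (Finset.mem_coe.1 hJ)).1
    refine Finset.mem_coe.2 (Finset.mem_filter.2 ⟨Finset.mem_univ _, ?_⟩)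
    have hO := (Finset.mem_filter.1 hJT).2.1
    rcases b with _ | _
    · simp only [Bool.false_eq_true, if_false]
      rw [hval J hJT (-W J) (by rw [neg_sq]; exact hW J hJT)]
      exact hO
    · simp only [if_true]
      rw [hval J hJT (W J) (hW J hJT)]
      exact hO
  · rintro ⟨J, b⟩ hJ ⟨J', b'⟩ hJ' h
    have hJT := (Finset.mem_product.1 (Finset.mem_coe.1 hJ)).1
    have hJT' := (Finset.mem_product.1 (Finset.mem_coe.1 hJ')).1
    have hsq1 : (if b then W J else -W J) ^ 2 = y / c * (J - 1728) := by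
      rcases b with _ | _
      · simp only [Bool.false_eq_true, if_false, neg_sq]
        exact hW J hJT
      · simp only [if_true]
        exact hW J hJT
    have hsq2 : (if b' then W J' else -W J') ^ 2 = y / c * (J' - 1728) := by
      rcases b' with _ | _
      · simp only [Bool.false_eq_true, if_false, neg_sq]
        exact hW J' hJT'
      · simp only [if_true]
        exact hW J' hJT'
    simp only at h
    have hJJ : J = J' := by
      have h1 : y / c * (J - 1728) = y / c * (J' - 1728) := by rw [← hsq1, ← hsq2, h]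
      exact sub_left_injective (mul_left_cancel₀ (div_ne_zero hy hc) h1)
    subst hJJ
    have hne : W J ≠ -W J := by
      intro h0
      apply hW0 J hJT
      have h1 : (2 : ZMod ℓ) * W J = 0 := by
        rw [two_mul]
        nth_rewrite 1 [h0]
        ring
      exact (mul_eq_zero.1 h1).resolve_left h2ne
    rcases b with _ | _ <;> rcases b' with _ | _
    · rfl
    · simp only [Bool.false_eq_true, if_false, if_true] at h
      exact absurd h.symm hne
    · simp only [Bool.false_eq_true, if_false, if_true] at h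
      exact absurd h hne
    · rfl

theorem vg_le {k ℓ : ℕ} [Fact ℓ.Prime] (h5 : 5 ≤ ℓ) (c : ℤ)
    (hc : ((c : ℤ) : ZMod ℓ) ≠ 0) (y : ℕ) (hy : ((y : ℕ) : ZMod ℓ) ≠ 0) (s : Fin 4)
    (S : Finset (Fin k)) : vg k s S ℓ ≤ (VG c y s S ℓ).ncard := by
  -- the substitution `J ↦ z`
  have key : ∀ (t₀ : Fin k) (f : {t // t ≠ t₀} → ZMod ℓ) (w : ZMod ℓ), (∀ t, f t ≠ 0) → w ≠ 0 →
      ∃ Z : ZMod ℓ → ZMod ℓ, Function.Injective Z ∧ ∃ C : ZMod ℓ, C ≠ 0 ∧
        ∀ J, Z J = C * (J - 1728) ∧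
          (1728 * (y : ZMod ℓ) + (c : ZMod ℓ) *
            (∏ t, (Equiv.funSplitAt t₀ (ZMod ℓ)).symm (Z J, f) t) * w ^ 2) / (y : ZMod ℓ) = J := by
    intro t₀ f w hf hw
    have hu : ∏ t, f t ≠ 0 := Finset.prod_ne_zero_iff.2 fun t _ => hf t
    have hC : (y : ZMod ℓ) / ((c : ZMod ℓ) * (∏ t, f t) * w ^ 2) ≠ 0 :=
      div_ne_zero hy (mul_ne_zero (mul_ne_zero hc hu) (pow_ne_zero _ hw))
    refine ⟨fun J => (y : ZMod ℓ) / ((c : ZMod ℓ) * (∏ t, f t) * w ^ 2) * (J - 1728), ?_,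
      _, hC, fun J => ⟨rfl, ?_⟩⟩
    · intro J J' h
      have := mul_left_cancel₀ hC h
      exact sub_left_injective this
    · rw [split_prod]
      field_simp
      ring
  unfold vg
  by_cases hS : S = ∅
  · rw [if_pos hS]
    by_cases hs : sg (s.val % 2) (s.val / 2) ℓ = -1
    · rw [if_pos hs]
      by_cases hk0 : k = 0
      · rw [if_pos hk0]
        subst hk0
        refine (card_sq_fiber h5 ((c : ℤ) : ZMod ℓ) y hc hy).trans ?_
        rw [← Set.ncard_coe_finset]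
        refine Set.ncard_le_ncard_of_injOn (fun w => ((fun t => t.elim0), w)) ?_ ?_
          (Set.toFinite _)
        · intro w hw
          rw [Finset.mem_coe, Finset.mem_filter] at hw
          refine ⟨inferInstance, ?_, ?_⟩
          · simp only [Finset.univ_eq_empty, Finset.prod_empty, mul_one]
            exact hw.2
          · rw [hS, Finset.prod_empty, mul_one]
            have h2 := sg_eq (a := s.val % 2) (b := s.val / 2) (ℓ := ℓ) h5
            rw [hs] at h2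
            exact h2
        · intro w _ w' _ h
          exact congrArg Prod.snd h
      rw [if_neg hk0]
      have hk : 0 < k := Nat.pos_of_ne_zero hk0
      apply vcard_fiber ⟨0, hk⟩
      intro f w hf hw
      obtain ⟨Z, hZ, C, -, hJ⟩ := key ⟨0, hk⟩ f w hf hw
      have h1 := card_ord_den ℓ h5 1 one_ne_zero
      refine h1.trans (Finset.card_le_card_of_injOn Z ?_ hZ.injOn)
      intro J hJo
      rw [Finset.mem_coe, Finset.mem_filter] at hJo ⊢
      refine ⟨Finset.mem_univ _, inferInstance, ?_, ?_⟩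
      · rw [(hJ J).2]
        simpa using hJo.2
      · rw [hS, Finset.prod_empty, mul_one]
        have h2 := sg_eq (a := s.val % 2) (b := s.val / 2) (ℓ := ℓ) h5
        rw [hs] at h2
        exact h2
    · rw [if_neg hs]
      exact Nat.zero_le _
  · rw [if_neg hS]
    obtain ⟨t₀, ht₀⟩ := Finset.nonempty_iff_ne_empty.2 hS
    apply vcard_fiber t₀
    intro f w hf hw
    obtain ⟨Z, hZ, C, hC, hJ⟩ := key t₀ f w hf hw
    obtain ⟨s', hs', hprod⟩ := split_prod_sub t₀ f hf S ht₀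
    have h1 := card_good5 ℓ h5 (((-(2 ^ (s.val % 2) * 3 ^ (s.val / 2)) : ℤ) : ZMod ℓ) * (C * s'))
      (mul_ne_zero (unit23 h5 s) (mul_ne_zero hC hs'))
    refine h1.trans (Finset.card_le_card_of_injOn Z ?_ hZ.injOn)
    intro J hJo
    rw [Finset.mem_coe, Finset.mem_filter] at hJo ⊢
    refine ⟨Finset.mem_univ _, inferInstance, ?_, ?_⟩
    · rw [(hJ J).2]
      exact hJo.2.1
    · rw [← hJo.2.2]
      congr 1
      rw [hprod, (hJ J).1]
      ring

end Pool.Agent.H80.SU
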