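import Pool.Agent.H80.SU.EYb
import Pool.Agent.H82.HW.QuadField7

/-!
# Vectors `(q₁, …, q_k, w)` with `j - 1728 = c q₁ ⋯ q_k w² / b`
-/

set_option autoImplicit false

namespace Pool.Agent.H80.SU

open WeierstrassCurve Pool.Agent.H27.SU
open scoped Classical NumberTheorySymbols

/-- a negative squarefree number is `-(2 ^ a * 3 ^ b)` times its prime factors `≥ 5` -/
theorem neg_sqfree_split {m : ℤ} (hm : Squarefree m) (hm0 : m < 0) :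
    ∃ s : Fin 4, m = -(2 ^ (s.val % 2) * 3 ^ (s.val / 2)) *
      ∏ r ∈ m.natAbs.primeFactors with 5 ≤ r, (r : ℤ) := by
  have hn0 : m.natAbs ≠ 0 := Int.natAbs_ne_zero.2 hm.ne_zero
  have hdvd : (∏ r ∈ m.natAbs.primeFactors with 5 ≤ r, r) ∣ m.natAbs := by
    refine Finset.prod_primes_dvd _ (fun r hr => ?_) (fun r hr => ?_)
    · exact (Nat.prime_of_mem_primeFactors (Finset.mem_filter.1 hr).1).prime
    · exact Nat.dvd_of_mem_primeFactors (Finset.mem_filter.1 hr).1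
  have hd : (∏ r ∈ m.natAbs.primeFactors with 5 ≤ r, (r : ℤ)) ∣ m := by
    have h := Int.natCast_dvd.2 hdvd
    push_cast at h
    exact h
  obtain ⟨e, he⟩ := hd
  have hpos : 0 < ∏ r ∈ m.natAbs.primeFactors with 5 ≤ r, (r : ℤ) := by
    apply Finset.prod_pos
    intro r hr
    exact_mod_cast (Nat.prime_of_mem_primeFactors (Finset.mem_filter.1 hr).1).pos
  have he0 : e < 0 := by
    by_contra h
    push Not at h
    have := mul_nonneg hpos.le h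
    omega
  have hesq : Squarefree e := by
    rw [he] at hm
    exact hm.of_mul_right
  have hno : ∀ r : ℕ, r.Prime → 5 ≤ r → ¬ (r : ℤ) ∣ e := by
    intro r hr h5 hre
    have hrm : (r : ℤ) ∣ m := by
      rw [he]
      exact hre.mul_left _
    have hmem : r ∈ m.natAbs.primeFactors.filter (fun r => 5 ≤ r) :=
      Finset.mem_filter.2 ⟨Nat.mem_primeFactors.2 ⟨hr, Int.natCast_dvd.1 hrm, hn0⟩, h5⟩
    have h1 : (r : ℤ) * r ∣ m := by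
      rw [he]
      exact mul_dvd_mul (Finset.dvd_prod_of_mem (fun r : ℕ => (r : ℤ)) hmem) hre
    have h2 := hm _ h1
    rw [Int.isUnit_iff] at h2
    have := hr.two_le
    omega
  have h6 := sqfree_23 e hesq hno
  rcases h6 with h | h | h | h | h | h | h | h
  · omega
  · refine ⟨0, ?_⟩
    conv_lhs => rw [he, h]
    norm_num
  · omega
  · refine ⟨1, ?_⟩
    conv_lhs => rw [he, h]
    norm_num
    ring
  · omega
  · refine ⟨2, ?_⟩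
    conv_lhs => rw [he, h]
    norm_num
    ring
  · omega
  · refine ⟨3, ?_⟩
    conv_lhs => rw [he, h]
    norm_num
    ring

theorem odd_val_mem {k : ℕ} {r : ℕ} (hr : r.Prime) (h5 : 5 ≤ r) {c : ℤ} (hc : c ∣ 6)
    (q : Fin k → ℕ) (hq : ∀ t, (q t).Prime) (w n : ℤ) (hn : n ≠ 0)
    (h : n = c * (∏ t, (q t : ℤ)) * w ^ 2) (hodd : Odd (padicValInt r n)) : ∃ t, q t = r := by
  by_contra hcon
  push Not at hcon
  have hF : Fact r.Prime := ⟨hr⟩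
  have hc0 : c ≠ 0 := by
    rintro rfl
    rw [h] at hn
    simp at hn
  have hP0 : (∏ t, (q t : ℤ)) ≠ 0 := by
    intro h0
    rw [h, h0] at hn
    simp at hn
  have hw0 : w ≠ 0 := by
    rintro rfl
    rw [h] at hn
    simp at hn
  have hrc : ¬ (r : ℤ) ∣ c := by
    intro h1
    have h2 : (r : ℤ) ∣ ((6 : ℕ) : ℤ) := h1.trans hc
    have h3 : r ∣ 2 * 3 := Int.natCast_dvd_natCast.1 h2
    rcases hr.dvd_mul.1 h3 with h4 | h4
    · have := Nat.le_of_dvd (by norm_num) h4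
      omega
    · have := Nat.le_of_dvd (by norm_num) h4
      omega
  have hrP : ¬ (r : ℤ) ∣ ∏ t, (q t : ℤ) := by
    intro h1
    obtain ⟨t, -, ht⟩ := (Nat.prime_iff_prime_int.1 hr).exists_mem_finset_dvd h1
    exact hcon t ((Nat.prime_dvd_prime_iff_eq hr (hq t)).1 (Int.natCast_dvd_natCast.1 ht)).symm
  rw [h, padicValInt.mul (mul_ne_zero hc0 hP0) (pow_ne_zero _ hw0),
    padicValInt.mul hc0 hP0, padicValInt.eq_zero_of_not_dvd hrc,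
    padicValInt.eq_zero_of_not_dvd hrP, pow_two, padicValInt.mul hw0 hw0] at hodd
  obtain ⟨u, hu⟩ := hodd
  omega

theorem vec_aux {k : ℕ} (L : Finset ℕ) (hL : ∀ ℓ ∈ L, ℓ.Prime)
    (hL5 : ∀ ℓ ∈ L, 5 ≤ ℓ) (ε : ℝ)
    (hK : ((∑ i : Fin 4 × Finset (Fin k), ∏ ℓ ∈ L, (ℓ ^ (k + 1) - vg k i.1 i.2 ℓ) : ℕ) : ℝ) ≤
      ε * ((∏ ℓ ∈ L, ℓ : ℕ) : ℝ) ^ (k + 1)) (c : ℤ) (hc : c ∣ 6) (y : ℕ)
    (hy : Nat.Coprime y (∏ l ∈ L, l)) :
    ∃ R : Finset ((Fin k → ZMod (∏ ℓ ∈ L, ℓ)) × ZMod (∏ ℓ ∈ L, ℓ)),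
      (1 - ε) * ((∏ ℓ ∈ L, ℓ : ℕ) : ℝ) ^ (k + 1) ≤ R.card ∧
      ∀ (E : WeierstrassCurve ℚ) [E.IsElliptic] (q : Fin k → ℕ) (w : ℤ), E.j ≠ 0 → E.j ≠ 1728 →
        (E.j.den : ZMod (∏ ℓ ∈ L, ℓ)) = y → (∀ t, (q t).Prime) →
        (E.j - 1728).num = c * (∏ t, (q t : ℤ)) * w ^ 2 →
        ((fun t => (q t : ZMod (∏ ℓ ∈ L, ℓ))), (w : ZMod (∏ ℓ ∈ L, ℓ))) ∈ R →
        ∀ (p : ℕ) [Fact p.Prime], 29 ≤ p → (∀ ℓ ∈ L, 4 * ℓ < p ^ 2) →
          ¬ InNonsplitNormaliser E p := by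
  have hyL : ∀ ℓ ∈ L, ((y : ℕ) : ZMod ℓ) ≠ 0 := by
    intro ℓ hℓ
    rw [Ne, ZMod.natCast_eq_zero_iff]
    intro h
    have h1 : ℓ ∣ Nat.gcd y (∏ l ∈ L, l) :=
      Nat.dvd_gcd h (Finset.dvd_prod_of_mem (fun l => l) hℓ)
    rw [hy] at h1
    exact (hL ℓ hℓ).one_lt.ne' (Nat.dvd_one.1 h1)
  obtain ⟨R, hR, hx⟩ := vcard_meet (k := k) (ι := Fin 4 × Finset (Fin k)) L hL
    (fun i ℓ => VG c y i.1 i.2 ℓ) (fun i ℓ => vg k i.1 i.2 ℓ) (by
      intro i ℓ hℓ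
      have hF : Fact ℓ.Prime := ⟨hL ℓ hℓ⟩
      refine vg_le (hL5 ℓ hℓ) c ?_ y (hyL ℓ hℓ) i.1 i.2
      rw [Ne, ZMod.intCast_zmod_eq_zero_iff_dvd]
      intro h1
      have h2 : (ℓ : ℤ) ∣ ((6 : ℕ) : ℤ) := h1.trans hc
      have h3 : ℓ ∣ 2 * 3 := Int.natCast_dvd_natCast.1 h2
      have h5 := hL5 ℓ hℓ
      rcases (hL ℓ hℓ).dvd_mul.1 h3 with h4 | h4
      · have := Nat.le_of_dvd (by norm_num) h4
        omega
      · have := Nat.le_of_dvd (by norm_num) h4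
        omega) ε hK
  refine ⟨R, hR, ?_⟩
  intro E _ q w hj0 hj1 hby hq hn hmem p _ hp hpL hI
  obtain ⟨-, -, -, -, -, m, hm, hm0, -, -, ha, -, ho, -⟩ :=
    Pool.Agent.H82.HW.quad_field7 E hj0 hj1 p hp hI
  have hyz : E.j - 1728 ≠ 0 := sub_ne_zero.2 hj1
  have hD0 : (E.j - 1728).num ≠ 0 := Rat.num_ne_zero.2 hyz
  obtain ⟨s, hs⟩ := neg_sqfree_split hm hm0
  have hex : ∀ r ∈ m.natAbs.primeFactors.filter (fun r => 5 ≤ r), ∃ t, q t = r := by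
    intro r hr
    obtain ⟨hr1, h5⟩ := Finset.mem_filter.1 hr
    have hrp := Nat.prime_of_mem_primeFactors hr1
    have hrm : (r : ℤ) ∣ m := Int.natCast_dvd.2 (Nat.dvd_of_mem_primeFactors hr1)
    obtain ⟨h6, h7, -⟩ := ha r hrp h5 hrm
    have h8 := ((val_num hyz hrp).1 ((val_num hyz hrp).2 h6)).1
    rw [h8, Int.odd_coe_nat] at h7
    exact odd_val_mem hrp h5 hc q hq w _ hD0 hn h7
  choose τ hτ using hex
  obtain ⟨S, hprod⟩ : ∃ S : Finset (Fin k), ∏ t ∈ S, (q t : ℤ) =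
      ∏ r ∈ m.natAbs.primeFactors with 5 ≤ r, (r : ℤ) := by
    refine ⟨(m.natAbs.primeFactors.filter (fun r => 5 ≤ r)).attach.image
      (fun r => τ r.1 r.2), ?_⟩
    rw [Finset.prod_image]
    · rw [← Finset.prod_attach (m.natAbs.primeFactors.filter (fun r => 5 ≤ r))
        (fun r => (r : ℤ))]
      exact Finset.prod_congr rfl fun r _ => by rw [hτ r.1 r.2]
    · intro r _ r' _ h
      have h1 := congrArg q h
      rw [hτ r.1 r.2, hτ r'.1 r'.2] at h1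
      exact Subtype.ext h1
  obtain ⟨ℓ, hℓ, hF, hO, hQ⟩ := hx _ hmem (s, S)
  have hdvd : ℓ ∣ ∏ ℓ ∈ L, ℓ := Finset.dvd_prod_of_mem (fun l => l) hℓ
  have hbℓ : ((E.j.den : ℕ) : ZMod ℓ) = (y : ZMod ℓ) := by
    rw [ZMod.natCast_eq_natCast_iff] at hby ⊢
    exact hby.of_dvd hdvd
  have hv : 0 ≤ padicValRat ℓ E.j := by
    refine padicVal_nonneg_of_den _ ?_
    rw [← ZMod.natCast_eq_zero_iff, hbℓ]
    exact hyL ℓ hℓ
  have hc1 : ∀ t, ((red ℓ ((fun t => (q t : ZMod (∏ ℓ ∈ L, ℓ))),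
      (w : ZMod (∏ ℓ ∈ L, ℓ)))).1 t : ZMod ℓ) = ((q t : ℕ) : ZMod ℓ) := by
    intro t
    exact ZMod.cast_natCast hdvd _
  have hc2 : (red ℓ ((fun t => (q t : ZMod (∏ ℓ ∈ L, ℓ))),
      (w : ZMod (∏ ℓ ∈ L, ℓ)))).2 = ((w : ℤ) : ZMod ℓ) := ZMod.cast_intCast hdvd _
  refine ho ℓ (hL5 ℓ hℓ) (hpL ℓ hℓ) hv ?_ ?_
  · rw [ordinaryAt_iff, Rat.cast_def, hbℓ]
    rw [Finset.prod_congr rfl fun t _ => hc1 t, hc2] at hO
    have e : (E.j.num : ZMod ℓ) = 1728 * (y : ZMod ℓ) + (c : ZMod ℓ) *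
        (∏ t, ((q t : ℕ) : ZMod ℓ)) * (w : ZMod ℓ) ^ 2 := by
      have h1 := congrArg (fun z : ℤ => (z : ZMod ℓ)) hn
      simp only [num_sub] at h1
      push_cast at h1
      rw [hbℓ] at h1
      linear_combination h1
    rw [e]
    exact hO
  · rw [legendreSym, ← hQ]
    congr 1
    rw [Finset.prod_congr rfl fun t _ => hc1 t]
    conv_lhs => rw [hs, ← hprod]
    push_cast
    rfl

end Pool.Agent.H80.SU
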