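import Pool.Agent.H80.SU.EYc
import Pool.Agent.H27.SU.CGmain

/-!
# Residue classes of `j` for which a nonsplit prime is `11` modulo `12`
-/

set_option autoImplicit false

namespace Pool.Agent.H80.SU

open WeierstrassCurve Pool.Agent.H27.SU
open scoped Classical NumberTheorySymbols

theorem card_noncube (ℓ : ℕ) [Fact ℓ.Prime] (h3 : ℓ % 3 = 1) :
    2 * ((ℓ - 1) / 3) ≤ (Finset.univ.filter (fun A : ZMod ℓ => ∀ c : ZMod ℓ, A ≠ c ^ 3)).card := by
  have hp : ℓ.Prime := Fact.out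
  obtain ⟨ω, hω⟩ : ∃ ω : (ZMod ℓ)ˣ, orderOf ω = 3 := by
    have hF3 : Fact (Nat.Prime 3) := ⟨Nat.prime_three⟩
    apply exists_prime_orderOf_dvd_card 3
    rw [ZMod.card_units_eq_totient, Nat.totient_prime hp]
    have := hp.two_le
    omega
  have hw3 : ((ω : (ZMod ℓ)ˣ) : ZMod ℓ) ^ 3 = 1 := by
    rw [← Units.val_pow_eq_pow_val, ← hω, pow_orderOf_eq_one, Units.val_one]
  have hw1 : ((ω : (ZMod ℓ)ˣ) : ZMod ℓ) ≠ 1 := by
    intro h
    have : ω = 1 := Units.ext h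
    rw [this, orderOf_one] at hω
    omega
  set w : ZMod ℓ := (ω : ZMod ℓ) with hw
  have hw0 : w ≠ 0 := ω.ne_zero
  have h1 : 3 * ((Finset.univ.erase (0 : ZMod ℓ)).image (fun x => x ^ 3)).card ≤
      (Finset.univ.erase (0 : ZMod ℓ)).card := by
    apply Finset.mul_card_image_le_card
    intro a ha
    obtain ⟨x, hx, rfl⟩ := Finset.mem_image.1 ha
    have hx0 : x ≠ 0 := (Finset.mem_erase.1 hx).1
    have hsub : ({x, w * x, w ^ 2 * x} : Finset (ZMod ℓ)) ⊆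
        (Finset.univ.erase (0 : ZMod ℓ)).filter (fun z => z ^ 3 = x ^ 3) := by
      intro z hz
      rw [Finset.mem_insert, Finset.mem_insert, Finset.mem_singleton] at hz
      rw [Finset.mem_filter, Finset.mem_erase]
      rcases hz with rfl | rfl | rfl
      · exact ⟨⟨hx0, Finset.mem_univ _⟩, rfl⟩
      · exact ⟨⟨mul_ne_zero hw0 hx0, Finset.mem_univ _⟩, by rw [mul_pow, hw3, one_mul]⟩
      · refine ⟨⟨mul_ne_zero (pow_ne_zero _ hw0) hx0, Finset.mem_univ _⟩, ?_⟩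
        rw [mul_pow, ← pow_mul, pow_mul', hw3, one_pow, one_mul]
    have hne1 : x ≠ w * x := by
      intro h
      apply hw1
      have : w * x = 1 * x := by rw [one_mul]; exact h.symm
      exact mul_right_cancel₀ hx0 this
    have hne2 : x ≠ w ^ 2 * x := by
      intro h
      have h2 : w ^ 2 * x = 1 * x := by rw [one_mul]; exact h.symm
      have h3 : w ^ 2 = 1 := mul_right_cancel₀ hx0 h2
      apply hw1
      have h4 : w ^ 3 = w := by rw [pow_succ, h3, one_mul]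
      rw [← h4, hw3]
    have hne3 : w * x ≠ w ^ 2 * x := by
      intro h
      have h2 : w = w ^ 2 := mul_right_cancel₀ hx0 h
      apply hw1
      have h3 : w * w = w * 1 := by rw [mul_one, ← pow_two]; exact h2.symm
      exact mul_left_cancel₀ hw0 h3
    have hcard : ({x, w * x, w ^ 2 * x} : Finset (ZMod ℓ)).card = 3 :=
      Finset.card_eq_three.2 ⟨_, _, _, hne1, hne2, hne3, rfl⟩
    have h9 := Finset.card_le_card hsub
    rw [hcard] at h9
    exact h9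
  have h2 : (Finset.univ.erase (0 : ZMod ℓ)).card = ℓ - 1 := by
    rw [Finset.card_erase_of_mem (Finset.mem_univ _), Finset.card_univ, ZMod.card]
  have hcov : (Finset.univ : Finset (ZMod ℓ)) ⊆
      (Finset.univ.filter (fun A : ZMod ℓ => ∀ c : ZMod ℓ, A ≠ c ^ 3)) ∪
        (insert 0 ((Finset.univ.erase (0 : ZMod ℓ)).image (fun x => x ^ 3))) := by
    intro A _
    by_cases h : ∀ c : ZMod ℓ, A ≠ c ^ 3
    · exact Finset.mem_union_left _ (Finset.mem_filter.2 ⟨Finset.mem_univ _, h⟩)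
    · apply Finset.mem_union_right
      push Not at h
      obtain ⟨c, hc⟩ := h
      by_cases hc0 : c = 0
      · rw [hc, hc0]
        exact Finset.mem_insert.2 (Or.inl (by norm_num))
      · exact Finset.mem_insert_of_mem (Finset.mem_image.2
          ⟨c, Finset.mem_erase.2 ⟨hc0, Finset.mem_univ _⟩, hc.symm⟩)
  have h3' := Finset.card_le_card hcov
  rw [Finset.card_univ, ZMod.card] at h3'
  have h4 := h3'.trans ((Finset.card_union_le _ _).trans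
    (Nat.add_le_add_left (Finset.card_insert_le _ _) _))
  rw [h2] at h1
  omega

/-- lower bounds for the number of good classes -/
def gg : Option (Fin 8 ⊕ Fin 4) → ℕ → ℕ
  | none => fun ℓ => if ℓ % 3 = 1 then 2 * ((ℓ - 1) / 3) else 0
  | some (Sum.inl _) => gcnt
  | some (Sum.inr i) => fun ℓ => if sg (i.val % 2) (i.val / 2) ℓ = -1 then ocnt ℓ else 0

/-- the good classes -/
def GG (y : ℕ) : Option (Fin 8 ⊕ Fin 4) → (ℓ : ℕ) → Set (ZMod ℓ)
  | none => fun ℓ => {A | ∀ c : ZMod ℓ, A ≠ c ^ 3}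
  | some (Sum.inl i) => fun ℓ => {A | ∃ _ : Fact ℓ.Prime, OrdZ ℓ (A / (y : ZMod ℓ)) ∧
      quadraticChar (ZMod ℓ) (((cl i : ℤ) : ZMod ℓ) * (A - 1728 * (y : ZMod ℓ))) = -1}
  | some (Sum.inr i) => fun ℓ => {A | ∃ _ : Fact ℓ.Prime, OrdZ ℓ (A / (y : ZMod ℓ)) ∧
        legendreSym ℓ (-(2 ^ (i.val % 2) * 3 ^ (i.val / 2))) = -1}

theorem gg_le {ℓ : ℕ} [Fact ℓ.Prime] (h5 : 5 ≤ ℓ) (y : ℕ) (hy : ((y : ℕ) : ZMod ℓ) ≠ 0)
    (i : Option (Fin 8 ⊕ Fin 4)) : gg i ℓ ≤ (GG y i ℓ).ncard := by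
  rcases i with _ | (i | i)
  · show (if ℓ % 3 = 1 then 2 * ((ℓ - 1) / 3) else 0) ≤ _
    by_cases h3 : ℓ % 3 = 1
    · rw [if_pos h3]
      refine (card_noncube ℓ h3).trans (le_of_eq ?_)
      rw [← Set.ncard_coe_finset]
      congr 1
      ext J
      simp [GG]
    · rw [if_neg h3]
      exact Nat.zero_le _
  · have h1 := card_good_den ℓ h5 ((cl i : ℤ) : ZMod ℓ) y (cl_ne i h5) hy
    refine h1.trans (le_of_eq ?_)
    rw [← Set.ncard_coe_finset]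
    congr 1
    ext J
    simp only [Finset.coe_filter, Finset.mem_univ, true_and, GG, Set.mem_ofPred_eq]
    constructor
    · intro h
      exact ⟨inferInstance, h⟩
    · rintro ⟨_, h⟩
      exact h
  · show (if sg (i.val % 2) (i.val / 2) ℓ = -1 then ocnt ℓ else 0) ≤ _
    by_cases hs : sg (i.val % 2) (i.val / 2) ℓ = -1
    · rw [if_pos hs]
      refine (card_ord_den ℓ h5 y hy).trans (le_of_eq ?_)
      rw [← Set.ncard_coe_finset]
      congr 1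
      ext J
      simp only [Finset.coe_filter, Finset.mem_univ, true_and, GG, Set.mem_ofPred_eq]
      constructor
      · intro h
        exact ⟨inferInstance, h, by rw [sg_eq h5, hs]⟩
      · rintro ⟨_, h, -⟩
        exact h
    · rw [if_neg hs]
      exact Nat.zero_le _

theorem classes_aux (L : Finset ℕ) (hL : ∀ ℓ ∈ L, ℓ.Prime) (hL5 : ∀ ℓ ∈ L, 5 ≤ ℓ) (ε : ℝ)
    (hK : ((∑ i, ∏ ℓ ∈ L, (ℓ - gg i ℓ) : ℕ) : ℝ) ≤ ε * ((∏ ℓ ∈ L, ℓ : ℕ) : ℝ)) (y : ℕ)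
    (hy : Nat.Coprime y (∏ l ∈ L, l)) :
    ∃ R : Finset (ZMod (∏ l ∈ L, l)), (1 - ε) * ((∏ l ∈ L, l : ℕ) : ℝ) ≤ R.card ∧
      ∀ (E : WeierstrassCurve ℚ) [E.IsElliptic], E.j ≠ 0 → E.j ≠ 1728 →
        (E.j.den : ZMod (∏ l ∈ L, l)) = y → (E.j.num : ZMod (∏ l ∈ L, l)) ∈ R →
        ∀ (p : ℕ) [Fact p.Prime], 29 ≤ p → (∀ ℓ ∈ L, 4 * ℓ < p ^ 2) →
          InNonsplitNormaliser E p →
          p % 12 = 11 ∧ ∃ q q' : ℕ, q.Prime ∧ q'.Prime ∧ 5 ≤ q ∧ 5 ≤ q' ∧ q ≠ q' ∧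
            0 < padicValRat q (E.j - 1728) ∧ Odd (padicValRat q (E.j - 1728)) ∧
            0 < padicValRat q' (E.j - 1728) ∧ Odd (padicValRat q' (E.j - 1728)) ∧
            (q' % 4 = 3 ∨ p ^ 2 ≤ 4 * q') := by
  have hyL : ∀ ℓ ∈ L, ((y : ℕ) : ZMod ℓ) ≠ 0 := by
    intro ℓ hℓ
    rw [Ne, ZMod.natCast_eq_zero_iff]
    intro h
    have h1 : ℓ ∣ Nat.gcd y (∏ l ∈ L, l) :=
      Nat.dvd_gcd h (Finset.dvd_prod_of_mem (fun l => l) hℓ)
    rw [hy] at h1
    exact (hL ℓ hℓ).one_lt.ne' (Nat.dvd_one.1 h1)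
  obtain ⟨R, hR, hx⟩ := card_meet (ι := Option (Fin 8 ⊕ Fin 4)) L hL (GG y) gg
    (by
      intro i ℓ hℓ
      have hF : Fact ℓ.Prime := ⟨hL ℓ hℓ⟩
      exact gg_le (hL5 ℓ hℓ) y (hyL ℓ hℓ) i) ε hK
  refine ⟨R, hR, ?_⟩
  intro E _ hj0 hj1 hby haR p _ hp hpL hI
  have hbL : ∀ ℓ ∈ L, ((E.j.den : ℕ) : ZMod ℓ) = (y : ZMod ℓ) ∧ 0 ≤ padicValRat ℓ E.j := by
    intro ℓ hℓ
    have hF : Fact ℓ.Prime := ⟨hL ℓ hℓ⟩
    have hbℓ : ((E.j.den : ℕ) : ZMod ℓ) = (y : ZMod ℓ) := by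
      rw [ZMod.natCast_eq_natCast_iff] at hby ⊢
      exact hby.of_dvd (Finset.dvd_prod_of_mem (fun l => l) hℓ)
    refine ⟨hbℓ, padicVal_nonneg_of_den _ ?_⟩
    rw [← ZMod.natCast_eq_zero_iff, hbℓ]
    exact hyL ℓ hℓ
  obtain ⟨-, -, -, -, -, m, hm, hm0, -, -, ha, ha', ho, -⟩ :=
    Pool.Agent.H82.HW.quad_field7 E hj0 hj1 p hp hI
  have hkill : ¬ ((∀ q : ℕ, q.Prime → 5 ≤ q → 0 < padicValRat q (E.j - 1728) →
            Odd (padicValRat q (E.j - 1728)) → (q : ℤ) ∣ m) ∨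
            (∀ q : ℕ, q.Prime → 5 ≤ q → ¬ (q : ℤ) ∣ m)) := by
    intro hcase
    rcases hcase with hall | hnone
    · obtain ⟨i, t, hit⟩ := class_of_all hm hj1
        (fun q hq h5 hqm => ⟨(ha q hq h5 hqm).1, (ha q hq h5 hqm).2.1⟩) hall
      obtain ⟨ℓ, hℓ, hF, hO, hQ⟩ := hx E.j.num haR (some (Sum.inl i))
      obtain ⟨hbℓ, hv⟩ := hbL ℓ hℓ
      refine ho ℓ (hL5 ℓ hℓ) (hpL ℓ hℓ) hv ?_ ?_
      · rw [ordinaryAt_iff, Rat.cast_def, hbℓ]
        exact hO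
      · apply leg_transfer ℓ m (E.j - 1728).num (cl i) (cl i * t) hm
        · rw [hit]
          ring
        · rw [num_sub, legendreSym]
          push_cast
          rw [hbℓ]
          exact hQ
    · have hm6 := sqfree_23 m hm hnone
      obtain ⟨i, hi⟩ : ∃ i : Fin 4, m = -(2 ^ (i.val % 2) * 3 ^ (i.val / 2)) := by
        rcases hm6 with h | h | h | h | h | h | h | h
        · omega
        · exact ⟨0, by rw [h]; norm_num⟩
        · omega
        · exact ⟨1, by rw [h]; norm_num⟩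
        · omega
        · exact ⟨2, by rw [h]; norm_num⟩
        · omega
        · exact ⟨3, by rw [h]; norm_num⟩
      obtain ⟨ℓ, hℓ, hF, hO, hQ⟩ := hx E.j.num haR (some (Sum.inr i))
      obtain ⟨hbℓ, hv⟩ := hbL ℓ hℓ
      refine ho ℓ (hL5 ℓ hℓ) (hpL ℓ hℓ) hv ?_ ?_
      · rw [ordinaryAt_iff, Rat.cast_def, hbℓ]
        exact hO
      · rw [hi]
        exact hQ
  rw [not_or] at hkill
  obtain ⟨hk1, hk2⟩ := hkill
  push Not at hk1 hk2
  obtain ⟨q₁, hq₁, h5₁, hv₁, ho₁, hn₁⟩ := hk1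
  obtain ⟨q₂, hq₂, h5₂, hm₂⟩ := hk2
  have hF1 : Fact q₁.Prime := ⟨hq₁⟩
  constructor
  · have hp4 : p % 4 ≠ 1 := by
      intro hp4
      rcases ha' q₁ h5₁ hv₁ ho₁ with h | h
      · exact hn₁ h
      · omega
    have hpp : p.Prime := Fact.out
    have hm2 : p % 2 = 1 := by
      rcases hpp.eq_two_or_odd with h | h
      · omega
      · exact h
    have hm30 : p % 3 ≠ 0 := by
      intro h
      have := (Nat.prime_dvd_prime_iff_eq Nat.prime_three hpp).1 (Nat.dvd_of_mod_eq_zero h)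
      omega
    have hp31 : p % 3 ≠ 1 := by
      intro hp3
      obtain ⟨c, hc⟩ := Pool.Agent.H41.SD.numerator_cube E p hp hp3 hI
      obtain ⟨ℓ, hℓ, hQ⟩ := hx E.j.num haR none
      apply hQ (c : ZMod ℓ)
      rw [hc]
      push_cast
      rfl
    omega
  · obtain ⟨h6, h7, h8⟩ := ha q₂ hq₂ h5₂ hm₂
    refine ⟨q₁, q₂, hq₁, hq₂, h5₁, h5₂, ?_, hv₁, ho₁, h6, h7, ?_⟩
    · rintro rfl
      exact hn₁ hm₂
    · have hodd : q₂ % 2 = 1 := by
        rcases hq₂.eq_two_or_odd with h | h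
        · omega
        · exact h
      rcases (show q₂ % 4 = 1 ∨ q₂ % 4 = 3 by omega) with h | h
      · right
        by_contra hcon
        push Not at hcon
        exact h8 ⟨h, hcon⟩
      · exact Or.inl h

end Pool.Agent.H80.SU
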