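import Pool.Agent.H80.SU.EYe
import Pool.Agent.H80.SU.AFc

/-!
# The explicit and the general theorem on residue classes
-/

set_option autoImplicit false

namespace Pool.Agent.H80.SU

open WeierstrassCurve Pool.Agent.H27.SU
open scoped Classical NumberTheorySymbols

theorem vsum {k : ℕ} (L : Finset ℕ) :
    ∑ i : Fin 4 × Finset (Fin k), ∏ ℓ ∈ L, (ℓ ^ (k + 1) - vg k i.1 i.2 ℓ) =
    (∑ s : Fin 4, ∏ ℓ ∈ L, (ℓ ^ (k + 1) -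
      (if sg (s.val % 2) (s.val / 2) ℓ = -1 then
        (if k = 0 then 2 * gcnt ℓ else (ℓ - 1) ^ k * ocnt ℓ) else 0))) +
      4 * (2 ^ k - 1) * ∏ ℓ ∈ L, (ℓ ^ (k + 1) - (ℓ - 1) ^ k * gcnt ℓ) := by
  have h1 : ∀ s : Fin 4, ∑ S : Finset (Fin k), ∏ ℓ ∈ L, (ℓ ^ (k + 1) - vg k s S ℓ) =
      (∏ ℓ ∈ L, (ℓ ^ (k + 1) -
        (if sg (s.val % 2) (s.val / 2) ℓ = -1 then
          (if k = 0 then 2 * gcnt ℓ else (ℓ - 1) ^ k * ocnt ℓ) else 0))) +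
      (2 ^ k - 1) * ∏ ℓ ∈ L, (ℓ ^ (k + 1) - (ℓ - 1) ^ k * gcnt ℓ) := by
    intro s
    have e1 : ∏ ℓ ∈ L, (ℓ ^ (k + 1) - vg k s (∅ : Finset (Fin k)) ℓ) =
        ∏ ℓ ∈ L, (ℓ ^ (k + 1) -
          (if sg (s.val % 2) (s.val / 2) ℓ = -1 then
            (if k = 0 then 2 * gcnt ℓ else (ℓ - 1) ^ k * ocnt ℓ) else 0)) := by
      refine Finset.prod_congr rfl fun ℓ _ => ?_
      unfold vg
      rw [if_pos rfl]
    have h2 : ∀ S ∈ Finset.univ.erase (∅ : Finset (Fin k)),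
        ∏ ℓ ∈ L, (ℓ ^ (k + 1) - vg k s S ℓ) =
          ∏ ℓ ∈ L, (ℓ ^ (k + 1) - (ℓ - 1) ^ k * gcnt ℓ) := by
      intro S hS
      refine Finset.prod_congr rfl fun ℓ _ => ?_
      unfold vg
      rw [if_neg (Finset.mem_erase.1 hS).1]
    rw [← Finset.add_sum_erase _ _ (Finset.mem_univ (∅ : Finset (Fin k))), e1,
      Finset.sum_congr rfl h2, Finset.sum_const, Finset.card_erase_of_mem (Finset.mem_univ _),
      Finset.card_univ, Fintype.card_finset, Fintype.card_fin, smul_eq_mul]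
  rw [Fintype.sum_prod_type, Finset.sum_congr rfl fun s _ => h1 s, Finset.sum_add_distrib,
    Finset.sum_const, Finset.card_univ, Fintype.card_fin, smul_eq_mul, mul_assoc]

theorem gcnt_le_ocnt {ℓ : ℕ} (h : 5 ≤ ℓ) : gcnt ℓ ≤ ocnt ℓ := by
  unfold gcnt ocnt
  omega

theorem four_gcnt {ℓ : ℕ} (h : 19 ≤ ℓ) (h2 : ℓ % 2 = 1) : ℓ ≤ 4 * gcnt ℓ := by
  unfold gcnt
  omega

theorem pow_half {ℓ k : ℕ} (h : 2 * k ≤ ℓ) (h1 : 1 ≤ ℓ) : ℓ ^ k ≤ 2 * (ℓ - 1) ^ k := by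
  have hr : (1 : ℝ) - k * (1 / ℓ) ≤ (1 - 1 / ℓ) ^ k := by
    have hl : (1 : ℝ) ≤ ℓ := by exact_mod_cast h1
    have h2 : (-2 : ℝ) ≤ -(1 / ℓ) := by
      have : (1 : ℝ) / ℓ ≤ 1 := by
        rw [div_le_one (by linarith)]
        exact hl
      linarith
    have := one_add_mul_le_pow h2 k
    calc (1 : ℝ) - k * (1 / ℓ) = 1 + k * (-(1 / ℓ)) := by ring
      _ ≤ (1 + -(1 / ℓ)) ^ k := this
      _ = _ := by rw [← sub_eq_add_neg]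
  have hl : (0 : ℝ) < ℓ := by exact_mod_cast h1
  have h3 : (k : ℝ) * (1 / ℓ) ≤ 1 / 2 := by
    rw [mul_one_div, div_le_iff₀ hl]
    have : (2 : ℝ) * k ≤ ℓ := by exact_mod_cast h
    linarith
  have h4 : (1 / 2 : ℝ) ≤ (1 - 1 / ℓ) ^ k := by linarith
  have h5 : (ℓ : ℝ) ^ k ≤ 2 * ((ℓ - 1 : ℕ) : ℝ) ^ k := by
    rw [Nat.cast_sub h1, Nat.cast_one]
    have h6 : ((ℓ : ℝ) - 1) ^ k = (1 - 1 / ℓ) ^ k * (ℓ : ℝ) ^ k := by
      rw [← mul_pow]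
      congr 1
      field_simp
    rw [h6]
    have h7 : (0 : ℝ) < (ℓ : ℝ) ^ k := pow_pos hl k
    nlinarith
  exact_mod_cast h5

theorem prod_small {L : Finset ℕ} (k : ℕ) (g : ℕ → ℕ)
    (h : ∀ ℓ ∈ L, ℓ ^ (k + 1) ≤ 8 * g ℓ) :
    ((∏ ℓ ∈ L, (ℓ ^ (k + 1) - g ℓ) : ℕ) : ℝ) ≤
      (7 / 8) ^ L.card * ((∏ ℓ ∈ L, ℓ : ℕ) : ℝ) ^ (k + 1) := by
  push_cast
  rw [← Finset.prod_pow, ← Finset.prod_const, ← Finset.prod_mul_distrib]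
  apply Finset.prod_le_prod
  · intro ℓ _
    exact Nat.cast_nonneg _
  · intro ℓ hℓ
    have h1 := h ℓ hℓ
    have h2 : ((ℓ ^ (k + 1) - g ℓ : ℕ) : ℝ) + (g ℓ : ℝ) ≤ max ((ℓ : ℝ) ^ (k + 1)) (g ℓ) := by
      rcases le_total (g ℓ) (ℓ ^ (k + 1)) with h3 | h3
      · rw [Nat.cast_sub h3]
        push_cast
        simp
      · rw [Nat.sub_eq_zero_of_le h3]
        simp
    have h3 : (ℓ : ℝ) ^ (k + 1) ≤ 8 * (g ℓ : ℝ) := by exact_mod_cast h1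
    rcases le_total (g ℓ) (ℓ ^ (k + 1)) with h4 | h4
    · rw [Nat.cast_sub h4]
      push_cast
      linarith
    · rw [Nat.sub_eq_zero_of_le h4]
      push_cast
      positivity

/-- primes `-1` modulo `24` make all bounds small -/
theorem exists_L (k : ℕ) (ε : ℝ) (hε : 0 < ε) : ∃ L : Finset ℕ, (∀ ℓ ∈ L, ℓ.Prime) ∧
    (∀ ℓ ∈ L, 5 ≤ ℓ) ∧
    ((∑ i : Fin 4 × Finset (Fin k), ∏ ℓ ∈ L, (ℓ ^ (k + 1) - vg k i.1 i.2 ℓ) : ℕ) : ℝ) ≤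
      ε * ((∏ ℓ ∈ L, ℓ : ℕ) : ℝ) ^ (k + 1) := by
  obtain ⟨n, hn⟩ : ∃ n : ℕ, (4 * 2 ^ k : ℝ) * (7 / 8) ^ n ≤ ε := by
    have hpos : (0 : ℝ) < 4 * 2 ^ k := by positivity
    obtain ⟨n, hn⟩ := exists_pow_lt_of_lt_one (div_pos hε hpos) (show (7 / 8 : ℝ) < 1 by norm_num)
    refine ⟨n, ?_⟩
    rw [lt_div_iff₀ hpos] at hn
    linarith
  have hinf : ({ℓ : ℕ | ℓ.Prime ∧ 19 ≤ ℓ ∧ 24 ∣ ℓ + 1} \ (Finset.range (2 * k) : Set ℕ)).Infinite :=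
    (neg_one_infinite 24 (by norm_num)).sdiff (Finset.finite_toSet _)
  obtain ⟨L, hL, hcard⟩ := hinf.exists_subset_card_eq n
  have hL' : ∀ ℓ ∈ L, ℓ.Prime ∧ 19 ≤ ℓ ∧ 24 ∣ ℓ + 1 ∧ 2 * k ≤ ℓ := by
    intro ℓ hℓ
    obtain ⟨⟨h1, h2, h3⟩, h4⟩ := hL hℓ
    rw [Finset.mem_coe, Finset.mem_range, not_lt] at h4
    exact ⟨h1, h2, h3, h4⟩
  refine ⟨L, fun ℓ hℓ => (hL' ℓ hℓ).1, fun ℓ hℓ => by have := (hL' ℓ hℓ).2.1; omega, ?_⟩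
  have hterm : ∀ i : Fin 4 × Finset (Fin k),
      ((∏ ℓ ∈ L, (ℓ ^ (k + 1) - vg k i.1 i.2 ℓ) : ℕ) : ℝ) ≤
        (7 / 8) ^ n * ((∏ ℓ ∈ L, ℓ : ℕ) : ℝ) ^ (k + 1) := by
    intro i
    rw [← hcard]
    apply prod_small
    intro ℓ hℓ
    obtain ⟨h1, h2, h3, h4⟩ := hL' ℓ hℓ
    have h5 : ℓ % 24 = 23 := by omega
    have h6 := four_gcnt h2 (by omega)
    have h7 := pow_half h4 (by omega)
    have h8 : ℓ ^ (k + 1) ≤ 8 * ((ℓ - 1) ^ k * gcnt ℓ) := by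
      calc ℓ ^ (k + 1) = ℓ ^ k * ℓ := pow_succ _ _
        _ ≤ (2 * (ℓ - 1) ^ k) * (4 * gcnt ℓ) := Nat.mul_le_mul h7 h6
        _ = _ := by ring
    unfold vg
    by_cases hS : i.2 = ∅
    · rw [if_pos hS, if_pos]
      · by_cases hk0 : k = 0
        · rw [if_pos hk0]
          subst hk0
          rw [zero_add, pow_one]
          omega
        · rw [if_neg hk0]
          exact h8.trans (Nat.mul_le_mul_left _ (Nat.mul_le_mul_left _ (gcnt_le_ocnt (by omega))))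
      · unfold sg
        rw [h5, show f4 23 = -1 by decide, show f8 23 = 1 by decide, show f12 23 = 1 by decide,
          one_pow, one_pow, mul_one, mul_one]
    · rw [if_neg hS]
      exact h8
  rw [Nat.cast_sum]
  calc ∑ i : Fin 4 × Finset (Fin k), ((∏ ℓ ∈ L, (ℓ ^ (k + 1) - vg k i.1 i.2 ℓ) : ℕ) : ℝ)
      ≤ ∑ _i : Fin 4 × Finset (Fin k), (7 / 8) ^ n * ((∏ ℓ ∈ L, ℓ : ℕ) : ℝ) ^ (k + 1) :=
        Finset.sum_le_sum fun i _ => hterm i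
    _ = ((4 * 2 ^ k) * (7 / 8) ^ n) * ((∏ ℓ ∈ L, ℓ : ℕ) : ℝ) ^ (k + 1) := by
        rw [Finset.sum_const, Finset.card_univ, Fintype.card_prod, Fintype.card_fin,
          Fintype.card_finset, Fintype.card_fin, nsmul_eq_mul]
        push_cast
        ring
    _ ≤ _ := by
        apply mul_le_mul_of_nonneg_right hn
        positivity

end Pool.Agent.H80.SU
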