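import Pool.Agent.H80.SU.EYf

/-!
# Residue classes: final forms
-/

set_option autoImplicit false

namespace Pool.Agent.H80.SU

open WeierstrassCurve Pool.Agent.H27.SU
open scoped Classical NumberTheorySymbols

theorem coprime_val {N : ℕ} [NeZero N] {y : ℕ} (hy : Nat.Coprime y N) :
    Nat.Coprime ((y : ZMod N)).val N := by
  rw [ZMod.val_natCast]
  exact (Nat.ModEq.gcd_eq (Nat.mod_modEq y _)).trans hy

theorem classes_fun (L : Finset ℕ) (hL : ∀ ℓ ∈ L, ℓ.Prime) (hL5 : ∀ ℓ ∈ L, 5 ≤ ℓ) (ε : ℝ)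
    (hε : 0 ≤ ε)
    (hK : ((∑ i, ∏ ℓ ∈ L, (ℓ - gg i ℓ) : ℕ) : ℝ) ≤ ε * ((∏ ℓ ∈ L, ℓ : ℕ) : ℝ)) (N : ℕ)
    (hN : N = ∏ l ∈ L, l) :
    ∃ R : ZMod N → Finset (ZMod N),
      (∀ y : ZMod N, (1 - ε) * (N : ℝ) ≤ (R y).card) ∧
      ∀ (E : WeierstrassCurve ℚ) [E.IsElliptic], E.j ≠ 0 → E.j ≠ 1728 → Nat.Coprime E.j.den N →
        (E.j.num : ZMod N) ∈ R E.j.den →
        ∀ (p : ℕ) [Fact p.Prime], 29 ≤ p → (∀ ℓ ∈ L, 4 * ℓ < p ^ 2) →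
          InNonsplitNormaliser E p →
          p % 12 = 11 ∧ ∃ q q' : ℕ, q.Prime ∧ q'.Prime ∧ 5 ≤ q ∧ 5 ≤ q' ∧ q ≠ q' ∧
            0 < padicValRat q (E.j - 1728) ∧ Odd (padicValRat q (E.j - 1728)) ∧
            0 < padicValRat q' (E.j - 1728) ∧ Odd (padicValRat q' (E.j - 1728)) ∧
            (q' % 4 = 3 ∨ p ^ 2 ≤ 4 * q') := by
  subst hN
  choose R hR hx using classes_aux L hL hL5 ε hK
  have hN0 : NeZero (∏ l ∈ L, l) := ⟨Finset.prod_ne_zero_iff.2 fun l hl => (hL l hl).ne_zero⟩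
  refine ⟨fun z => if hz : Nat.Coprime z.val (∏ l ∈ L, l) then R z.val hz else Finset.univ, ?_, ?_⟩
  · intro z
    by_cases hz : Nat.Coprime z.val (∏ l ∈ L, l)
    · simp only [dif_pos hz]
      exact hR _ hz
    · simp only [dif_neg hz]
      rw [Finset.card_univ, ZMod.card]
      have : (0 : ℝ) ≤ ((∏ l ∈ L, l : ℕ) : ℝ) := Nat.cast_nonneg _
      nlinarith
  · intro E _ hj0 hj1 hcop hmem p _ hp hpL hI
    have hz := coprime_val hcop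
    simp only [dif_pos hz] at hmem
    exact hx _ hz E hj0 hj1 (ZMod.natCast_zmod_val _).symm hmem p hp hpL hI

theorem vec_fun {k : ℕ} (L : Finset ℕ) (hL : ∀ ℓ ∈ L, ℓ.Prime)
    (hL5 : ∀ ℓ ∈ L, 5 ≤ ℓ) (ε : ℝ) (hε : 0 ≤ ε)
    (hK : ((∑ i : Fin 4 × Finset (Fin k), ∏ ℓ ∈ L, (ℓ ^ (k + 1) - vg k i.1 i.2 ℓ) : ℕ) : ℝ) ≤
      ε * ((∏ ℓ ∈ L, ℓ : ℕ) : ℝ) ^ (k + 1)) (N : ℕ) (hN : N = ∏ l ∈ L, l) :
    ∃ V : ℤ → ZMod N → Finset ((Fin k → ZMod N) × ZMod N),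
      (∀ (c : ℤ) (y : ZMod N), c ∣ 6 → (1 - ε) * (N : ℝ) ^ (k + 1) ≤ (V c y).card) ∧
      ∀ (E : WeierstrassCurve ℚ) [E.IsElliptic] (c : ℤ) (q : Fin k → ℕ) (w : ℤ), E.j ≠ 0 →
        E.j ≠ 1728 → Nat.Coprime E.j.den N → c ∣ 6 → (∀ t, (q t).Prime) →
        (E.j - 1728).num = c * (∏ t, (q t : ℤ)) * w ^ 2 →
        ((fun t => (q t : ZMod N)), (w : ZMod N)) ∈ V c E.j.den →
        ∀ (p : ℕ) [Fact p.Prime], 29 ≤ p → (∀ ℓ ∈ L, 4 * ℓ < p ^ 2) →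
          ¬ InNonsplitNormaliser E p := by
  subst hN
  choose V hV hx using vec_aux (k := k) L hL hL5 ε hK
  have hN0 : NeZero (∏ l ∈ L, l) := ⟨Finset.prod_ne_zero_iff.2 fun l hl => (hL l hl).ne_zero⟩
  refine ⟨fun c z => if hz : c ∣ 6 ∧ Nat.Coprime z.val (∏ l ∈ L, l) then V c hz.1 z.val hz.2
    else Finset.univ, ?_, ?_⟩
  · intro c z hc
    by_cases hz : c ∣ 6 ∧ Nat.Coprime z.val (∏ l ∈ L, l)
    · simp only [dif_pos hz]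
      exact hV _ _ _ _
    · simp only [dif_neg hz]
      rw [Finset.card_univ, Fintype.card_prod, Fintype.card_fun, ZMod.card, Fintype.card_fin,
        ← pow_succ]
      have : (0 : ℝ) ≤ ((∏ l ∈ L, l : ℕ) : ℝ) ^ (k + 1) := by positivity
      push_cast at this ⊢
      nlinarith
  · intro E _ c q w hj0 hj1 hcop hc hq hn hmem p _ hp hpL
    have hz : c ∣ 6 ∧ Nat.Coprime ((E.j.den : ZMod (∏ l ∈ L, l))).val (∏ l ∈ L, l) :=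
      ⟨hc, coprime_val hcop⟩
    simp only [dif_pos hz] at hmem
    exact hx c hc _ hz.2 E q w hj0 hj1 (ZMod.natCast_zmod_val _).symm hq hn hmem p hp hpL

/-- a nonsplit prime and a small pole -/
theorem pole_big (E : WeierstrassCurve ℚ) [E.IsElliptic] (hj0 : E.j ≠ 0) (hj1 : E.j ≠ 1728)
    (p : ℕ) [Fact p.Prime] (hp : 29 ≤ p) (hI : InNonsplitNormaliser E p) (ℓ : ℕ) (hℓ : ℓ.Prime)
    (hd : ℓ ∣ E.j.den) : 2 * p ≤ ℓ + 1 ∧ ℓ ^ p ∣ E.j.den := by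
  have hF : Fact ℓ.Prime := ⟨hℓ⟩
  obtain ⟨-, -, -, -, -, m, -, -, -, hpole, -⟩ :=
    Pool.Agent.H82.HW.quad_field7 E hj0 hj1 p hp hI
  have h1 : ¬ ℓ ∣ E.j.num.natAbs := fun h =>
    (Nat.not_coprime_of_dvd_of_dvd hℓ.one_lt h hd) E.j.reduced
  have h2 : padicValInt ℓ E.j.num = 0 := padicValNat.eq_zero_of_not_dvd h1
  have h3 : 0 < padicValNat ℓ E.j.den :=
    Nat.pos_of_ne_zero (fun h => by
      rcases padicValNat.eq_zero_iff.1 h with h4 | h4 | h4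
      · exact hℓ.one_lt.ne' h4
      · exact E.j.den_nz h4
      · exact h4 hd)
  have hv : padicValRat ℓ E.j = -(padicValNat ℓ E.j.den : ℤ) := by
    rw [padicValRat, h2]
    simp
  obtain ⟨h4, h5, -⟩ := hpole ℓ (by rw [hv]; omega)
  refine ⟨h5, ?_⟩
  rw [hv, dvd_neg] at h4
  have h6 : p ∣ padicValNat ℓ E.j.den := by exact_mod_cast h4
  have h7 := Nat.le_of_dvd h3 h6
  exact (pow_dvd_pow ℓ h7).trans pow_padicValNat_dvd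

/-- the general theorem -/
theorem vec_general (k : ℕ) (ε : ℝ) (hε : 0 < ε) :
    ∃ (N C : ℕ) (V : ℤ → ZMod N → Finset ((Fin k → ZMod N) × ZMod N)), 0 < N ∧
      (∀ (c : ℤ) (y : ZMod N), c ∣ 6 → (1 - ε) * (N : ℝ) ^ (k + 1) ≤ (V c y).card) ∧
      ∀ (E : WeierstrassCurve ℚ) [E.IsElliptic] (c : ℤ) (q : Fin k → ℕ) (w : ℤ), E.j ≠ 0 →
        E.j ≠ 1728 → c ∣ 6 → (∀ t, (q t).Prime) →
        (E.j - 1728).num = c * (∏ t, (q t : ℤ)) * w ^ 2 →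
        ((fun t => (q t : ZMod N)), (w : ZMod N)) ∈ V c E.j.den →
        ∀ (p : ℕ) [Fact p.Prime], C < p → ¬ InNonsplitNormaliser E p := by
  obtain ⟨L, hL, hL5, hK⟩ := exists_L k ε hε
  obtain ⟨V, hV, hx⟩ := vec_fun L hL hL5 ε hε.le hK _ rfl
  have hN0 : 0 < ∏ l ∈ L, l := Finset.prod_pos fun l hl => (hL l hl).pos
  refine ⟨∏ l ∈ L, l, 28 + ∏ l ∈ L, l, V, hN0, hV, ?_⟩
  intro E _ c q w hj0 hj1 hc hq hn hmem p _ hp hI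
  have hlt : ∀ ℓ ∈ L, ℓ < p := by
    intro ℓ hℓ
    have h1 := Nat.le_of_dvd hN0 (Finset.dvd_prod_of_mem (fun l => l) hℓ)
    have h2 : ℓ ≤ ∏ l ∈ L, l := h1
    omega
  have hcop : Nat.Coprime E.j.den (∏ l ∈ L, l) := by
    apply Nat.Coprime.prod_right
    intro ℓ hℓ
    rw [Nat.coprime_comm, (hL ℓ hℓ).coprime_iff_not_dvd]
    intro hd
    have h4 := (pole_big E hj0 hj1 p (by omega) hI ℓ (hL ℓ hℓ) hd).1
    have := hlt ℓ hℓ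
    omega
  refine hx E c q w hj0 hj1 hcop hc hq hn hmem p (by omega) ?_ hI
  intro ℓ hℓ
  have h1 := hlt ℓ hℓ
  have h2 := hL5 ℓ hℓ
  nlinarith

/-- the explicit theorem -/
theorem classes_explicit :
    ∃ (N : ℕ) (V : (k : ℕ) → ℤ → ZMod N → Finset ((Fin k → ZMod N) × ZMod N))
      (R : ZMod N → Finset (ZMod N)),
      N = ∏ l ∈ (Finset.range 420).filter (fun l => l.Prime ∧ 5 ≤ l), l ∧
      (∀ (k : ℕ) (c : ℤ) (y : ZMod N), c ∣ 6 →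
        (1 - 3 ^ k / 10 ^ 16) * (N : ℝ) ^ (k + 1) ≤ (V k c y).card) ∧
      (∀ y : ZMod N, (1 - 1 / 10 ^ 16) * (N : ℝ) ≤ (R y).card) ∧
      ∀ (E : WeierstrassCurve ℚ) [E.IsElliptic], E.j ≠ 0 → E.j ≠ 1728 →
        (∀ l < 420, l.Prime → ¬ l ^ 41 ∣ E.j.den) →
        ∀ (p : ℕ) [Fact p.Prime], 37 < p → InNonsplitNormaliser E p →
        (∀ (k : ℕ) (c : ℤ) (q : Fin k → ℕ) (w : ℤ), c ∣ 6 → (∀ t, (q t).Prime) →
          (E.j - 1728).num = c * (∏ t, (q t : ℤ)) * w ^ 2 →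
          ((fun t => (q t : ZMod N)), (w : ZMod N)) ∉ V k c E.j.den) ∧
        ((E.j.num : ZMod N) ∈ R E.j.den →
          p % 12 = 11 ∧ ∃ q q' : ℕ, q.Prime ∧ q'.Prime ∧ 5 ≤ q ∧ 5 ≤ q' ∧ q ≠ q' ∧
            0 < padicValRat q (E.j - 1728) ∧ Odd (padicValRat q (E.j - 1728)) ∧
            0 < padicValRat q' (E.j - 1728) ∧ Odd (padicValRat q' (E.j - 1728)) ∧
            (q' % 4 = 3 ∨ p ^ 2 ≤ 4 * q')) := by
  have hb := MM_bound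
  have hvb := MM_vbound
  have e := MM_eq
  have h1 : ∀ ℓ ∈ MM.toFinset, ℓ.Prime := by
    intro ℓ hℓ
    rw [← MM_eq] at hℓ
    exact (Finset.mem_filter.1 hℓ).2.1
  have h2 : ∀ ℓ ∈ MM.toFinset, 5 ≤ ℓ ∧ ℓ < 420 := by
    intro ℓ hℓ
    rw [← MM_eq] at hℓ
    exact ⟨(Finset.mem_filter.1 hℓ).2.2, Finset.mem_range.1 (Finset.mem_filter.1 hℓ).1⟩
  generalize (Finset.range 420).filter (fun l => l.Prime ∧ 5 ≤ l) = L at e ⊢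
  rw [← e] at hb hvb h1 h2
  clear e
  have h5 : ∀ ℓ ∈ L, 5 ≤ ℓ := fun ℓ hℓ => (h2 ℓ hℓ).1
  have hbR : ((∑ i, ∏ ℓ ∈ L, (ℓ - gg i ℓ) : ℕ) : ℝ) ≤
      (1 / 10 ^ 16) * ((∏ ℓ ∈ L, ℓ : ℕ) : ℝ) := by
    have h : ((10 ^ 16 * ∑ i, ∏ ℓ ∈ L, (ℓ - gg i ℓ) : ℕ) : ℝ) ≤ ((∏ ℓ ∈ L, ℓ : ℕ) : ℝ) := by
      exact_mod_cast hb
    rw [Nat.cast_mul] at h
    norm_num at h ⊢
    linarith
  have hbV : ∀ k : ℕ, k < 34 →
      ((∑ i : Fin 4 × Finset (Fin k), ∏ ℓ ∈ L, (ℓ ^ (k + 1) - vg k i.1 i.2 ℓ) : ℕ) : ℝ) ≤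
      (3 ^ k / 10 ^ 16) * ((∏ ℓ ∈ L, ℓ : ℕ) : ℝ) ^ (k + 1) := by
    intro k hk34
    have h := hvb k hk34
    rw [← vsum, Finset.prod_pow] at h
    have h' : ((10 ^ 16 * ∑ i : Fin 4 × Finset (Fin k),
        ∏ ℓ ∈ L, (ℓ ^ (k + 1) - vg k i.1 i.2 ℓ) : ℕ) : ℝ) ≤
        ((3 ^ k * (∏ ℓ ∈ L, ℓ) ^ (k + 1) : ℕ) : ℝ) := by
      exact_mod_cast h
    rw [Nat.cast_mul, Nat.cast_mul, Nat.cast_pow, Nat.cast_pow, Nat.cast_pow] at h'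
    rw [div_mul_eq_mul_div, le_div_iff₀ (by positivity), mul_comm]
    exact_mod_cast h'
  obtain ⟨R, hR, hxR⟩ := classes_fun L h1 h5 _ (by positivity) hbR _ rfl
  have hV : ∀ k : ℕ, ∃ V : ℤ → ZMod (∏ l ∈ L, l) →
      Finset ((Fin k → ZMod (∏ l ∈ L, l)) × ZMod (∏ l ∈ L, l)),
      (∀ (c : ℤ) (y : ZMod (∏ l ∈ L, l)), c ∣ 6 →
        (1 - 3 ^ k / 10 ^ 16) * ((∏ l ∈ L, l : ℕ) : ℝ) ^ (k + 1) ≤ (V c y).card) ∧
      ∀ (E : WeierstrassCurve ℚ) [E.IsElliptic] (c : ℤ) (q : Fin k → ℕ) (w : ℤ),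
        E.j ≠ 0 → E.j ≠ 1728 → Nat.Coprime E.j.den (∏ l ∈ L, l) → c ∣ 6 → (∀ t, (q t).Prime) →
        (E.j - 1728).num = c * (∏ t, (q t : ℤ)) * w ^ 2 →
        ((fun t => (q t : ZMod (∏ l ∈ L, l))), (w : ZMod (∏ l ∈ L, l))) ∈ V c E.j.den →
        ∀ (p : ℕ) [Fact p.Prime], 29 ≤ p → (∀ ℓ ∈ L, 4 * ℓ < p ^ 2) →
          ¬ InNonsplitNormaliser E p := by
    intro k
    by_cases hk34 : k < 34
    · exact vec_fun L h1 h5 _ (by positivity) (hbV k hk34) _ rfl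
    · refine ⟨fun _ _ => ∅, fun c y _ => ?_, fun E _ c q w _ _ _ _ _ _ hmem => ?_⟩
      · rw [Finset.card_empty, Nat.cast_zero]
        apply mul_nonpos_of_nonpos_of_nonneg
        · have h3 : (3 : ℝ) ^ 34 ≤ 3 ^ k := pow_le_pow_right₀ (by norm_num) (by omega)
          have h4 : (1 : ℝ) ≤ 3 ^ k / 10 ^ 16 := by
            rw [le_div_iff₀ (by positivity)]
            refine le_trans ?_ h3
            norm_num
          linarith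
        · positivity
      · simp at hmem
  choose V hVc hVx using hV
  have h41 : ∀ p : ℕ, p.Prime → 37 < p → 41 ≤ p := by
    intro p hpp hp
    by_contra hcon
    push Not at hcon
    have h38 : p = 38 ∨ p = 39 ∨ p = 40 := by omega
    rcases h38 with rfl | rfl | rfl <;> revert hpp <;> decide
  have hLp : ∀ p : ℕ, p.Prime → 37 < p → ∀ ℓ ∈ L, 4 * ℓ < p ^ 2 := by
    intro p hpp hp ℓ hℓ
    have h3 := (h2 ℓ hℓ).2
    have h4 := h41 p hpp hp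
    nlinarith
  refine ⟨∏ l ∈ L, l, V, R, rfl, hVc, hR, ?_⟩
  intro E _ hj0 hj1 hden p _ hp hI
  have hpp : p.Prime := Fact.out
  have hcop : Nat.Coprime E.j.den (∏ l ∈ L, l) := by
    apply Nat.Coprime.prod_right
    intro ℓ hℓ
    rw [Nat.coprime_comm, (h1 ℓ hℓ).coprime_iff_not_dvd]
    intro hd
    have h4 := (pole_big E hj0 hj1 p (by omega) hI ℓ (h1 ℓ hℓ) hd).2
    exact hden ℓ (h2 ℓ hℓ).2 (h1 ℓ hℓ) ((pow_dvd_pow ℓ (h41 p hpp hp)).trans h4)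
  refine ⟨?_, fun hmem => hxR E hj0 hj1 hcop hmem p (by omega) (hLp p hpp hp) hI⟩
  intro k c q w hc hq hn hmem
  exact hVx k E c q w hj0 hj1 hcop hc hq hn hmem p (by omega) (hLp p hpp hp) hI

end Pool.Agent.H80.SU
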