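import Pool.Agent.H80.SU.EYa

/-!
# Counting vectors of units modulo `N` that avoid given classes modulo all primes of a finite set
-/

set_option autoImplicit false

namespace Pool.Agent.H80.SU

open scoped Classical

theorem totient_prod_primes (L : Finset ℕ) (hL : ∀ ℓ ∈ L, ℓ.Prime) :
    (∏ ℓ ∈ L, ℓ).totient = ∏ ℓ ∈ L, (ℓ - 1) := by
  induction L using Finset.induction_on with
  | empty => simp
  | insert a s ha ih =>
    have h1 : ∀ ℓ ∈ s, ℓ.Prime := fun ℓ hℓ => hL ℓ (Finset.mem_insert_of_mem hℓ)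
    have hap : a.Prime := hL a (Finset.mem_insert_self _ _)
    have hcop : Nat.Coprime a (∏ ℓ ∈ s, ℓ) := by
      apply Nat.Coprime.prod_right
      intro ℓ hℓ
      rw [Nat.coprime_primes hap (h1 ℓ hℓ)]
      rintro rfl
      exact ha hℓ
    rw [Finset.prod_insert ha, Finset.prod_insert ha, Nat.totient_mul hcop, ih h1,
      Nat.totient_prime hap]

/-- the reduction modulo `ℓ` of a vector of units modulo `N` -/
def ured {k N : ℕ} (ℓ : ℕ) (x : Fin k → (ZMod N)ˣ) : Fin k → ZMod ℓ :=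
  fun t => ((x t : (ZMod N)ˣ) : ZMod N).cast

theorem ucard_avoid_all {k : ℕ} (hk : 0 < k) (L : Finset ℕ) (hL : ∀ ℓ ∈ L, ℓ.Prime)
    (G : (ℓ : ℕ) → Set (Fin k → ZMod ℓ)) (g : ℕ → ℕ)
    (hG : ∀ ℓ ∈ L, (ℓ - 1) ^ (k - 1) * g ℓ ≤ ({v | v ∈ G ℓ ∧ ∀ t, v t ≠ 0} : Set _).ncard) :
    ({x : Fin k → (ZMod (∏ ℓ ∈ L, ℓ))ˣ | ∀ ℓ ∈ L, ured ℓ x ∉ G ℓ} : Set _).ncard ≤
        (∏ ℓ ∈ L, ℓ).totient ^ (k - 1) * ∏ ℓ ∈ L, (ℓ - 1 - g ℓ) := by
  have hL0 : ∀ ℓ ∈ L, ℓ ≠ 0 := fun ℓ h => (hL ℓ h).ne_zero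
  have htot := totient_prod_primes L hL
  obtain ⟨N, hN⟩ : ∃ N, N = ∏ ℓ ∈ L, ℓ := ⟨_, rfl⟩
  rw [← hN] at htot ⊢
  have hN0 : N ≠ 0 := by
    rw [hN]
    exact Finset.prod_ne_zero_iff.2 hL0
  have : NeZero N := ⟨hN0⟩
  have : ∀ i : L, NeZero (i : ℕ) := fun i => ⟨hL0 i i.2⟩
  have hd : ∀ ℓ ∈ L, ℓ ∣ N := by
    intro ℓ hℓ
    rw [hN]
    exact Finset.dvd_prod_of_mem (fun ℓ => ℓ) hℓ
  have hinj : ∀ x y : ZMod N, (∀ ℓ ∈ L, (x.cast : ZMod ℓ) = y.cast) → x = y := by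
    intro x y hxy
    have h1 : ∀ ℓ ∈ L, ℓ ∣ (x - y).val := by
      intro ℓ hℓ
      have h3 : ((x - y).cast : ZMod ℓ) = 0 := by
        have e := map_sub (ZMod.castHom (hd ℓ hℓ) (ZMod ℓ)) x y
        rw [ZMod.castHom_apply, ZMod.castHom_apply, ZMod.castHom_apply] at e
        rw [e, hxy ℓ hℓ, sub_self]
      rw [← ZMod.natCast_val] at h3
      exact (ZMod.natCast_eq_zero_iff _ _).1 h3
    have h2 : N ∣ (x - y).val := by
      have h3 := Finset.prod_primes_dvd _ (fun ℓ hℓ => (hL ℓ hℓ).prime) h1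
      rwa [← hN] at h3
    have h3 : (x - y).val = 0 := Nat.eq_zero_of_dvd_of_lt h2 (ZMod.val_lt _)
    exact sub_eq_zero.1 ((ZMod.val_eq_zero _).1 h3)
  let φ : (Fin k → (ZMod N)ˣ) → ((i : L) → Fin k → ZMod (i : ℕ)) := fun x i => ured i x
  have hφ : Function.Injective φ := by
    intro x y hxy
    have h1 : ∀ ℓ ∈ L, ured ℓ x = ured ℓ y := fun ℓ hℓ => congrFun hxy ⟨ℓ, hℓ⟩
    exact funext fun t => Units.ext (hinj _ _ fun ℓ hℓ => congrFun (h1 ℓ hℓ) t)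
  let T : (i : L) → Finset (Fin k → ZMod (i : ℕ)) :=
    fun i => Finset.univ.filter (fun x => (∀ t, x t ≠ 0) ∧ x ∉ G i)
  have h1 : ({x : Fin k → (ZMod N)ˣ | ∀ ℓ ∈ L, ured ℓ x ∉ G ℓ} : Set _).ncard ≤
      (Fintype.piFinset T).card := by
    rw [← Set.ncard_coe_finset]
    refine Set.ncard_le_ncard_of_injOn φ ?_ hφ.injOn (Finset.finite_toSet _)
    intro x hx
    rw [Finset.mem_coe, Fintype.mem_piFinset]
    intro i
    refine Finset.mem_filter.2 ⟨Finset.mem_univ _, fun t => ?_, hx i i.2⟩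
    have hF : Fact (i : ℕ).Prime := ⟨hL i i.2⟩
    have h2 : IsUnit ((ZMod.castHom (hd i i.2) (ZMod (i : ℕ))) ((x t : (ZMod N)ˣ) : ZMod N)) :=
      (x t).isUnit.map _
    rw [ZMod.castHom_apply] at h2
    exact h2.ne_zero
  have h2 : ∀ i : L, (T i).card ≤ ((i : ℕ) - 1) ^ (k - 1) * ((i : ℕ) - 1 - g i) := by
    intro i
    have h3 := hG i i.2
    have hF : Fact (i : ℕ).Prime := ⟨hL i i.2⟩
    have h5 : ({v | v ∈ G i ∧ ∀ t, v t ≠ 0} : Set (Fin k → ZMod (i : ℕ))).ncard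
        = (Finset.univ.filter (fun x : Fin k → ZMod (i : ℕ) =>
          (∀ t, x t ≠ 0) ∧ x ∈ G i)).card := by
      rw [← Set.ncard_coe_finset]
      congr 1
      ext x
      simp only [Finset.coe_filter, Finset.mem_univ, true_and]
      exact and_comm
    have h6 : (Finset.univ.filter (fun x : Fin k → ZMod (i : ℕ) =>
          (∀ t, x t ≠ 0))).card = ((i : ℕ) - 1) ^ k := by
      have e : (Finset.univ.filter (fun x : Fin k → ZMod (i : ℕ) => (∀ t, x t ≠ 0))) =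
          (Fintype.piFinset (fun _ : Fin k => (Finset.univ.erase (0 : ZMod (i : ℕ))))) := by
        ext x
        simp [Fintype.mem_piFinset]
      rw [e, Fintype.card_piFinset, Finset.prod_const, Finset.card_univ, Fintype.card_fin,
        Finset.card_erase_of_mem (Finset.mem_univ _), Finset.card_univ, ZMod.card]
    have h7 : (Finset.univ.filter (fun x : Fin k → ZMod (i : ℕ) =>
          (∀ t, x t ≠ 0) ∧ x ∈ G i)).card + (T i).card = ((i : ℕ) - 1) ^ k := by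
      rw [← h6, ← Finset.card_filter_add_card_filter_not (s := Finset.univ.filter
        (fun x : Fin k → ZMod (i : ℕ) => (∀ t, x t ≠ 0)))
        (p := fun x => x ∈ G i), Finset.filter_filter, Finset.filter_filter]
    have h9 : ((i : ℕ) - 1) ^ k = ((i : ℕ) - 1) ^ (k - 1) * ((i : ℕ) - 1) := by
      rw [← pow_succ]
      congr 1
      omega
    rw [← h5, h9] at h7
    have h8 : (T i).card ≤ ((i : ℕ) - 1) ^ (k - 1) * ((i : ℕ) - 1) -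
        ((i : ℕ) - 1) ^ (k - 1) * g i := by omega
    rwa [← Nat.mul_sub] at h8
  calc ({x : Fin k → (ZMod N)ˣ | ∀ ℓ ∈ L, ured ℓ x ∉ G ℓ} : Set _).ncard
      ≤ (Fintype.piFinset T).card := h1
    _ = ∏ i : L, (T i).card := Fintype.card_piFinset _
    _ ≤ ∏ i : L, (((i : ℕ) - 1) ^ (k - 1) * ((i : ℕ) - 1 - g i)) :=
        Finset.prod_le_prod' fun i _ => h2 i
    _ = ∏ ℓ ∈ L, ((ℓ - 1) ^ (k - 1) * (ℓ - 1 - g ℓ)) :=
        Finset.prod_coe_sort L (fun ℓ => (ℓ - 1) ^ (k - 1) * (ℓ - 1 - g ℓ))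
    _ = N.totient ^ (k - 1) * ∏ ℓ ∈ L, (ℓ - 1 - g ℓ) := by
        rw [Finset.prod_mul_distrib, Finset.prod_pow, htot]

/-- the same for several families of classes -/
theorem ucard_meet {k : ℕ} (hk : 0 < k) {ι : Type} [Fintype ι] (L : Finset ℕ)
    (hL : ∀ ℓ ∈ L, ℓ.Prime)
    (G : ι → (ℓ : ℕ) → Set (Fin k → ZMod ℓ)) (g : ι → ℕ → ℕ)
    (hG : ∀ i, ∀ ℓ ∈ L, (ℓ - 1) ^ (k - 1) * g i ℓ ≤
      ({v | v ∈ G i ℓ ∧ ∀ t, v t ≠ 0} : Set _).ncard) (ε : ℝ)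
    (hK : ((∑ i, ∏ ℓ ∈ L, (ℓ - 1 - g i ℓ) : ℕ) : ℝ) ≤ ε * ((∏ ℓ ∈ L, (ℓ - 1) : ℕ) : ℝ)) :
    ∃ R : Finset (Fin k → (ZMod (∏ ℓ ∈ L, ℓ))ˣ),
      (1 - ε) * ((∏ ℓ ∈ L, ℓ).totient : ℝ) ^ k ≤ R.card ∧
      ∀ x, x ∈ R → ∀ i, ∃ ℓ ∈ L, ured ℓ x ∈ G i ℓ := by
  have hNpos : 0 < ∏ ℓ ∈ L, ℓ := Finset.prod_pos fun ℓ hℓ => (hL ℓ hℓ).pos
  have : NeZero (∏ ℓ ∈ L, ℓ) := ⟨hNpos.ne'⟩
  refine ⟨Finset.univ.filter (fun x => ∀ i, ∃ ℓ ∈ L, ured ℓ x ∈ G i ℓ), ?_, ?_⟩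
  · set R : Finset (Fin k → (ZMod (∏ ℓ ∈ L, ℓ))ˣ) :=
      Finset.univ.filter (fun x => ∀ i, ∃ ℓ ∈ L, ured ℓ x ∈ G i ℓ) with hR
    set B : ι → Finset (Fin k → (ZMod (∏ ℓ ∈ L, ℓ))ˣ) := fun i =>
      Finset.univ.filter (fun x => ∀ ℓ ∈ L, ured ℓ x ∉ G i ℓ) with hB
    have hcov : (Finset.univ : Finset (Fin k → (ZMod (∏ ℓ ∈ L, ℓ))ˣ)) ⊆
        R ∪ Finset.univ.biUnion B := by
      intro x _
      by_cases hx : x ∈ R
      · exact Finset.mem_union_left _ hx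
      · refine Finset.mem_union_right _ ?_
        rw [hR, Finset.mem_filter] at hx
        push Not at hx
        obtain ⟨i, hi⟩ := hx (Finset.mem_univ _)
        exact Finset.mem_biUnion.2 ⟨i, Finset.mem_univ _,
          Finset.mem_filter.2 ⟨Finset.mem_univ _, hi⟩⟩
    have hcard : (∏ ℓ ∈ L, ℓ).totient ^ k ≤ R.card + ∑ i, (B i).card := by
      have h1 := Finset.card_le_card hcov
      rw [Finset.card_univ, Fintype.card_fun, ZMod.card_units_eq_totient,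
        Fintype.card_fin] at h1
      exact h1.trans ((Finset.card_union_le _ _).trans
        (Nat.add_le_add_left Finset.card_biUnion_le _))
    have hBi : ∀ i, (B i).card ≤ (∏ ℓ ∈ L, ℓ).totient ^ (k - 1) * ∏ ℓ ∈ L, (ℓ - 1 - g i ℓ) := by
      intro i
      have h1 := ucard_avoid_all hk L hL (G i) (g i) (hG i)
      have h2 : ({x : Fin k → (ZMod (∏ ℓ ∈ L, ℓ))ˣ |
          ∀ ℓ ∈ L, ured ℓ x ∉ G i ℓ} : Set _) = (B i : Set _) := by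
        ext x
        simp [hB]
      rw [h2, Set.ncard_coe_finset] at h1
      exact h1
    have hsum : ∑ i, (B i).card ≤
        (∏ ℓ ∈ L, ℓ).totient ^ (k - 1) * ∑ i, ∏ ℓ ∈ L, (ℓ - 1 - g i ℓ) := by
      rw [Finset.mul_sum]
      exact Finset.sum_le_sum fun i _ => hBi i
    have h1 : ((∏ ℓ ∈ L, ℓ).totient : ℝ) ^ k ≤ (R.card : ℝ) +
        ((∏ ℓ ∈ L, ℓ).totient : ℝ) ^ (k - 1) *
          ((∑ i, ∏ ℓ ∈ L, (ℓ - 1 - g i ℓ) : ℕ) : ℝ) := by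
      exact_mod_cast hcard.trans (Nat.add_le_add_left hsum _)
    have h2 : (0 : ℝ) ≤ ((∏ ℓ ∈ L, ℓ).totient : ℝ) ^ (k - 1) := by positivity
    have h3 := mul_le_mul_of_nonneg_left hK h2
    rw [← totient_prod_primes L hL] at h3
    have h4 : ((∏ ℓ ∈ L, ℓ).totient : ℝ) ^ k =
        ((∏ ℓ ∈ L, ℓ).totient : ℝ) ^ (k - 1) * ((∏ ℓ ∈ L, ℓ).totient : ℝ) := by
      rw [← pow_succ]
      congr 1
      omega
    have e : (1 - ε) * ((∏ ℓ ∈ L, ℓ).totient : ℝ) ^ k =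
        ((∏ ℓ ∈ L, ℓ).totient : ℝ) ^ k -
          ((∏ ℓ ∈ L, ℓ).totient : ℝ) ^ (k - 1) * (ε * ((∏ ℓ ∈ L, ℓ).totient : ℝ)) := by
      rw [h4]
      ring
    rw [e]
    linarith
  · intro x hx i
    exact (Finset.mem_filter.1 hx).2 i

end Pool.Agent.H80.SU
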