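import Pool.Agent.H80.SU.FYa
import Pool.Agent.H80.SU.EYc

/-!
# Counting the good vectors of units modulo a prime
-/

set_option autoImplicit false

namespace Pool.Agent.H80.SU

open WeierstrassCurve Pool.Agent.H27.SU
open scoped Classical NumberTheorySymbols

theorem card_ord_ne (ℓ : ℕ) [Fact ℓ.Prime] (hℓ : 5 ≤ ℓ) :
    ocnt ℓ ≤ (Finset.univ.filter (fun J : ZMod ℓ => OrdZ ℓ J ∧ J ≠ 1728)).card := by
  have h1 := card_not_ord12 ℓ hℓ
  have h2 : ℓ ≤ (Finset.univ.filter (fun J : ZMod ℓ => OrdZ ℓ J ∧ J ≠ 1728)).card +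
      ((Finset.univ.filter (fun J : ZMod ℓ => ¬ OrdZ ℓ J ∧ J ≠ 0 ∧ J ≠ 1728)).card + 2) := by
    have h3 : (Finset.univ : Finset (ZMod ℓ)) ⊆
        (Finset.univ.filter (fun J : ZMod ℓ => OrdZ ℓ J ∧ J ≠ 1728)) ∪
        ((Finset.univ.filter (fun J : ZMod ℓ => ¬ OrdZ ℓ J ∧ J ≠ 0 ∧ J ≠ 1728)) ∪ {0, 1728}) := by
      intro J _
      by_cases h0 : J ∈ ({0, 1728} : Finset (ZMod ℓ))
      · exact Finset.mem_union_right _ (Finset.mem_union_right _ h0)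
      · simp only [Finset.mem_insert, Finset.mem_singleton, not_or] at h0
        by_cases h : OrdZ ℓ J
        · exact Finset.mem_union_left _ (Finset.mem_filter.2 ⟨Finset.mem_univ _, h, h0.2⟩)
        · apply Finset.mem_union_right
          apply Finset.mem_union_left
          exact Finset.mem_filter.2 ⟨Finset.mem_univ _, h, h0.1, h0.2⟩
    have h4 := Finset.card_le_card h3
    rw [Finset.card_univ, ZMod.card] at h4
    exact h4.trans ((Finset.card_union_le _ _).trans (Nat.add_le_add_left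
      ((Finset.card_union_le _ _).trans (Nat.add_le_add_left Finset.card_le_two _)) _))
  unfold ocnt
  omega

theorem zcard_fiber {k ℓ : ℕ} [Fact ℓ.Prime] (t₀ : Fin k)
    (G : Set (Fin k → ZMod ℓ)) (g : ℕ)
    (h : ∀ (f : {t // t ≠ t₀} → ZMod ℓ), (∀ t, f t ≠ 0) →
      g ≤ (Finset.univ.filter (fun z : ZMod ℓ =>
        (Equiv.funSplitAt t₀ (ZMod ℓ)).symm (z, f) ∈ G)).card) :
    (ℓ - 1) ^ (k - 1) * g ≤ G.ncard := by
  let D : Finset ({t // t ≠ t₀} → ZMod ℓ) :=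
    (Fintype.piFinset (fun _ : {t // t ≠ t₀} => (Finset.univ.erase (0 : ZMod ℓ))))
  have hD : D.card = (ℓ - 1) ^ (k - 1) := by
    show Finset.card (Fintype.piFinset (fun _ : {t // t ≠ t₀} =>
      (Finset.univ.erase (0 : ZMod ℓ)))) = _
    have h1 : (Finset.univ.erase (0 : ZMod ℓ)).card = ℓ - 1 := by
      rw [Finset.card_erase_of_mem (Finset.mem_univ _), Finset.card_univ, ZMod.card]
    have h2 : Fintype.card {t // t ≠ t₀} = k - 1 := by
      rw [Fintype.card_subtype_compl, Fintype.card_fin]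
      simp
    rw [Fintype.card_piFinset, Finset.prod_const, h1, Finset.card_univ, h2]
  let S := D.sigma (fun d => Finset.univ.filter (fun z : ZMod ℓ =>
        (Equiv.funSplitAt t₀ (ZMod ℓ)).symm (z, d) ∈ G))
  have hS : (ℓ - 1) ^ (k - 1) * g ≤ S.card := by
    show _ ≤ (D.sigma _).card
    rw [Finset.card_sigma, ← hD, ← smul_eq_mul, ← Finset.sum_const]
    apply Finset.sum_le_sum
    intro f hd
    have h1 := Fintype.mem_piFinset.1 hd
    exact h f (fun t => (Finset.mem_erase.1 (h1 t)).1)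
  have hG : G.ncard = (Finset.univ.filter (fun x => x ∈ G)).card := by
    rw [← Set.ncard_coe_finset]
    congr 1
    ext x
    simp
  rw [hG]
  refine hS.trans ?_
  apply Finset.card_le_card_of_injOn
    (fun s => (Equiv.funSplitAt t₀ (ZMod ℓ)).symm (s.2, s.1))
  · rintro ⟨f, z⟩ hs
    have h1 := (Finset.mem_filter.1 (Finset.mem_sigma.1 (Finset.mem_coe.1 hs)).2).2
    exact Finset.mem_coe.2 (Finset.mem_filter.2 ⟨Finset.mem_univ _, h1⟩)
  · rintro ⟨f, z⟩ _ ⟨f', z'⟩ _ h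
    have h1 := (Equiv.funSplitAt t₀ (ZMod ℓ)).symm.injective h
    have h3 : z = z' := congrArg Prod.fst h1
    have h4 : f = f' := congrArg Prod.snd h1
    subst h3 h4
    rfl

/-- the constant `-(2 ^ a * 3 ^ b) * ∏ r` -/
def cst (s : Fin 4) (D : Finset ℕ) : ℤ :=
  -(2 ^ (s.val % 2) * 3 ^ (s.val / 2)) * ∏ r ∈ D, (r : ℤ)

/-- the good vectors: `j` is ordinary and the symbol is `-1` -/
def UG {k : ℕ} (c : ℤ) (y : ℕ) (s : Fin 4) (D : Finset ℕ) (S : Finset (Fin k)) (ℓ : ℕ) :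
    Set (Fin k → ZMod ℓ) :=
  {v | ∃ _ : Fact ℓ.Prime,
    OrdZ ℓ ((1728 * (y : ZMod ℓ) + (c : ZMod ℓ) * (∏ t, v t)) / (y : ZMod ℓ)) ∧
    quadraticChar (ZMod ℓ) (((cst s D : ℤ) : ZMod ℓ) * ∏ t ∈ S, v t) = -1}

/-- lower bounds for the number of good vectors divided by `(ℓ - 1) ^ (k - 1)` -/
def ug (c : ℤ) {k : ℕ} (s : Fin 4) (D : Finset ℕ) (S : Finset (Fin k)) (ℓ : ℕ) : ℕ :=
  if (ℓ : ℤ) ∣ c then 0
  else if S = ∅ then (if J(cst s D | ℓ) = -1 then ocnt ℓ else 0)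
  else gcnt ℓ

theorem cst_ne {ℓ : ℕ} [Fact ℓ.Prime] (h5 : 5 ≤ ℓ) (s : Fin 4) (D : Finset ℕ)
    (hD : ∀ r ∈ D, r.Prime ∧ r ≠ ℓ) : ((cst s D : ℤ) : ZMod ℓ) ≠ 0 := by
  unfold cst
  rw [Int.cast_mul]
  refine mul_ne_zero (unit23 h5 s) ?_
  rw [Int.cast_prod, Finset.prod_ne_zero_iff]
  intro r hr
  obtain ⟨h1, h2⟩ := hD r hr
  rw [Int.cast_natCast, Ne, ZMod.natCast_eq_zero_iff]
  intro h3
  exact h2 ((Nat.prime_dvd_prime_iff_eq (Fact.out : ℓ.Prime) h1).1 h3).symm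

theorem ug_le {k ℓ : ℕ} (hk : 0 < k) [Fact ℓ.Prime] (h5 : 5 ≤ ℓ) (c : ℤ) (y : ℕ)
    (hy : ((y : ℕ) : ZMod ℓ) ≠ 0) (s : Fin 4) (D : Finset ℕ)
    (hD : ∀ r ∈ D, r.Prime ∧ (r : ℤ) ∣ c) (S : Finset (Fin k)) :
    (ℓ - 1) ^ (k - 1) * ug c s D S ℓ ≤
      ({v | v ∈ UG c y s D S ℓ ∧ ∀ t, v t ≠ 0} : Set _).ncard := by
  by_cases hcℓ : (ℓ : ℤ) ∣ c
  · unfold ug
    rw [if_pos hcℓ, mul_zero]
    exact Nat.zero_le _
  have hc : ((c : ℤ) : ZMod ℓ) ≠ 0 := by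
    rw [Ne, ZMod.intCast_zmod_eq_zero_iff_dvd]
    exact hcℓ
  have hD' : ∀ r ∈ D, r.Prime ∧ r ≠ ℓ := by
    intro r hr
    obtain ⟨h1, h2⟩ := hD r hr
    refine ⟨h1, ?_⟩
    rintro rfl
    exact hcℓ h2
  have hcst := cst_ne h5 s D hD'
  -- the substitution `J ↦ z`
  have key : ∀ (t₀ : Fin k) (f : {t // t ≠ t₀} → ZMod ℓ), (∀ t, f t ≠ 0) →
      ∃ Z : ZMod ℓ → ZMod ℓ, Function.Injective Z ∧ ∃ C : ZMod ℓ, C ≠ 0 ∧
        ∀ J, Z J = C * (J - 1728) ∧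
          (1728 * (y : ZMod ℓ) + (c : ZMod ℓ) *
            (∏ t, (Equiv.funSplitAt t₀ (ZMod ℓ)).symm (Z J, f) t)) / (y : ZMod ℓ) = J := by
    intro t₀ f hf
    have hu : ∏ t, f t ≠ 0 := Finset.prod_ne_zero_iff.2 fun t _ => hf t
    have hC : (y : ZMod ℓ) / ((c : ZMod ℓ) * (∏ t, f t)) ≠ 0 :=
      div_ne_zero hy (mul_ne_zero hc hu)
    refine ⟨fun J => (y : ZMod ℓ) / ((c : ZMod ℓ) * (∏ t, f t)) * (J - 1728), ?_,
      _, hC, fun J => ⟨rfl, ?_⟩⟩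
    · intro J J' h
      have := mul_left_cancel₀ hC h
      exact sub_left_injective this
    · rw [split_prod]
      field_simp
      ring
  have hnz : ∀ (t₀ : Fin k) (f : {t // t ≠ t₀} → ZMod ℓ) (z : ZMod ℓ), (∀ t, f t ≠ 0) → z ≠ 0 →
      ∀ t, (Equiv.funSplitAt t₀ (ZMod ℓ)).symm (z, f) t ≠ 0 := by
    intro t₀ f z hf hz t
    by_cases ht : t = t₀
    · subst ht
      simpa [Equiv.funSplitAt, Equiv.piSplitAt] using hz
    · have h2 : (Equiv.funSplitAt t₀ (ZMod ℓ)).symm (z, f) t = f ⟨t, ht⟩ := by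
        simp [Equiv.funSplitAt, Equiv.piSplitAt, ht]
      rw [h2]
      exact hf _
  unfold ug
  rw [if_neg hcℓ]
  obtain ⟨G', hG'⟩ : ∃ G' : Set (Fin k → ZMod ℓ),
      G' = {v | v ∈ UG c y s D S ℓ ∧ ∀ t, v t ≠ 0} := ⟨_, rfl⟩
  rw [← hG']
  have hmem : ∀ v, v ∈ G' ↔ v ∈ UG c y s D S ℓ ∧ ∀ t, v t ≠ 0 := by
    intro v
    rw [hG']
    rfl
  by_cases hS : S = ∅
  · rw [if_pos hS]
    by_cases hs : J(cst s D | ℓ) = -1
    · rw [if_pos hs]
      have hχ : quadraticChar (ZMod ℓ) (((cst s D : ℤ) : ZMod ℓ)) = -1 := by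
        have h2 := jacobiSym.legendreSym.to_jacobiSym ℓ (cst s D)
        rw [hs] at h2
        exact h2
      apply zcard_fiber ⟨0, hk⟩
      intro f hf
      obtain ⟨Z, hZ, C, hC, hJ⟩ := key ⟨0, hk⟩ f hf
      have h1 := card_ord_ne ℓ h5
      refine h1.trans (Finset.card_le_card_of_injOn Z ?_ hZ.injOn)
      intro J hJo
      rw [Finset.mem_coe, Finset.mem_filter] at hJo ⊢
      rw [hmem]
      refine ⟨Finset.mem_univ _, ⟨inferInstance, ?_, ?_⟩, hnz _ f _ hf ?_⟩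
      · rw [(hJ J).2]
        exact hJo.2.1
      · rw [hS, Finset.prod_empty, mul_one]
        exact hχ
      · rw [(hJ J).1]
        exact mul_ne_zero hC (sub_ne_zero.2 hJo.2.2)
    · rw [if_neg hs, mul_zero]
      exact Nat.zero_le _
  · rw [if_neg hS]
    obtain ⟨t₀, ht₀⟩ := Finset.nonempty_iff_ne_empty.2 hS
    apply zcard_fiber t₀
    intro f hf
    obtain ⟨Z, hZ, C, hC, hJ⟩ := key t₀ f hf
    obtain ⟨s', hs', hprod⟩ := split_prod_sub t₀ f hf S ht₀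
    have h1 := card_good5 ℓ h5 (((cst s D : ℤ) : ZMod ℓ) * (C * s'))
      (mul_ne_zero hcst (mul_ne_zero hC hs'))
    refine h1.trans (Finset.card_le_card_of_injOn Z ?_ hZ.injOn)
    intro J hJo
    rw [Finset.mem_coe, Finset.mem_filter] at hJo ⊢
    rw [hmem]
    refine ⟨Finset.mem_univ _, ⟨inferInstance, ?_, ?_⟩, hnz _ f _ hf ?_⟩
    · rw [(hJ J).2]
      exact hJo.2.1
    · rw [← hJo.2.2]
      congr 1
      rw [hprod, (hJ J).1]
      ring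
    · rw [(hJ J).1]
      refine mul_ne_zero hC ?_
      intro h0
      have h2 := hJo.2.2
      rw [h0, mul_zero, MulChar.map_zero] at h2
      exact absurd h2 (by decide)

end Pool.Agent.H80.SU
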