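import Pool.Agent.H80.SU.FYb
import Pool.Agent.H82.HW.QuadField7

/-!
# Vectors of units `(q₁, …, q_k)` with `j - 1728 = c q₁ ⋯ q_k / b`, `c` fixed
-/

set_option autoImplicit false

namespace Pool.Agent.H80.SU

open WeierstrassCurve Pool.Agent.H27.SU
open scoped Classical NumberTheorySymbols

theorem odd_val_mem' {k : ℕ} {r : ℕ} (hr : r.Prime) {c : ℤ}
    (q : Fin k → ℕ) (hq : ∀ t, (q t).Prime) (n : ℤ) (hn : n ≠ 0)
    (h : n = c * (∏ t, (q t : ℤ))) (hodd : Odd (padicValInt r n)) :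
    (∃ t, q t = r) ∨ Odd (padicValInt r c) := by
  by_contra hcon
  rw [not_or] at hcon
  obtain ⟨hcon, hc2⟩ := hcon
  push Not at hcon
  have hF : Fact r.Prime := ⟨hr⟩
  have hc0 : c ≠ 0 := by
    rintro rfl
    rw [h] at hn
    simp at hn
  have hP0 : (∏ t, (q t : ℤ)) ≠ 0 := by
    intro h0
    rw [h, h0] at hn
    simp at hn
  have hrP : ¬ (r : ℤ) ∣ ∏ t, (q t : ℤ) := by
    intro h1
    obtain ⟨t, -, ht⟩ := (Nat.prime_iff_prime_int.1 hr).exists_mem_finset_dvd h1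
    exact hcon t ((Nat.prime_dvd_prime_iff_eq hr (hq t)).1 (Int.natCast_dvd_natCast.1 ht)).symm
  rw [h, padicValInt.mul hc0 hP0, padicValInt.eq_zero_of_not_dvd hrP, add_zero] at hodd
  exact hc2 hodd

theorem uvec_aux {k : ℕ} (hk : 0 < k) (L : Finset ℕ) (hL : ∀ ℓ ∈ L, ℓ.Prime)
    (hL5 : ∀ ℓ ∈ L, 5 ≤ ℓ) (ε : ℝ) (c : ℤ) (P : Finset ℕ)
    (hP : ∀ r ∈ P, r.Prime ∧ (r : ℤ) ∣ c)
    (hK : ((∑ i : Fin 4 × {D // D ∈ P.powerset} × Finset (Fin k),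
      ∏ ℓ ∈ L, (ℓ - 1 - ug c i.1 i.2.1.1 i.2.2 ℓ) : ℕ) : ℝ) ≤
        ε * ((∏ ℓ ∈ L, (ℓ - 1) : ℕ) : ℝ)) (y : ℕ)
    (hy : Nat.Coprime y (∏ l ∈ L, l)) :
    ∃ R : Finset (Fin k → (ZMod (∏ ℓ ∈ L, ℓ))ˣ),
      (1 - ε) * ((∏ ℓ ∈ L, ℓ).totient : ℝ) ^ k ≤ R.card ∧
      ∀ (E : WeierstrassCurve ℚ) [E.IsElliptic] (q : Fin k → ℕ)
        (v : Fin k → (ZMod (∏ ℓ ∈ L, ℓ))ˣ), E.j ≠ 0 → E.j ≠ 1728 →
        (E.j.den : ZMod (∏ ℓ ∈ L, ℓ)) = y → (∀ t, (q t).Prime) →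
        (E.j - 1728).num = c * (∏ t, (q t : ℤ)) → v ∈ R →
        (∀ t, ((v t : (ZMod (∏ ℓ ∈ L, ℓ))ˣ) : ZMod (∏ ℓ ∈ L, ℓ)) = q t) →
        ∀ (p : ℕ) [Fact p.Prime], 29 ≤ p → (∀ ℓ ∈ L, 4 * ℓ < p ^ 2) →
          (∀ r : ℕ, r.Prime → 5 ≤ r → Odd (padicValInt r c) → r ∉ P →
            r % 4 = 1 ∧ 4 * r < p ^ 2) →
          ¬ InNonsplitNormaliser E p := by
  have hyL : ∀ ℓ ∈ L, ((y : ℕ) : ZMod ℓ) ≠ 0 := by
    intro ℓ hℓ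
    rw [Ne, ZMod.natCast_eq_zero_iff]
    intro h
    have h1 : ℓ ∣ Nat.gcd y (∏ l ∈ L, l) :=
      Nat.dvd_gcd h (Finset.dvd_prod_of_mem (fun l => l) hℓ)
    rw [hy] at h1
    exact (hL ℓ hℓ).one_lt.ne' (Nat.dvd_one.1 h1)
  obtain ⟨R, hR, hx⟩ := ucard_meet (k := k) hk
    (ι := Fin 4 × {D // D ∈ P.powerset} × Finset (Fin k)) L hL
    (fun i ℓ => UG c y i.1 i.2.1.1 i.2.2 ℓ) (fun i ℓ => ug c i.1 i.2.1.1 i.2.2 ℓ) (by
      intro i ℓ hℓ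
      have hF : Fact ℓ.Prime := ⟨hL ℓ hℓ⟩
      exact ug_le hk (hL5 ℓ hℓ) c y (hyL ℓ hℓ) i.1 i.2.1.1
        (fun r hr => hP r (Finset.mem_powerset.1 i.2.1.2 hr)) i.2.2) ε hK
  refine ⟨R, hR, ?_⟩
  intro E _ q v hj0 hj1 hby hq hn hmem hv1 p _ hp hpL hpc hI
  obtain ⟨-, -, -, -, -, m, hm, hm0, -, -, ha, -, ho, -⟩ :=
    Pool.Agent.H82.HW.quad_field7 E hj0 hj1 p hp hI
  have hyz : E.j - 1728 ≠ 0 := sub_ne_zero.2 hj1
  have hD0 : (E.j - 1728).num ≠ 0 := Rat.num_ne_zero.2 hyz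
  obtain ⟨s, hs⟩ := neg_sqfree_split hm hm0
  set F : Finset ℕ := m.natAbs.primeFactors.filter (fun r => 5 ≤ r) with hF
  have hFm : ∀ r ∈ F, r.Prime ∧ 5 ≤ r ∧ (r : ℤ) ∣ m := by
    intro r hr
    obtain ⟨hr1, h5⟩ := Finset.mem_filter.1 hr
    exact ⟨Nat.prime_of_mem_primeFactors hr1, h5,
      Int.natCast_dvd.2 (Nat.dvd_of_mem_primeFactors hr1)⟩
  have hex : ∀ r ∈ F.filter (fun r => r ∉ P), ∃ t, q t = r := by
    intro r hr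
    obtain ⟨hr1, hrP⟩ := Finset.mem_filter.1 hr
    obtain ⟨hrp, h5, hrm⟩ := hFm r hr1
    obtain ⟨h6, h7, h7'⟩ := ha r hrp h5 hrm
    have h8 := ((val_num hyz hrp).1 ((val_num hyz hrp).2 h6)).1
    rw [h8, Int.odd_coe_nat] at h7
    rcases odd_val_mem' hrp q hq _ hD0 hn h7 with h | h
    · exact h
    · exact absurd (hpc r hrp h5 h hrP) h7'
  choose τ hτ using hex
  obtain ⟨S, hprod⟩ : ∃ S : Finset (Fin k), ∏ t ∈ S, (q t : ℤ) =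
      ∏ r ∈ F.filter (fun r => r ∉ P), (r : ℤ) := by
    refine ⟨(F.filter (fun r => r ∉ P)).attach.image (fun r => τ r.1 r.2), ?_⟩
    rw [Finset.prod_image]
    · rw [← Finset.prod_attach (F.filter (fun r => r ∉ P)) (fun r => (r : ℤ))]
      exact Finset.prod_congr rfl fun r _ => by rw [hτ r.1 r.2]
    · intro r _ r' _ h
      have h1 := congrArg q h
      rw [hτ r.1 r.2, hτ r'.1 r'.2] at h1
      exact Subtype.ext h1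
  have hDP : F.filter (fun r => r ∈ P) ∈ P.powerset := by
    rw [Finset.mem_powerset]
    intro r hr
    exact (Finset.mem_filter.1 hr).2
  obtain ⟨ℓ, hℓ, hFℓ, hO, hQ⟩ := hx _ hmem (s, ⟨_, hDP⟩, S)
  have hdvd : ℓ ∣ ∏ ℓ ∈ L, ℓ := Finset.dvd_prod_of_mem (fun l => l) hℓ
  have hbℓ : ((E.j.den : ℕ) : ZMod ℓ) = (y : ZMod ℓ) := by
    rw [ZMod.natCast_eq_natCast_iff] at hby ⊢
    exact hby.of_dvd hdvd
  have hv : 0 ≤ padicValRat ℓ E.j := by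
    refine padicVal_nonneg_of_den _ ?_
    rw [← ZMod.natCast_eq_zero_iff, hbℓ]
    exact hyL ℓ hℓ
  have hc1 : ∀ t, (ured ℓ v t : ZMod ℓ) = ((q t : ℕ) : ZMod ℓ) := by
    intro t
    show ZMod.cast ((v t : (ZMod (∏ ℓ ∈ L, ℓ))ˣ) : ZMod (∏ ℓ ∈ L, ℓ)) = _
    rw [hv1 t]
    exact ZMod.cast_natCast hdvd _
  refine ho ℓ (hL5 ℓ hℓ) (hpL ℓ hℓ) hv ?_ ?_
  · rw [ordinaryAt_iff, Rat.cast_def, hbℓ]
    rw [Finset.prod_congr rfl fun t _ => hc1 t] at hO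
    have e : (E.j.num : ZMod ℓ) = 1728 * (y : ZMod ℓ) + (c : ZMod ℓ) *
        (∏ t, ((q t : ℕ) : ZMod ℓ)) := by
      have h1 := congrArg (fun z : ℤ => (z : ZMod ℓ)) hn
      simp only [num_sub] at h1
      push_cast at h1
      rw [hbℓ] at h1
      linear_combination h1
    rw [e]
    exact hO
  · rw [legendreSym, ← hQ]
    congr 1
    rw [Finset.prod_congr rfl fun t _ => hc1 t]
    have e2 : m = cst s (F.filter (fun r => r ∈ P)) * ∏ t ∈ S, (q t : ℤ) := by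
      unfold cst
      rw [hprod, mul_assoc, Finset.prod_filter_mul_prod_filter_not]
      exact hs
    conv_lhs => rw [e2]
    push_cast
    rfl

end Pool.Agent.H80.SU
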