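import Pool.Agent.H80.SU.FYd

/-!
# Correctness of the enumeration
-/

set_option autoImplicit false

namespace Pool.Agent.H80.SU

open WeierstrassCurve Pool.Agent.H27.SU
open scoped NumberTheorySymbols

theorem pc8_table : ∀ y < 256, pc8 y = ∑ i ∈ Finset.range 8, if y.testBit i then 1 else 0 := by
  decide +kernel

theorem pc8_eq (x : ℕ) : pc8 x = ∑ i ∈ Finset.range 8, if x.testBit i then 1 else 0 := by
  have h1 : Nat.land x 255 = x % 256 := by
    show x &&& 255 = x % 256
    rw [show 255 = 2 ^ 8 - 1 by norm_num, Nat.and_two_pow_sub_one_eq_mod]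
  have h2 : pc8 x = pc8 (x % 256) := by
    unfold pc8
    have h3 : Nat.land (x % 256) 255 = x % 256 := by
      show (x % 256) &&& 255 = x % 256
      rw [show 255 = 2 ^ 8 - 1 by norm_num, Nat.and_two_pow_sub_one_eq_mod]
      norm_num
    rw [h1, h3]
  rw [h2, pc8_table _ (Nat.mod_lt _ (by norm_num))]
  refine Finset.sum_congr rfl fun i hi => ?_
  have h4 : (x % 256).testBit i = x.testBit i := by
    rw [show 256 = 2 ^ 8 by norm_num, Nat.testBit_mod_two_pow]
    simp [Finset.mem_range.1 hi]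
  rw [h4]

theorem pcf_eq (x : ℕ) : pcf x = ((Finset.range 80).filter (fun j => x.testBit j = true)).card := by
  rw [Finset.card_filter]
  have hs : ∀ c : ℕ, pc8 (Nat.shiftRight x c) =
      ∑ i ∈ Finset.range 8, if x.testBit (c + i) then 1 else 0 := by
    intro c
    rw [pc8_eq]
    refine Finset.sum_congr rfl fun i _ => ?_
    have : (Nat.shiftRight x c).testBit i = x.testBit (c + i) := Nat.testBit_shiftRight ..
    rw [this]
  unfold pcf
  rw [pc8_eq, hs, hs, hs, hs, hs, hs, hs, hs, hs]
  simp only [Finset.sum_range_succ, Finset.sum_range_zero]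
  ring

theorem leg_euler {q ℓ : ℕ} (hℓ : ℓ.Prime) (h3 : 3 ≤ ℓ) (hq : q.Prime) (hne : q ≠ ℓ) :
    J((q : ℤ) | ℓ) = if q ^ (ℓ / 2) % ℓ = ℓ - 1 then -1 else 1 := by
  have hF : Fact ℓ.Prime := ⟨hℓ⟩
  have hq0 : (((q : ℤ)) : ZMod ℓ) ≠ 0 := by
    rw [Int.cast_natCast, Ne, ZMod.natCast_eq_zero_iff]
    intro h
    exact hne ((Nat.prime_dvd_prime_iff_eq hℓ hq).1 h).symm
  rw [← jacobiSym.legendreSym.to_jacobiSym]
  have h1 := legendreSym.eq_pow ℓ (q : ℤ)
  have h2ne : (1 : ZMod ℓ) ≠ -1 := by
    intro h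
    have h4 : ((2 : ℕ) : ZMod ℓ) = 0 := by
      push_cast
      calc (2 : ZMod ℓ) = 1 + 1 := by norm_num
        _ = 1 + -1 := by rw [← h]
        _ = 0 := by ring
    rw [ZMod.natCast_eq_zero_iff] at h4
    have := Nat.le_of_dvd (by norm_num) h4
    omega
  have h5 : (q ^ (ℓ / 2) % ℓ = ℓ - 1) ↔ ((((q : ℤ)) : ZMod ℓ) ^ (ℓ / 2) = -1) := by
    rw [Int.cast_natCast, ← Nat.cast_pow]
    have e : (-1 : ZMod ℓ) = ((ℓ - 1 : ℕ) : ZMod ℓ) := by
      rw [Nat.cast_sub (by omega)]
      simp
    rw [e, ZMod.natCast_eq_natCast_iff]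
    unfold Nat.ModEq
    rw [Nat.mod_eq_of_lt (show ℓ - 1 < ℓ by omega)]
  by_cases hc : q ^ (ℓ / 2) % ℓ = ℓ - 1
  · rw [if_pos hc]
    rw [h5] at hc
    rw [hc] at h1
    rcases legendreSym.eq_one_or_neg_one ℓ hq0 with h | h
    · rw [h] at h1
      push_cast at h1
      exact absurd h1 h2ne
    · exact h
  · rw [if_neg hc]
    rw [h5] at hc
    rcases legendreSym.eq_one_or_neg_one ℓ hq0 with h | h
    · exact h
    · exfalso
      apply hc
      rw [← h1, h]
      simp

/-- the invariant of the enumeration -/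
def Inv (A : ℤ) (x z : ℕ) : Prop :=
  ∀ j < 80, (73 ≤ j → x.testBit j = false) ∧
    (j < 73 → z.testBit j = false → J(A | L2.getD j 0) = if x.testBit j = true then -1 else 1)

theorem L2_mem {j : ℕ} (hj : j < 73) : (L2.getD j 0).Prime ∧ 23 ≤ L2.getD j 0 ∧
    L2.getD j 0 ∈ MM.toFinset := by
  have hlen : L2.length = 73 := by decide
  have h1 : L2.getD j 0 ∈ L2 := by
    rw [List.getD_eq_getElem _ _ (by rw [hlen]; exact hj)]
    exact List.getElem_mem _
  rw [L2_primes, List.mem_filter] at h1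
  obtain ⟨h2, h3⟩ := h1
  rw [← L2_primes] at h2 h3
  have h4 : L2.getD j 0 ∈ MM.toFinset := List.mem_toFinset.2 h2
  refine ⟨?_, of_decide_eq_true h3, h4⟩
  rw [← MM_eq] at h4
  exact (Finset.mem_filter.1 h4).2.1

theorem Inv_zero : Inv 1 0 0 := by
  intro j _
  refine ⟨fun _ => Nat.zero_testBit j, fun _ _ => ?_⟩
  rw [Nat.zero_testBit, jacobiSym.one_left]
  simp

theorem Inv_step {A : ℤ} {x z : ℕ} (h : Inv A x z) {t : ℕ × ℕ × ℕ} (ht : t ∈ ms)
    (hp : t.1.Prime) : Inv (A * t.1) (Nat.xor x t.2.1) (Nat.lor z t.2.2) := by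
  intro j hj
  obtain ⟨h1, h2⟩ := h j hj
  obtain ⟨h3, h4⟩ := ms_table t ht
  have h3' := h3 j hj
  have h4' := h4 j hj
  have ex : (Nat.xor x t.2.1).testBit j = (x.testBit j ^^ t.2.1.testBit j) :=
    Nat.testBit_xor ..
  have ez : (Nat.lor z t.2.2).testBit j = (z.testBit j || t.2.2.testBit j) :=
    Nat.testBit_or ..
  constructor
  · intro h73
    rw [ex, h1 h73, h3']
    simp [Nat.not_lt.2 h73]
  · intro h73 hz
    rw [ez, Bool.or_eq_false_iff] at hz
    obtain ⟨hz1, hz2⟩ := hz
    obtain ⟨hℓ, h23, -⟩ := L2_mem h73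
    rw [h4', decide_eq_true h73, Bool.true_and, decide_eq_false_iff_not] at hz2
    have h5 := leg_euler hℓ (by omega) hp hz2
    rw [jacobiSym.mul_left, h2 h73 hz1, h5, ex, h3', decide_eq_true h73, Bool.true_and]
    by_cases hc : t.1 ^ (L2.getD j 0 / 2) % L2.getD j 0 = L2.getD j 0 - 1
    · rw [if_pos hc, decide_eq_true hc]
      cases x.testBit j <;> simp
    · rw [if_neg hc, decide_eq_false hc]
      cases x.testBit j <;> simp

theorem test_spec {A : ℤ} {x z i : ℕ} (h : Inv A x z) (ht : test i x z = true) (s : Fin 4) :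
    thr i ≤ (MM.toFinset.filter (fun l => 23 ≤ l ∧
      J(-(2 ^ (s.val % 2) * 3 ^ (s.val / 2)) * A | l) = -1)).card := by
  unfold test at ht
  rw [List.all_eq_true] at ht
  have hb : bs.getD s.val 0 ∈ bs := by
    have hlen : bs.length = 4 := by decide
    rw [List.getD_eq_getElem _ _ (by rw [hlen]; exact s.isLt)]
    exact List.getElem_mem _
  have h1 := ht _ hb
  unfold test1 at h1
  rw [Nat.ble_eq, pcf_eq] at h1
  refine h1.trans ?_
  apply Finset.card_le_card_of_injOn (fun j => L2.getD j 0)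
  · intro j hj
    rw [Finset.mem_coe, Finset.mem_filter, Finset.mem_range] at hj
    obtain ⟨hj80, hbit⟩ := hj
    have e1 : (Nat.xor (Nat.lor (Nat.xor (bs.getD s.val 0) x) z) z).testBit j =
        ((((bs.getD s.val 0).testBit j ^^ x.testBit j) || z.testBit j) ^^ z.testBit j) := by
      have ea : (Nat.xor (Nat.lor (Nat.xor (bs.getD s.val 0) x) z) z).testBit j =
        ((Nat.lor (Nat.xor (bs.getD s.val 0) x) z).testBit j ^^ z.testBit j) :=
          Nat.testBit_xor ..
      have eb : (Nat.lor (Nat.xor (bs.getD s.val 0) x) z).testBit j =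
        ((Nat.xor (bs.getD s.val 0) x).testBit j || z.testBit j) := Nat.testBit_or ..
      have ec : (Nat.xor (bs.getD s.val 0) x).testBit j =
        ((bs.getD s.val 0).testBit j ^^ x.testBit j) := Nat.testBit_xor ..
      rw [ea, eb, ec]
    rw [e1] at hbit
    have hbs := bs_table s.val s.isLt j hj80
    obtain ⟨h2, h3⟩ := h j hj80
    have hz : z.testBit j = false := by
      by_contra hcon
      rw [Bool.not_eq_false] at hcon
      rw [hcon] at hbit
      simp at hbit
    rw [hz, Bool.or_false, Bool.xor_false] at hbit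
    have h73 : j < 73 := by
      by_contra hcon
      rw [h2 (by omega), hbs] at hbit
      simp [hcon] at hbit
    obtain ⟨hℓ, h23, hM⟩ := L2_mem h73
    refine Finset.mem_coe.2 (Finset.mem_filter.2 ⟨hM, h23, ?_⟩)
    have hF : Fact (L2.getD j 0).Prime := ⟨hℓ⟩
    have h5 := sg_eq (a := s.val % 2) (b := s.val / 2) (ℓ := L2.getD j 0) (by omega)
    rw [jacobiSym.legendreSym.to_jacobiSym] at h5
    rw [jacobiSym.mul_left, h5, h3 h73 hz]
    rw [hbs, decide_eq_true h73, Bool.true_and] at hbit
    have hmem2 : L2.getD j 0 ∈ L2 := by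
      rw [List.getD_eq_getElem _ _ (by
        have hlen : L2.length = 73 := by decide
        rw [hlen]; exact h73)]
      exact List.getElem_mem _
    rcases sg_table s.val s.isLt _ hmem2 with hsg | hsg
    · rw [hsg] at hbit ⊢
      have hx : x.testBit j = false := by
        cases hxx : x.testBit j with
        | false => rfl
        | true => rw [hxx] at hbit; simp at hbit
      rw [hx]
      simp
    · rw [hsg] at hbit ⊢
      have hx : x.testBit j = true := by
        cases hxx : x.testBit j with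
        | true => rfl
        | false => rw [hxx] at hbit; simp at hbit
      rw [hx]
      simp
  · intro j hj j' hj' hjj
    have hnd : L2.Nodup := by decide
    have hlen : L2.length = 73 := by decide
    have hlt : ∀ j, j ∈ (((Finset.range 80).filter (fun j =>
        (Nat.xor (Nat.lor (Nat.xor (bs.getD s.val 0) x) z) z).testBit j = true) :
          Finset ℕ) : Set ℕ) → j < 73 := by
      intro j hj
      rw [Finset.mem_coe, Finset.mem_filter, Finset.mem_range] at hj
      obtain ⟨hj80, hbit⟩ := hj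
      by_contra hcon
      have ea : (Nat.xor (Nat.lor (Nat.xor (bs.getD s.val 0) x) z) z).testBit j =
        ((Nat.lor (Nat.xor (bs.getD s.val 0) x) z).testBit j ^^ z.testBit j) :=
          Nat.testBit_xor ..
      have eb : (Nat.lor (Nat.xor (bs.getD s.val 0) x) z).testBit j =
        ((Nat.xor (bs.getD s.val 0) x).testBit j || z.testBit j) := Nat.testBit_or ..
      have ec : (Nat.xor (bs.getD s.val 0) x).testBit j =
        ((bs.getD s.val 0).testBit j ^^ x.testBit j) := Nat.testBit_xor ..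
      rw [ea, eb, ec, (h j hj80).1 (by omega), bs_table s.val s.isLt j hj80] at hbit
      cases hz : z.testBit j <;> simp [hcon, hz] at hbit
    have h1' := hlt j hj
    have h2' := hlt j' hj'
    simp only at hjj
    rw [List.getD_eq_getElem _ _ (by rw [hlen]; exact h1'),
      List.getD_eq_getElem _ _ (by rw [hlen]; exact h2')] at hjj
    exact (List.Nodup.getElem_inj_iff hnd).1 hjj

end Pool.Agent.H80.SU
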