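import Pool.Agent.H80.SU.FYe

/-!
# Many inert primes for products of at most three primes `3` modulo `4`
-/

set_option autoImplicit false

namespace Pool.Agent.H80.SU

open WeierstrassCurve Pool.Agent.H27.SU
open scoped NumberTheorySymbols

theorem go_spec : ∀ (l : List (ℕ × ℕ × ℕ)) (n i x z : ℕ) (A : ℤ), Inv A x z →
    go n l i x z = true → (∀ h ∈ l, h ∈ ms ∧ h.1.Prime) →
    ∀ D : List (ℕ × ℕ × ℕ), D.Sublist l → D.length ≤ n → D ≠ [] → ∀ s : Fin 4,
      thr (i + D.length) ≤ (MM.toFinset.filter (fun l => 23 ≤ l ∧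
        J(-(2 ^ (s.val % 2) * 3 ^ (s.val / 2)) * (A * (D.map (fun h => (h.1 : ℤ))).prod) | l) =
          -1)).card := by
  intro l
  induction l with
  | nil =>
    intro n i x z A _ _ _ D hD _ hne
    exact absurd (List.sublist_nil.1 hD) hne
  | cons h t ih =>
    intro n i x z A hI hgo hl D hD hlen hne s
    cases n with
    | zero =>
      exact absurd (List.eq_nil_of_length_eq_zero (Nat.le_zero.1 hlen)) hne
    | succ n =>
      have hg : test (i + 1) (Nat.xor x h.2.1) (Nat.lor z h.2.2) = true ∧
          go n t (i + 1) (Nat.xor x h.2.1) (Nat.lor z h.2.2) = true ∧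
          go (n + 1) t i x z = true := by
        have h0 : (test (i + 1) (Nat.xor x h.2.1) (Nat.lor z h.2.2) &&
          go n t (i + 1) (Nat.xor x h.2.1) (Nat.lor z h.2.2) && go (n + 1) t i x z) = true := hgo
        rw [Bool.and_eq_true, Bool.and_eq_true] at h0
        exact ⟨h0.1.1, h0.1.2, h0.2⟩
      obtain ⟨hg1, hg2, hg3⟩ := hg
      obtain ⟨hms, hp⟩ := hl h (List.mem_cons_self ..)
      have hlt : ∀ h ∈ t, h ∈ ms ∧ h.1.Prime := fun h' hh' => hl h' (List.mem_cons_of_mem _ hh')
      have hI' := Inv_step hI hms hp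
      cases hD with
      | cons _ hD' => exact ih (n + 1) i x z A hI hg3 hlt D hD' hlen hne s
      | cons_cons _ hD' =>
        rename_i D'
        by_cases hD0 : D' = []
        · subst hD0
          have h1 := test_spec hI' hg1 s
          simpa using h1
        · have h1 := ih n (i + 1) _ _ (A * h.1) hI' hg2 hlt D' hD' (by simpa using hlen) hD0 s
          rw [List.length_cons, List.map_cons, List.prod_cons, ← mul_assoc A]
          rw [show i + (D'.length + 1) = i + 1 + D'.length by ring]
          exact h1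

theorem thr_small (D : Finset ℕ) (hD : ∀ q ∈ D, q ∈ MM.toFinset ∧ q % 4 = 3)
    (hc : D.card ≤ 3) (s : Fin 4) :
    thr D.card ≤ (MM.toFinset.filter (fun l => 23 ≤ l ∧ J(cst s D | l) = -1)).card := by
  have hgo := go_check
  rw [Bool.and_eq_true] at hgo
  by_cases hD0 : D = ∅
  · subst hD0
    have h1 := test_spec Inv_zero hgo.1 s
    rw [Finset.card_empty]
    unfold cst
    rw [Finset.prod_empty]
    exact h1
  have hmsp : ∀ h ∈ ms, h ∈ ms ∧ h.1.Prime := by
    intro h hh
    refine ⟨hh, ?_⟩
    have h1 : h.1 ∈ ms.map (fun h => h.1) := List.mem_map_of_mem hh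
    rw [ms_primes, List.mem_filter] at h1
    have h4 : h.1 ∈ MM.toFinset := List.mem_toFinset.2 h1.1
    rw [← MM_eq] at h4
    exact (Finset.mem_filter.1 h4).2.1
  have hnd : (ms.map (fun h => h.1)).Nodup := by
    rw [ms_primes]
    decide
  set D' : List (ℕ × ℕ × ℕ) := ms.filter (fun h => decide (h.1 ∈ D)) with hD'
  have hsub : D'.Sublist ms := List.filter_sublist
  have hmap : (D'.map (fun h => h.1)).toFinset = D := by
    ext q
    rw [List.mem_toFinset, List.mem_map]
    constructor
    · rintro ⟨h, hh, rfl⟩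
      rw [hD', List.mem_filter] at hh
      exact of_decide_eq_true hh.2
    · intro hq
      obtain ⟨h1, h2⟩ := hD q hq
      have h3 : q ∈ ms.map (fun h => h.1) := by
        rw [ms_primes, List.mem_filter]
        exact ⟨List.mem_toFinset.1 h1, decide_eq_true h2⟩
      obtain ⟨h, hh, rfl⟩ := List.mem_map.1 h3
      exact ⟨h, List.mem_filter.2 ⟨hh, decide_eq_true hq⟩, rfl⟩
  have hnd' : (D'.map (fun h => h.1)).Nodup := (hsub.map _).nodup hnd
  have hcard : D'.length = D.card := by
    rw [← hmap, List.toFinset_card_of_nodup hnd', List.length_map]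
  have hprod : (D'.map (fun h => (h.1 : ℤ))).prod = ∏ r ∈ D, (r : ℤ) := by
    rw [← hmap, List.prod_toFinset _ hnd', List.map_map]
    rfl
  have hne : D' ≠ [] := by
    intro h
    rw [h, List.length_nil] at hcard
    exact hD0 (Finset.card_eq_zero.1 hcard.symm)
  have h1 := go_spec ms 3 0 0 0 1 Inv_zero hgo.2 hmsp D' hsub (by omega) hne s
  rw [zero_add, hcard, one_mul, hprod] at h1
  exact h1

end Pool.Agent.H80.SU
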