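import Pool.Agent.H80.SU.FYf

/-!
# The numerical bound
-/

set_option autoImplicit false

namespace Pool.Agent.H80.SU

open WeierstrassCurve Pool.Agent.H27.SU
open scoped NumberTheorySymbols

theorem MM_gcnt : 897 * 10 ^ 15 * ∏ ℓ ∈ MM.toFinset, (ℓ - 1 - gcnt ℓ) ≤
    ∏ ℓ ∈ MM.toFinset, (ℓ - 1) := by
  decide +kernel

theorem MM_two : ∀ ℓ ∈ MM.toFinset, ℓ - 1 ≤ 2 * (ℓ - 1 - gcnt ℓ) := by
  decide +kernel

theorem MM_ocnt : ∀ ℓ ∈ MM.toFinset, 23 ≤ ℓ → 9 * (ℓ - 1 - ocnt ℓ) ≤ ℓ - 1 := by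
  decide +kernel

theorem MM_prime : ∀ ℓ ∈ MM.toFinset, ℓ.Prime ∧ 5 ≤ ℓ ∧ ℓ < 420 := by
  intro ℓ hℓ
  rw [← MM_eq] at hℓ
  exact ⟨(Finset.mem_filter.1 hℓ).2.1, (Finset.mem_filter.1 hℓ).2.2,
    Finset.mem_range.1 (Finset.mem_filter.1 hℓ).1⟩

/-- the primes from `5` to `419` dividing `c` -/
def PD (c : ℤ) : Finset ℕ := c.natAbs.primeFactors.filter (fun r => 5 ≤ r ∧ r < 420)

/-- the primes `3` modulo `4` from `5` on with odd exponent in `c` -/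
def PO (c : ℤ) : Finset ℕ :=
  c.natAbs.primeFactors.filter (fun r => 5 ≤ r ∧ r % 4 = 3 ∧ Odd (padicValInt r c))

theorem mem_PD {c : ℤ} (hc : c ≠ 0) {r : ℕ} :
    r ∈ PD c ↔ r.Prime ∧ (r : ℤ) ∣ c ∧ 5 ≤ r ∧ r < 420 := by
  unfold PD
  rw [Finset.mem_filter, Nat.mem_primeFactors, Int.natCast_dvd]
  have : c.natAbs ≠ 0 := Int.natAbs_ne_zero.2 hc
  tauto

theorem dvd_of_odd {c : ℤ} {r : ℕ} (h : Odd (padicValInt r c)) : (r : ℤ) ∣ c := by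
  by_contra h1
  rw [padicValInt.eq_zero_of_not_dvd h1] at h
  exact absurd h (by decide)

theorem mem_PO {c : ℤ} (hc : c ≠ 0) {r : ℕ} :
    r ∈ PO c ↔ r.Prime ∧ 5 ≤ r ∧ r % 4 = 3 ∧ Odd (padicValInt r c) := by
  unfold PO
  rw [Finset.mem_filter, Nat.mem_primeFactors]
  constructor
  · rintro ⟨h1, h2⟩
    exact ⟨h1.1, h2⟩
  · rintro ⟨h1, h2⟩
    exact ⟨⟨h1, Int.natCast_dvd.1 (dvd_of_odd h2.2.2), Int.natAbs_ne_zero.2 hc⟩, h2⟩

theorem PO_sub {c : ℤ} (hc : c ≠ 0) (hc420 : ∀ r ∈ PO c, r < 420) : PO c ⊆ PD c := by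
  intro r hr
  obtain ⟨h1, h2, -, h4⟩ := (mem_PO hc).1 hr
  exact (mem_PD hc).2 ⟨h1, dvd_of_odd h4, h2, hc420 r hr⟩

theorem prod_nonempty_S {k : ℕ} (c : ℤ) (hc : c ≠ 0) (s : Fin 4) (D : Finset ℕ)
    (S : Finset (Fin k)) (hS : S ≠ ∅) :
    ∏ ℓ ∈ MM.toFinset, (ℓ - 1 - ug c s D S ℓ) ≤
      2 ^ (PD c).card * ∏ ℓ ∈ MM.toFinset, (ℓ - 1 - gcnt ℓ) := by
  have h1 : ∏ ℓ ∈ MM.toFinset, (ℓ - 1 - ug c s D S ℓ) ≤
      ∏ ℓ ∈ MM.toFinset, ((if (ℓ : ℤ) ∣ c then 2 else 1) * (ℓ - 1 - gcnt ℓ)) := by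
    apply Finset.prod_le_prod'
    intro ℓ hℓ
    unfold ug
    by_cases hcℓ : (ℓ : ℤ) ∣ c
    · rw [if_pos hcℓ, if_pos hcℓ, Nat.sub_zero]
      exact MM_two ℓ hℓ
    · rw [if_neg hcℓ, if_neg hS, if_neg hcℓ, one_mul]
  refine h1.trans ?_
  rw [Finset.prod_mul_distrib, Finset.prod_ite, Finset.prod_const, Finset.prod_const_one, mul_one]
  refine Nat.mul_le_mul_right _ (Nat.pow_le_pow_right (by norm_num) (Finset.card_le_card ?_))
  intro ℓ hℓ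
  obtain ⟨h2, h3⟩ := Finset.mem_filter.1 hℓ
  obtain ⟨h4, h5, h6⟩ := MM_prime ℓ h2
  exact (mem_PD hc).2 ⟨h4, h3, h5, h6⟩

theorem prod_empty_S {k : ℕ} (c : ℤ) (hc : c ≠ 0)
    (hc420 : ∀ r ∈ PO c, r < 420) (s : Fin 4) (D : Finset ℕ) (hD : D ⊆ PO c)
    (hD3 : D.card ≤ 3) (S : Finset (Fin k)) (hS : S = ∅) :
    ((∏ ℓ ∈ MM.toFinset, (ℓ - 1 - ug c s D S ℓ) : ℕ) : ℝ) ≤
      9 ^ (PD c).card * (1 / 9) ^ (thr D.card + D.card) *
        ((∏ ℓ ∈ MM.toFinset, (ℓ - 1) : ℕ) : ℝ) := by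
  have hDM : ∀ q ∈ D, q ∈ MM.toFinset ∧ q % 4 = 3 := by
    intro q hq
    obtain ⟨h1, h2, h3, -⟩ := (mem_PO hc).1 (hD hq)
    refine ⟨?_, h3⟩
    rw [← MM_eq]
    exact Finset.mem_filter.2 ⟨Finset.mem_range.2 (hc420 q (hD hq)), h1, h2⟩
  have hthr := thr_small D hDM hD3 s
  set T : Finset ℕ := MM.toFinset.filter (fun l => 23 ≤ l ∧ J(cst s D | l) = -1) with hT
  have hcard : thr D.card + D.card ≤ (T.filter (fun l : ℕ => ¬ (l : ℤ) ∣ c)).card + (PD c).card := by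
    have h1 : (T.filter (fun l : ℕ => (l : ℤ) ∣ c)).card + (T.filter (fun l : ℕ => ¬ (l : ℤ) ∣ c)).card =
        T.card := Finset.card_filter_add_card_filter_not _
    have h2 : (T.filter (fun l : ℕ => (l : ℤ) ∣ c)).card + D.card ≤ (PD c).card := by
      rw [← Finset.card_union_of_disjoint]
      · apply Finset.card_le_card
        intro l hl
        rcases Finset.mem_union.1 hl with h | h
        · obtain ⟨h3, h4⟩ := Finset.mem_filter.1 h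
          obtain ⟨h5, -⟩ := Finset.mem_filter.1 h3
          obtain ⟨h6, h7, h8⟩ := MM_prime l h5
          exact (mem_PD hc).2 ⟨h6, h4, h7, h8⟩
        · exact PO_sub hc hc420 (hD h)
      · rw [Finset.disjoint_left]
        intro l hl hlD
        obtain ⟨h3, h4⟩ := Finset.mem_filter.1 hl
        obtain ⟨h5, -, h6⟩ := Finset.mem_filter.1 h3
        obtain ⟨h7, h8, -⟩ := MM_prime l h5
        have hF : Fact l.Prime := ⟨h7⟩
        have h9 : J(cst s D | l) = 0 := by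
          rw [← jacobiSym.legendreSym.to_jacobiSym, legendreSym.eq_zero_iff,
            ZMod.intCast_zmod_eq_zero_iff_dvd]
          unfold cst
          exact (Finset.dvd_prod_of_mem (fun r : ℕ => (r : ℤ)) hlD).mul_left _
        rw [h9] at h6
        norm_num at h6
    omega
  have h1 : ((∏ ℓ ∈ MM.toFinset, (ℓ - 1 - ug c s D S ℓ) : ℕ) : ℝ) ≤
      ∏ ℓ ∈ MM.toFinset, ((if ℓ ∈ T.filter (fun l : ℕ => ¬ (l : ℤ) ∣ c) then (1 / 9 : ℝ) else 1) *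
        ((ℓ - 1 : ℕ) : ℝ)) := by
    rw [Nat.cast_prod]
    apply Finset.prod_le_prod
    · intro ℓ _
      exact Nat.cast_nonneg _
    · intro ℓ hℓ
      by_cases hℓT : ℓ ∈ T.filter (fun l : ℕ => ¬ (l : ℤ) ∣ c)
      · rw [if_pos hℓT]
        obtain ⟨h2, h3⟩ := Finset.mem_filter.1 hℓT
        obtain ⟨-, h4, h5⟩ := Finset.mem_filter.1 h2
        have h6 : ug c s D S ℓ = ocnt ℓ := by
          unfold ug
          rw [if_neg h3, if_pos hS, if_pos h5]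
        rw [h6]
        have h7 : ((9 * (ℓ - 1 - ocnt ℓ) : ℕ) : ℝ) ≤ ((ℓ - 1 : ℕ) : ℝ) := by
          exact_mod_cast MM_ocnt ℓ hℓ h4
        rw [Nat.cast_mul, Nat.cast_ofNat] at h7
        linarith
      · rw [if_neg hℓT, one_mul]
        exact_mod_cast Nat.sub_le _ _
  refine h1.trans (le_of_eq_of_le ?_ (mul_le_mul_of_nonneg_right
    (show (1 / 9 : ℝ) ^ (T.filter (fun l : ℕ => ¬ (l : ℤ) ∣ c)).card ≤
      9 ^ (PD c).card * (1 / 9) ^ (thr D.card + D.card) from ?_) (Nat.cast_nonneg _)))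
  · rw [Finset.prod_mul_distrib, Finset.prod_ite, Finset.prod_const, Finset.prod_const_one,
      mul_one, Nat.cast_prod]
    congr 2
    congr 1
    ext ℓ
    rw [Finset.mem_filter]
    constructor
    · exact fun h => h.2
    · intro h
      exact ⟨(Finset.mem_filter.1 (Finset.mem_filter.1 h).1).1, h⟩
  · have h2 : (1 / 9 : ℝ) ^ ((T.filter (fun l : ℕ => ¬ (l : ℤ) ∣ c)).card + (PD c).card) ≤
        (1 / 9) ^ (thr D.card + D.card) :=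
      pow_le_pow_of_le_one (by norm_num) (by norm_num) hcard
    have h3 : (0 : ℝ) < 9 ^ (PD c).card := by positivity
    have h4 := mul_le_mul_of_nonneg_left h2 h3.le
    refine le_trans (le_of_eq ?_) h4
    rw [pow_add, mul_comm ((1 / 9 : ℝ) ^ (T.filter (fun l : ℕ => ¬ (l : ℤ) ∣ c)).card), ← mul_assoc,
      ← mul_pow]
    norm_num

theorem sum_thr (P : Finset ℕ) (hP : P.card ≤ 3) :
    ∑ D ∈ P.powerset, (1 / 9 : ℝ) ^ (thr D.card + D.card) ≤ 1 / 10 ^ 20 := by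
  rw [Finset.sum_powerset_apply_card (fun n => (1 / 9 : ℝ) ^ (thr n + n))]
  have h : P.card = 0 ∨ P.card = 1 ∨ P.card = 2 ∨ P.card = 3 := by omega
  rcases h with h | h | h | h <;> rw [h] <;>
    simp only [Finset.sum_range_succ, Finset.sum_range_zero, thr, Nat.choose] <;> norm_num

theorem usum_bound {k : ℕ} (c : ℤ) (hc : c ≠ 0)
    (hc420 : ∀ r ∈ PO c, r < 420) (hP3 : (PO c).card ≤ 3) :
    ((∑ i : Fin 4 × {D // D ∈ (PO c).powerset} × Finset (Fin k),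
      ∏ ℓ ∈ MM.toFinset, (ℓ - 1 - ug c i.1 i.2.1.1 i.2.2 ℓ) : ℕ) : ℝ) ≤
      (2 ^ k * 9 ^ (PD c).card / (2 * 10 ^ 17)) * ((∏ ℓ ∈ MM.toFinset, (ℓ - 1) : ℕ) : ℝ) := by
  obtain ⟨N, hN⟩ : ∃ N : ℝ, N = ((∏ ℓ ∈ MM.toFinset, (ℓ - 1) : ℕ) : ℝ) := ⟨_, rfl⟩
  obtain ⟨A₀, hA₀⟩ : ∃ A : ℝ, A = ((∏ ℓ ∈ MM.toFinset, (ℓ - 1 - gcnt ℓ) : ℕ) : ℝ) := ⟨_, rfl⟩
  have hNA : 897 * 10 ^ 15 * A₀ ≤ N := by
    rw [hN, hA₀]
    exact_mod_cast MM_gcnt
  have hN0 : 0 ≤ N := by rw [hN]; exact Nat.cast_nonneg _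
  have hA0 : 0 ≤ A₀ := by rw [hA₀]; exact Nat.cast_nonneg _
  set R := (PD c).card with hR
  have hterm : ∀ (s : Fin 4) (D : Finset ℕ), D ∈ (PO c).powerset →
      ∑ S : Finset (Fin k), ((∏ ℓ ∈ MM.toFinset, (ℓ - 1 - ug c s D S ℓ) : ℕ) : ℝ) ≤
        9 ^ R * (1 / 9) ^ (thr D.card + D.card) * N + (2 ^ k - 1) * (2 ^ R * A₀) := by
    intro s D hD
    have hD' := Finset.mem_powerset.1 hD
    rw [← Finset.add_sum_erase _ _ (Finset.mem_univ (∅ : Finset (Fin k)))]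
    apply add_le_add
    · rw [hN]
      exact prod_empty_S (k := k) c hc hc420 s D hD' ((Finset.card_le_card hD').trans hP3) ∅ rfl
    · have h1 : ∀ S ∈ Finset.univ.erase (∅ : Finset (Fin k)),
          ((∏ ℓ ∈ MM.toFinset, (ℓ - 1 - ug c s D S ℓ) : ℕ) : ℝ) ≤ 2 ^ R * A₀ := by
        intro S hS
        rw [hA₀]
        exact_mod_cast prod_nonempty_S c hc s D S (Finset.mem_erase.1 hS).1
      refine (Finset.sum_le_sum h1).trans (le_of_eq ?_)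
      rw [Finset.sum_const, Finset.card_erase_of_mem (Finset.mem_univ _), Finset.card_univ,
        Fintype.card_finset, Fintype.card_fin, nsmul_eq_mul, Nat.cast_sub Nat.one_le_two_pow]
      push_cast
      ring
  have hsum : ((∑ i : Fin 4 × {D // D ∈ (PO c).powerset} × Finset (Fin k),
      ∏ ℓ ∈ MM.toFinset, (ℓ - 1 - ug c i.1 i.2.1.1 i.2.2 ℓ) : ℕ) : ℝ) ≤
      4 * (9 ^ R * (1 / 10 ^ 20) * N + 2 ^ (PO c).card * ((2 ^ k - 1) * (2 ^ R * A₀))) := by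
    rw [Nat.cast_sum, Fintype.sum_prod_type]
    have h1 : ∀ s : Fin 4, ∑ x : {D // D ∈ (PO c).powerset} × Finset (Fin k),
        ((∏ ℓ ∈ MM.toFinset, (ℓ - 1 - ug c s x.1.1 x.2 ℓ) : ℕ) : ℝ) ≤
        9 ^ R * (1 / 10 ^ 20) * N + 2 ^ (PO c).card * ((2 ^ k - 1) * (2 ^ R * A₀)) := by
      intro s
      rw [Fintype.sum_prod_type]
      have h2 : ∑ D : {D // D ∈ (PO c).powerset}, ∑ S : Finset (Fin k),
          ((∏ ℓ ∈ MM.toFinset, (ℓ - 1 - ug c s D.1 S ℓ) : ℕ) : ℝ) =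
          ∑ D ∈ (PO c).powerset, ∑ S : Finset (Fin k),
          ((∏ ℓ ∈ MM.toFinset, (ℓ - 1 - ug c s D S ℓ) : ℕ) : ℝ) :=
        Finset.sum_coe_sort (PO c).powerset (fun D => ∑ S : Finset (Fin k),
          ((∏ ℓ ∈ MM.toFinset, (ℓ - 1 - ug c s D S ℓ) : ℕ) : ℝ))
      have h3 : ∑ D : {D // D ∈ (PO c).powerset}, ∑ S : Finset (Fin k),
          ((∏ ℓ ∈ MM.toFinset, (ℓ - 1 - ug c s D.1 S ℓ) : ℕ) : ℝ) ≤ _ :=
        h2.le.trans (Finset.sum_le_sum fun D hD => hterm s D hD)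
      refine h3.trans ?_
      rw [Finset.sum_add_distrib, Finset.sum_const, Finset.card_powerset, nsmul_eq_mul]
      push_cast
      apply add_le_add _ le_rfl
      rw [← Finset.sum_mul, ← Finset.mul_sum]
      apply mul_le_mul_of_nonneg_right _ hN0
      apply mul_le_mul_of_nonneg_left (sum_thr _ hP3)
      positivity
    refine (Finset.sum_le_sum fun s _ => h1 s).trans (le_of_eq ?_)
    rw [Finset.sum_const, Finset.card_univ, Fintype.card_fin, nsmul_eq_mul]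
    norm_num
  refine hsum.trans ?_
  rw [← hN]
  have hr : (2 : ℝ) ^ (PO c).card ≤ 2 ^ R :=
    pow_le_pow_right₀ (by norm_num) (Finset.card_le_card (PO_sub hc hc420))
  have h2k : (1 : ℝ) ≤ 2 ^ k := one_le_pow₀ (by norm_num)
  have h48 : (2 : ℝ) ^ R * 2 ^ R ≤ 9 ^ R := by
    rw [← mul_pow]
    exact pow_le_pow_left₀ (by norm_num) (by norm_num) _
  have h9p : (0 : ℝ) < 9 ^ R := by positivity
  have hA : A₀ ≤ N / (897 * 10 ^ 15) := by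
    rw [le_div_iff₀ (by positivity)]
    linarith
  have e2 : (2 : ℝ) ^ (PO c).card * ((2 ^ k - 1) * (2 ^ R * A₀)) ≤
      9 ^ R * ((2 ^ k - 1) * (N / (897 * 10 ^ 15))) := by
    have h3 : (2 : ℝ) ^ (PO c).card * 2 ^ R ≤ 9 ^ R :=
      (mul_le_mul_of_nonneg_right hr (by positivity)).trans h48
    have h4 : (0 : ℝ) ≤ (2 ^ k - 1) * A₀ := mul_nonneg (by linarith) hA0
    calc (2 : ℝ) ^ (PO c).card * ((2 ^ k - 1) * (2 ^ R * A₀))
        = (2 ^ (PO c).card * 2 ^ R) * ((2 ^ k - 1) * A₀) := by ring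
      _ ≤ 9 ^ R * ((2 ^ k - 1) * A₀) := mul_le_mul_of_nonneg_right h3 h4
      _ ≤ 9 ^ R * ((2 ^ k - 1) * (N / (897 * 10 ^ 15))) := by
          apply mul_le_mul_of_nonneg_left _ h9p.le
          exact mul_le_mul_of_nonneg_left hA (by linarith)
  have e3 : 4 * (9 ^ R * (1 / 10 ^ 20) * N + 9 ^ R * ((2 ^ k - 1) * (N / (897 * 10 ^ 15)))) ≤
      2 ^ k * 9 ^ R / (2 * 10 ^ 17) * N := by
    have h5 : (0 : ℝ) ≤ 9 ^ R * N := by positivity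
    have h6 : 4 * (1 / 10 ^ 20 + (2 ^ k - 1) / (897 * 10 ^ 15)) ≤ (2 : ℝ) ^ k / (2 * 10 ^ 17) := by
      have h7 : (2 : ℝ) ^ k / (2 * 10 ^ 17) - 4 * (1 / 10 ^ 20 + (2 ^ k - 1) / (897 * 10 ^ 15)) =
          (2 : ℝ) ^ k * (1 / (2 * 10 ^ 17) - 4 / (897 * 10 ^ 15)) +
            (4 / (897 * 10 ^ 15) - 4 / 10 ^ 20) := by ring
      have h8 : (0 : ℝ) ≤ 1 / (2 * 10 ^ 17) - 4 / (897 * 10 ^ 15) := by norm_num
      have h9 : (0 : ℝ) ≤ 4 / (897 * 10 ^ 15) - 4 / 10 ^ 20 := by norm_num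
      have h10 := mul_nonneg (show (0 : ℝ) ≤ 2 ^ k by positivity) h8
      linarith
    calc 4 * (9 ^ R * (1 / 10 ^ 20) * N + 9 ^ R * ((2 ^ k - 1) * (N / (897 * 10 ^ 15))))
        = (4 * (1 / 10 ^ 20 + (2 ^ k - 1) / (897 * 10 ^ 15))) * (9 ^ R * N) := by ring
      _ ≤ (2 ^ k / (2 * 10 ^ 17)) * (9 ^ R * N) := mul_le_mul_of_nonneg_right h6 h5
      _ = _ := by ring
  linarith

end Pool.Agent.H80.SU
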