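import Pool.Agent.H80.SU.FYg
import Pool.Agent.H80.SU.EYg

/-!
# Vectors of units: explicit and general theorem
-/

set_option autoImplicit false

namespace Pool.Agent.H80.SU

open WeierstrassCurve Pool.Agent.H27.SU
open scoped Classical NumberTheorySymbols

theorem uvec_fun {k : ℕ} (hk : 0 < k) (L : Finset ℕ) (hL : ∀ ℓ ∈ L, ℓ.Prime)
    (hL5 : ∀ ℓ ∈ L, 5 ≤ ℓ) (ε : ℝ) (hε : 0 ≤ ε) (c : ℤ) (P : Finset ℕ)
    (hP : ∀ r ∈ P, r.Prime ∧ (r : ℤ) ∣ c)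
    (hK : ((∑ i : Fin 4 × {D // D ∈ P.powerset} × Finset (Fin k),
      ∏ ℓ ∈ L, (ℓ - 1 - ug c i.1 i.2.1.1 i.2.2 ℓ) : ℕ) : ℝ) ≤
        ε * ((∏ ℓ ∈ L, (ℓ - 1) : ℕ) : ℝ)) (N : ℕ)
    (hN : N = ∏ l ∈ L, l) :
    ∃ V : ZMod N → Finset (Fin k → (ZMod N)ˣ),
      (∀ y : ZMod N, (1 - ε) * (N.totient : ℝ) ^ k ≤ (V y).card) ∧
      ∀ (E : WeierstrassCurve ℚ) [E.IsElliptic] (q : Fin k → ℕ), E.j ≠ 0 →
        E.j ≠ 1728 → Nat.Coprime E.j.den N → (∀ t, (q t).Prime) →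
        (E.j - 1728).num = c * ∏ t, (q t : ℤ) →
        ∀ v ∈ V E.j.den, (∀ t, ((v t : (ZMod N)ˣ) : ZMod N) = q t) →
        ∀ (p : ℕ) [Fact p.Prime], 29 ≤ p → (∀ ℓ ∈ L, 4 * ℓ < p ^ 2) →
          (∀ r : ℕ, r.Prime → 5 ≤ r → Odd (padicValInt r c) → r ∉ P →
            r % 4 = 1 ∧ 4 * r < p ^ 2) →
          ¬ InNonsplitNormaliser E p := by
  subst hN
  choose V hV hx using uvec_aux (k := k) hk L hL hL5 ε c P hP hK
  have hN0 : NeZero (∏ l ∈ L, l) := ⟨Finset.prod_ne_zero_iff.2 fun l hl => (hL l hl).ne_zero⟩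
  refine ⟨fun z => if hz : Nat.Coprime z.val (∏ l ∈ L, l) then V z.val hz
    else Finset.univ, ?_, ?_⟩
  · intro z
    by_cases hz : Nat.Coprime z.val (∏ l ∈ L, l)
    · simp only [dif_pos hz]
      exact hV _ _
    · simp only [dif_neg hz]
      rw [Finset.card_univ, Fintype.card_fun, ZMod.card_units_eq_totient, Fintype.card_fin]
      have : (0 : ℝ) ≤ ((∏ l ∈ L, l).totient : ℝ) ^ k := by positivity
      push_cast at this ⊢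
      nlinarith
  · intro E _ q hj0 hj1 hcop hq hn v hmem hv1 p _ hp hpL hpc
    have hz := coprime_val hcop
    simp only [dif_pos hz] at hmem
    exact hx _ hz E q v hj0 hj1 (ZMod.natCast_zmod_val _).symm hq hn hmem hv1 p hp hpL hpc

theorem jac_neg_one_mod {r ℓ : ℕ} (hr : r % 2 = 1) (hℓ : 4 * r ∣ ℓ + 1) : J((r : ℤ) | ℓ) = 1 := by
  have hℓ4 : ℓ % 4 = 3 := by
    have : 4 ∣ ℓ + 1 := (Dvd.intro _ rfl).trans hℓ
    omega
  have hro : Odd r := Nat.odd_iff.2 hr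
  have hℓo : Odd ℓ := Nat.odd_iff.2 (by omega)
  have h1 : ((ℓ : ℕ) : ℤ) % (r : ℤ) = (-1 : ℤ) % (r : ℤ) := by
    have h2 : r ∣ ℓ + 1 := (Dvd.intro_left _ rfl).trans hℓ
    have h3 : (r : ℤ) ∣ (ℓ : ℤ) - (-1) := by
      have h4 : (r : ℤ) ∣ ((ℓ + 1 : ℕ) : ℤ) := Int.natCast_dvd_natCast.2 h2
      push_cast at h4
      simpa using h4
    exact Int.emod_eq_emod_iff_emod_sub_eq_zero.2 (Int.emod_eq_zero_of_dvd h3)
  rw [jacobiSym.quadratic_reciprocity hro hℓo, jacobiSym.mod_left' h1, jacobiSym.at_neg_one hro,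
    ZMod.χ₄_eq_neg_one_pow hr, ← pow_add]
  have h5 : ∃ n, ℓ / 2 = 2 * n + 1 := ⟨ℓ / 4, by omega⟩
  obtain ⟨n, hn⟩ := h5
  rw [hn]
  apply Even.neg_one_pow
  exact ⟨r / 2 * (n + 1), by ring⟩

end Pool.Agent.H80.SU
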