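import Pool.Agent.H80.SU.FYh

/-!
# Vectors of units: the two theorems
-/

set_option autoImplicit false

namespace Pool.Agent.H80.SU

open WeierstrassCurve Pool.Agent.H27.SU
open scoped Classical NumberTheorySymbols

theorem cst_neg_one {c : ℤ} {ℓ : ℕ} [Fact ℓ.Prime] (h19 : 19 ≤ ℓ) (h : 24 * c.natAbs ∣ ℓ + 1)
    (s : Fin 4) (D : Finset ℕ) (hD : ∀ r ∈ D, r.Prime ∧ r ∣ c.natAbs ∧ 5 ≤ r) :
    J(cst s D | ℓ) = -1 := by
  have h24 : ℓ % 24 = 23 := by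
    have : 24 ∣ ℓ + 1 := (Dvd.intro _ rfl).trans h
    omega
  have h1 : J((∏ r ∈ D, (r : ℤ)) | ℓ) = 1 := by
    have : ∀ T : Finset ℕ, T ⊆ D → J((∏ r ∈ T, (r : ℤ)) | ℓ) = 1 := by
      intro T
      induction T using Finset.induction_on with
      | empty => intro _; simp
      | insert a T ha ih =>
        intro hT
        rw [Finset.prod_insert ha, jacobiSym.mul_left, ih fun x hx => hT (Finset.mem_insert_of_mem hx),
          mul_one]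
        obtain ⟨h2, h3, h4⟩ := hD a (hT (Finset.mem_insert_self _ _))
        apply jac_neg_one_mod
        · rcases h2.eq_two_or_odd with h5 | h5
          · omega
          · exact h5
        · refine Dvd.dvd.trans ?_ h
          obtain ⟨e, he⟩ := h3
          exact ⟨6 * e, by rw [he]; ring⟩
    exact this D (Finset.Subset.refl _)
  have h2 := sg_eq (a := s.val % 2) (b := s.val / 2) (ℓ := ℓ) (by omega)
  rw [jacobiSym.legendreSym.to_jacobiSym] at h2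
  unfold cst
  rw [jacobiSym.mul_left, h1, mul_one, h2]
  unfold sg
  rw [h24, show f4 23 = -1 by decide, show f8 23 = 1 by decide, show f12 23 = 1 by decide,
    one_pow, one_pow, mul_one, mul_one]

theorem prod_small1 {L : Finset ℕ} (g : ℕ → ℕ) (h : ∀ ℓ ∈ L, ℓ - 1 ≤ 8 * g ℓ) :
    ((∏ ℓ ∈ L, (ℓ - 1 - g ℓ) : ℕ) : ℝ) ≤
      (7 / 8) ^ L.card * ((∏ ℓ ∈ L, (ℓ - 1) : ℕ) : ℝ) := by
  rw [Nat.cast_prod, Nat.cast_prod, ← Finset.prod_const, ← Finset.prod_mul_distrib]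
  apply Finset.prod_le_prod
  · intro ℓ _
    exact Nat.cast_nonneg _
  · intro ℓ hℓ
    have h1 := h ℓ hℓ
    have h2 : 8 * (ℓ - 1 - g ℓ) ≤ 7 * (ℓ - 1) := by omega
    have h3 : (8 : ℝ) * ((ℓ - 1 - g ℓ : ℕ) : ℝ) ≤ 7 * ((ℓ - 1 : ℕ) : ℝ) := by exact_mod_cast h2
    linarith

/-- the primes `≥ 5` with odd exponent in `c` -/
def PA (c : ℤ) : Finset ℕ :=
  c.natAbs.primeFactors.filter (fun r => 5 ≤ r ∧ Odd (padicValInt r c))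

theorem mem_PA {c : ℤ} (hc : c ≠ 0) {r : ℕ} :
    r ∈ PA c ↔ r.Prime ∧ 5 ≤ r ∧ Odd (padicValInt r c) := by
  unfold PA
  rw [Finset.mem_filter, Nat.mem_primeFactors]
  constructor
  · rintro ⟨h1, h2⟩
    exact ⟨h1.1, h2⟩
  · rintro ⟨h1, h2⟩
    exact ⟨⟨h1, Int.natCast_dvd.1 (dvd_of_odd h2.2), Int.natAbs_ne_zero.2 hc⟩, h2⟩

theorem exists_uL (k : ℕ) (c : ℤ) (hc : c ≠ 0) (ε : ℝ) (hε : 0 < ε) : ∃ L : Finset ℕ,
    (∀ ℓ ∈ L, ℓ.Prime) ∧ (∀ ℓ ∈ L, 5 ≤ ℓ) ∧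
    ((∑ i : Fin 4 × {D // D ∈ (PA c).powerset} × Finset (Fin k),
      ∏ ℓ ∈ L, (ℓ - 1 - ug c i.1 i.2.1.1 i.2.2 ℓ) : ℕ) : ℝ) ≤
        ε * ((∏ ℓ ∈ L, (ℓ - 1) : ℕ) : ℝ) := by
  obtain ⟨n, hn⟩ : ∃ n : ℕ, (4 * (2 ^ (PA c).card * 2 ^ k) : ℝ) * (7 / 8) ^ n ≤ ε := by
    have hpos : (0 : ℝ) < 4 * (2 ^ (PA c).card * 2 ^ k) := by positivity
    obtain ⟨n, hn⟩ := exists_pow_lt_of_lt_one (div_pos hε hpos) (show (7 / 8 : ℝ) < 1 by norm_num)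
    refine ⟨n, ?_⟩
    rw [lt_div_iff₀ hpos] at hn
    linarith
  have hc0 : 0 < c.natAbs := Int.natAbs_pos.2 hc
  obtain ⟨L, hL, hcard⟩ :=
    (neg_one_infinite (24 * c.natAbs) (by omega)).exists_subset_card_eq n
  have hL' : ∀ ℓ ∈ L, ℓ.Prime ∧ 19 ≤ ℓ ∧ 24 * c.natAbs ∣ ℓ + 1 := fun ℓ hℓ => hL hℓ
  refine ⟨L, fun ℓ hℓ => (hL' ℓ hℓ).1, fun ℓ hℓ => by have := (hL' ℓ hℓ).2.1; omega, ?_⟩
  have hterm : ∀ i : Fin 4 × {D // D ∈ (PA c).powerset} × Finset (Fin k),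
      ((∏ ℓ ∈ L, (ℓ - 1 - ug c i.1 i.2.1.1 i.2.2 ℓ) : ℕ) : ℝ) ≤
        (7 / 8) ^ n * ((∏ ℓ ∈ L, (ℓ - 1) : ℕ) : ℝ) := by
    intro i
    rw [← hcard]
    apply prod_small1
    intro ℓ hℓ
    obtain ⟨h1, h2, h3⟩ := hL' ℓ hℓ
    have hF : Fact ℓ.Prime := ⟨h1⟩
    have h24 : ℓ % 24 = 23 := by
      have : 24 ∣ ℓ + 1 := (Dvd.intro _ rfl).trans h3
      omega
    have h6 := four_gcnt h2 (by omega)
    have h7 : ¬ (ℓ : ℤ) ∣ c := by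
      intro h
      have h8 : ℓ ∣ c.natAbs := Int.natCast_dvd.1 h
      have h9 : ℓ ∣ ℓ + 1 := (h8.trans (Dvd.intro_left _ rfl)).trans h3
      have h10 : ℓ ∣ 1 := (Nat.dvd_add_right (dvd_refl ℓ)).1 h9
      have := Nat.le_of_dvd one_pos h10
      omega
    have hJ := cst_neg_one h2 h3 i.1 i.2.1.1 (by
      intro r hr
      obtain ⟨h8, h9, h10⟩ := (mem_PA hc).1 (Finset.mem_powerset.1 i.2.1.2 hr)
      exact ⟨h8, Int.natCast_dvd.1 (dvd_of_odd h10), h9⟩)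
    unfold ug
    rw [if_neg h7]
    by_cases hS : i.2.2 = ∅
    · rw [if_pos hS, if_pos hJ]
      have := gcnt_le_ocnt (ℓ := ℓ) (by omega)
      omega
    · rw [if_neg hS]
      omega
  rw [Nat.cast_sum]
  calc ∑ i : Fin 4 × {D // D ∈ (PA c).powerset} × Finset (Fin k),
        ((∏ ℓ ∈ L, (ℓ - 1 - ug c i.1 i.2.1.1 i.2.2 ℓ) : ℕ) : ℝ)
      ≤ ∑ _i : Fin 4 × {D // D ∈ (PA c).powerset} × Finset (Fin k),
        (7 / 8) ^ n * ((∏ ℓ ∈ L, (ℓ - 1) : ℕ) : ℝ) := Finset.sum_le_sum fun i _ => hterm i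
    _ = ((4 * (2 ^ (PA c).card * 2 ^ k)) * (7 / 8) ^ n) * ((∏ ℓ ∈ L, (ℓ - 1) : ℕ) : ℝ) := by
        rw [Finset.sum_const, Finset.card_univ, Fintype.card_prod, Fintype.card_prod,
          Fintype.card_fin, Fintype.card_finset, Fintype.card_fin, Fintype.card_coe,
          Finset.card_powerset, nsmul_eq_mul]
        push_cast
        ring
    _ ≤ _ := mul_le_mul_of_nonneg_right hn (Nat.cast_nonneg _)

/-- the general theorem -/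
theorem units_general (k : ℕ) (hk : 0 < k) (c : ℤ) (hc : c ≠ 0) (ε : ℝ) (hε : 0 < ε) :
    ∃ (N C : ℕ) (V : ZMod N → Finset (Fin k → (ZMod N)ˣ)), 0 < N ∧
      (∀ y : ZMod N, (1 - ε) * (N.totient : ℝ) ^ k ≤ (V y).card) ∧
      ∀ (E : WeierstrassCurve ℚ) [E.IsElliptic] (q : Fin k → ℕ), E.j ≠ 0 →
        E.j ≠ 1728 → (∀ t, (q t).Prime) → (E.j - 1728).num = c * ∏ t, (q t : ℤ) →
        (∃ v ∈ V E.j.den, ∀ t, ((v t : (ZMod N)ˣ) : ZMod N) = q t) →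
        ∀ (p : ℕ) [Fact p.Prime], C < p → ¬ InNonsplitNormaliser E p := by
  obtain ⟨L, hL, hL5, hK⟩ := exists_uL k c hc ε hε
  obtain ⟨V, hV, hx⟩ := uvec_fun hk L hL hL5 ε hε.le c (PA c)
    (fun r hr => ⟨((mem_PA hc).1 hr).1, dvd_of_odd ((mem_PA hc).1 hr).2.2⟩) hK _ rfl
  have hN0 : 0 < ∏ l ∈ L, l := Finset.prod_pos fun l hl => (hL l hl).pos
  refine ⟨∏ l ∈ L, l, 28 + ∏ l ∈ L, l, V, hN0, hV, ?_⟩
  intro E _ q hj0 hj1 hq hn hmem p _ hp hI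
  obtain ⟨v, hv, hv1⟩ := hmem
  have hlt : ∀ ℓ ∈ L, ℓ < p := by
    intro ℓ hℓ
    have h1 := Nat.le_of_dvd hN0 (Finset.dvd_prod_of_mem (fun l => l) hℓ)
    have h2 : ℓ ≤ ∏ l ∈ L, l := h1
    omega
  have hcop : Nat.Coprime E.j.den (∏ l ∈ L, l) := by
    apply Nat.Coprime.prod_right
    intro ℓ hℓ
    rw [Nat.coprime_comm, (hL ℓ hℓ).coprime_iff_not_dvd]
    intro hd
    have h4 := (pole_big E hj0 hj1 p (by omega) hI ℓ (hL ℓ hℓ) hd).1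
    have := hlt ℓ hℓ
    omega
  refine hx E q hj0 hj1 hcop hq hn v hv hv1 p (by omega) ?_ ?_ hI
  · intro ℓ hℓ
    have h1 := hlt ℓ hℓ
    have h2 := hL5 ℓ hℓ
    nlinarith
  · intro r hr h5 hrc hrP
    exact absurd ((mem_PA hc).2 ⟨hr, h5, hrc⟩) hrP

/-- the explicit theorem -/
theorem units_explicit :
    ∃ (N : ℕ) (V : (k : ℕ) → ℤ → ZMod N → Finset (Fin k → (ZMod N)ˣ))
      (R : ZMod N → Finset (ZMod N)),
      N = ∏ l ∈ (Finset.range 420).filter (fun l => l.Prime ∧ 5 ≤ l), l ∧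
      (∀ (k : ℕ) (c : ℤ) (y : ZMod N), 0 < k → c ≠ 0 →
        (∀ r : ℕ, r.Prime → Odd (padicValInt r c) → r < 420) →
        {r ∈ c.natAbs.primeFactors | 5 ≤ r ∧ r % 4 = 3 ∧ Odd (padicValInt r c)}.card ≤ 3 →
        (1 - 2 ^ k * 9 ^ {r ∈ c.natAbs.primeFactors | 5 ≤ r ∧ r < 420}.card / (2 * 10 ^ 17)) *
          (N.totient : ℝ) ^ k ≤ (V k c y).card) ∧
      (∀ y : ZMod N, (1 - 1 / 10 ^ 16) * (N : ℝ) ≤ (R y).card) ∧
      ∀ (E : WeierstrassCurve ℚ) [E.IsElliptic], E.j ≠ 0 → E.j ≠ 1728 →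
        (∀ l < 420, l.Prime → ¬ l ^ 41 ∣ E.j.den) →
        ∀ (p : ℕ) [Fact p.Prime], 37 < p → InNonsplitNormaliser E p →
        (∀ (k : ℕ) (c : ℤ) (q : Fin k → ℕ), (∀ t, (q t).Prime) →
          (E.j - 1728).num = c * ∏ t, (q t : ℤ) →
          ¬ ∃ v ∈ V k c E.j.den, ∀ t, ((v t : (ZMod N)ˣ) : ZMod N) = q t) ∧
        ((E.j.num : ZMod N) ∈ R E.j.den →
          p % 12 = 11 ∧ ∃ q q' : ℕ, q.Prime ∧ q'.Prime ∧ 5 ≤ q ∧ 5 ≤ q' ∧ q ≠ q' ∧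
            0 < padicValRat q (E.j - 1728) ∧ Odd (padicValRat q (E.j - 1728)) ∧
            0 < padicValRat q' (E.j - 1728) ∧ Odd (padicValRat q' (E.j - 1728)) ∧
            (q' % 4 = 3 ∨ p ^ 2 ≤ 4 * q')) := by
  have hub := fun (k : ℕ) (c : ℤ) => usum_bound (k := k) c
  have hb := MM_bound
  have e := MM_eq
  have h2 := MM_prime
  generalize (Finset.range 420).filter (fun l => l.Prime ∧ 5 ≤ l) = L at e ⊢
  rw [← e] at hb hub h2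
  clear e
  have h1 : ∀ ℓ ∈ L, ℓ.Prime := fun ℓ hℓ => (h2 ℓ hℓ).1
  have h5 : ∀ ℓ ∈ L, 5 ≤ ℓ := fun ℓ hℓ => (h2 ℓ hℓ).2.1
  have hbR : ((∑ i, ∏ ℓ ∈ L, (ℓ - gg i ℓ) : ℕ) : ℝ) ≤
      (1 / 10 ^ 16) * ((∏ ℓ ∈ L, ℓ : ℕ) : ℝ) := by
    have h : ((10 ^ 16 * ∑ i, ∏ ℓ ∈ L, (ℓ - gg i ℓ) : ℕ) : ℝ) ≤ ((∏ ℓ ∈ L, ℓ : ℕ) : ℝ) := by
      exact_mod_cast hb
    rw [Nat.cast_mul] at h
    norm_num at h ⊢
    linarith
  obtain ⟨R, hR, hxR⟩ := classes_fun L h1 h5 _ (by positivity) hbR _ rfl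
  have hV : ∀ (k : ℕ) (c : ℤ), ∃ V : ZMod (∏ l ∈ L, l) →
      Finset (Fin k → (ZMod (∏ l ∈ L, l))ˣ),
      (∀ (y : ZMod (∏ l ∈ L, l)), 0 < k → c ≠ 0 →
        (∀ r : ℕ, r.Prime → Odd (padicValInt r c) → r < 420) → (PO c).card ≤ 3 →
        (1 - 2 ^ k * 9 ^ (PD c).card / (2 * 10 ^ 17)) *
          ((∏ l ∈ L, l).totient : ℝ) ^ k ≤ (V y).card) ∧
      ∀ (E : WeierstrassCurve ℚ) [E.IsElliptic] (q : Fin k → ℕ),
        E.j ≠ 0 → E.j ≠ 1728 → Nat.Coprime E.j.den (∏ l ∈ L, l) → (∀ t, (q t).Prime) →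
        (E.j - 1728).num = c * ∏ t, (q t : ℤ) →
        ∀ v ∈ V E.j.den, (∀ t, ((v t : (ZMod (∏ l ∈ L, l))ˣ) : ZMod (∏ l ∈ L, l)) = q t) →
        ∀ (p : ℕ) [Fact p.Prime], 41 ≤ p → (∀ ℓ ∈ L, 4 * ℓ < p ^ 2) →
          ¬ InNonsplitNormaliser E p := by
    intro k c
    by_cases hcond : 0 < k ∧ c ≠ 0 ∧ (∀ r : ℕ, r.Prime → Odd (padicValInt r c) → r < 420) ∧
        (PO c).card ≤ 3
    · obtain ⟨hk, hc, hc420, hP3⟩ := hcond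
      have hPO420 : ∀ r ∈ PO c, r < 420 := by
        intro r hr
        obtain ⟨h3, -, -, h4⟩ := (mem_PO hc).1 hr
        exact hc420 r h3 h4
      obtain ⟨V, hV, hx⟩ := uvec_fun hk L h1 h5 _ (by positivity) c (PO c)
        (fun r hr => by
          obtain ⟨h3, -, -, h4⟩ := (mem_PO hc).1 hr
          exact ⟨h3, dvd_of_odd h4⟩) (hub k c hc hPO420 hP3) _ rfl
      refine ⟨V, fun y _ _ _ _ => hV y, ?_⟩
      intro E _ q hj0 hj1 hcop hq hn v hv hv1 p _ hp hpL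
      refine hx E q hj0 hj1 hcop hq hn v hv hv1 p (by omega) hpL ?_
      intro r hr h5r hrc hrP
      have h4 : r % 4 ≠ 3 := fun h => hrP ((mem_PO hc).2 ⟨hr, h5r, h, hrc⟩)
      have h6 : r % 2 = 1 := by
        rcases hr.eq_two_or_odd with h | h
        · omega
        · exact h
      refine ⟨by omega, ?_⟩
      have h7 := hc420 r hr hrc
      nlinarith
    · refine ⟨fun _ => ∅, fun y a b d e => absurd ⟨a, b, d, e⟩ hcond, ?_⟩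
      intro E _ q _ _ _ _ _ v hv
      simp at hv
  choose V hVc hVx using hV
  have h41 : ∀ p : ℕ, p.Prime → 37 < p → 41 ≤ p := by
    intro p hpp hp
    by_contra hcon
    push Not at hcon
    have h38 : p = 38 ∨ p = 39 ∨ p = 40 := by omega
    rcases h38 with rfl | rfl | rfl <;> revert hpp <;> decide
  have hLp : ∀ p : ℕ, p.Prime → 37 < p → ∀ ℓ ∈ L, 4 * ℓ < p ^ 2 := by
    intro p hpp hp ℓ hℓ
    have h3 := (h2 ℓ hℓ).2.2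
    have h4 := h41 p hpp hp
    nlinarith
  refine ⟨∏ l ∈ L, l, V, R, rfl, fun k c y a b d e => hVc k c y a b d e, hR, ?_⟩
  · intro E _ hj0 hj1 hden p _ hp hI
    have hpp : p.Prime := Fact.out
    have hcop : Nat.Coprime E.j.den (∏ l ∈ L, l) := by
      apply Nat.Coprime.prod_right
      intro ℓ hℓ
      rw [Nat.coprime_comm, (h1 ℓ hℓ).coprime_iff_not_dvd]
      intro hd
      have h4 := (pole_big E hj0 hj1 p (by omega) hI ℓ (h1 ℓ hℓ) hd).2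
      exact hden ℓ (h2 ℓ hℓ).2.2 (h1 ℓ hℓ) ((pow_dvd_pow ℓ (h41 p hpp hp)).trans h4)
    refine ⟨?_, fun hmem => hxR E hj0 hj1 hcop hmem p (by omega) (hLp p hpp hp) hI⟩
    intro k c q hq hn hmem
    obtain ⟨v, hv, hv1⟩ := hmem
    exact hVx k c E q hj0 hj1 hcop hq hn v hv hv1 p (h41 p hpp hp) (hLp p hpp hp) hI

end Pool.Agent.H80.SU
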