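import Pool.Agent.H27.SU.CGrec

/-!
# Quadratic reciprocity for a pair `m < 0`, `x` of squarefree integers (MP_cda23d_nt, AuxiliaryField)
-/

set_option autoImplicit false

namespace Pool.Agent.H80.SU

open jacobiSym Pool.Agent.H27.SU
open scoped NumberTheorySymbols

/-- `J(-1 | r)` for `r` odd -/
def f4 (r : ℕ) : ℤ := if r % 4 = 1 then 1 else -1
/-- `J(2 | r)` for `r` odd -/
def f8 (r : ℕ) : ℤ := if r % 8 = 1 ∨ r % 8 = 7 then 1 else -1
/-- `J(3 | r)` for `r` prime to `6` -/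
def f12 (r : ℕ) : ℤ := if r % 12 = 1 ∨ r % 12 = 11 then 1 else -1
/-- the sign of the reciprocity law -/
def fq (r t : ℕ) : ℤ := if r % 4 = 3 ∧ t % 4 = 3 then -1 else 1

theorem f4_eq {n : ℕ} (h2 : n % 2 = 1) : J(-1 | n) = f4 (n % 24) := by
  have ho : Odd n := Nat.odd_iff.2 h2
  rw [at_neg_one ho]
  unfold f4
  rcases (by omega : n % 4 = 1 ∨ n % 4 = 3) with h | h
  · rw [ZMod.χ₄_nat_one_mod_four h, if_pos (by omega)]
  · rw [ZMod.χ₄_nat_three_mod_four h, if_neg (by omega)]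

theorem f8_eq {n : ℕ} (h2 : n % 2 = 1) : J(2 | n) = f8 (n % 24) := by
  have ho : Odd n := Nat.odd_iff.2 h2
  have h8 := mod_right (2 : ℤ) ho
  rw [show 4 * (2 : ℤ).natAbs = 8 from rfl] at h8
  rw [h8]
  unfold f8
  rcases (by omega : n % 8 = 1 ∨ n % 8 = 3 ∨ n % 8 = 5 ∨ n % 8 = 7) with h | h | h | h
  · rw [h, if_pos (by omega)]; norm_num
  · rw [h, if_neg (by omega)]; norm_num
  · rw [h, if_neg (by omega)]; norm_num
  · rw [h, if_pos (by omega)]; norm_num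

theorem f12_eq {n : ℕ} (h2 : n % 2 = 1) (h3 : n % 3 ≠ 0) : J(3 | n) = f12 (n % 24) := by
  have ho : Odd n := Nat.odd_iff.2 h2
  have h8 := mod_right (3 : ℤ) ho
  rw [show 4 * (3 : ℤ).natAbs = 12 from rfl] at h8
  rw [h8]
  unfold f12
  rcases (by omega : n % 12 = 1 ∨ n % 12 = 5 ∨ n % 12 = 7 ∨ n % 12 = 11) with h | h | h | h
  · rw [h, if_pos (by omega)]; norm_num
  · rw [h, if_neg (by omega)]; norm_num
  · rw [h, if_neg (by omega)]; norm_num
  · rw [h, if_pos (by omega)]; norm_num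

theorem fq_eq {m n : ℕ} (hm : m % 2 = 1) (hn : n % 2 = 1) :
    J(m | n) = fq (m % 24) (n % 24) * J(n | m) := by
  unfold fq
  have hmo : Odd m := Nat.odd_iff.2 hm
  have hno : Odd n := Nat.odd_iff.2 hn
  rcases (by omega : m % 4 = 1 ∨ m % 4 = 3) with h | h
  · rw [if_neg (by omega), one_mul]
    exact quadratic_reciprocity_one_mod_four h hno
  · rcases (by omega : n % 4 = 1 ∨ n % 4 = 3) with h' | h'
    · rw [if_neg (by omega), one_mul]
      exact (quadratic_reciprocity_one_mod_four h' hmo).symm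
    · rw [if_pos (by omega), quadratic_reciprocity_three_mod_four h h']
      ring

/-- `J(x | 3)` for `x` prime to `3` -/
def f3 (x : ℤ) : ℤ := if x % 3 = 1 then 1 else -1

theorem f3_eq {x : ℤ} (h : ¬ (3 : ℤ) ∣ x) : J(x | 3) = f3 x := by
  unfold f3
  rcases (by omega : x % 3 = 1 ∨ x % 3 = 2) with h | h
  · rw [if_pos h, mod_left, show (x % ((3 : ℕ) : ℤ)) = 1 by exact_mod_cast h]
    exact one_left _
  · rw [if_neg (by omega), mod_left, show (x % ((3 : ℕ) : ℤ)) = 2 by exact_mod_cast h]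
    norm_num

/-- one case of the finite check -/
def Cs (r t a b c e : ℕ) (s : ℤ) : Prop :=
  ((-(2 ^ a * 3 ^ b * r : ℕ) : ℤ) % 8 = 1 ∨ (s * (2 ^ c * 3 ^ e * t : ℕ)) % 8 = 1 ∨
    (-(2 ^ a * 3 ^ b * r : ℕ) : ℤ) % 8 = 5) →
  ((-(2 ^ a * 3 ^ b * r : ℕ) : ℤ) % 3 = 1 ∨ e = 0) →
  f4 t * f8 t ^ a * f12 t ^ b * fq r t =
    s * (if (-(2 ^ a * 3 ^ b * r : ℕ) : ℤ) % 8 = 5 ∧ c = 1 then -1 else 1) *
    (if b = 1 then f3 (s * (2 ^ c * 3 ^ e * t : ℕ)) else 1) *
    ((if s = -1 then f4 r else 1) * f8 r ^ c * f12 r ^ e)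

instance (r t a b c e : ℕ) (s : ℤ) : Decidable (Cs r t a b c e s) := by
  unfold Cs
  infer_instance

/-- the finite check modulo `24` -/
theorem af_check : ∀ r ∈ [1, 5, 7, 11, 13, 17, 19, 23], ∀ t ∈ [1, 5, 7, 11, 13, 17, 19, 23],
    ∀ a < 2, ∀ b < 2, ∀ c < 2, ∀ e < 2, Cs r t a b c e 1 ∧ Cs r t a b c e (-1) := by
  decide +kernel

theorem parts6 {x : ℤ} (hx : Squarefree x) : ∃ (s : ℤ) (c e X : ℕ), (s = 1 ∨ s = -1) ∧
    c < 2 ∧ e < 2 ∧ X % 2 = 1 ∧ X % 3 ≠ 0 ∧ x = s * (2 ^ c * 3 ^ e * X : ℕ) ∧ s = x.sign ∧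
    x.natAbs = 2 ^ c * 3 ^ e * X ∧ Squarefree X := by
  have h1 : Squarefree x.natAbs := Int.squarefree_natAbs.2 hx
  obtain ⟨c, Y, hY, hxY⟩ := Nat.exists_eq_pow_mul_and_not_dvd h1.ne_zero 2 (by norm_num)
  have h2 : Squarefree Y := h1.squarefree_of_dvd ⟨2 ^ c, by rw [hxY]; ring⟩
  obtain ⟨e, X, hX, hYX⟩ := Nat.exists_eq_pow_mul_and_not_dvd h2.ne_zero 3 (by norm_num)
  have h3 : Squarefree X := h2.squarefree_of_dvd ⟨3 ^ e, by rw [hYX]; ring⟩
  have hc : c < 2 := by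
    by_contra h
    push Not at h
    have h4 : 2 * 2 ∣ x.natAbs := by
      rw [hxY, ← pow_two]
      exact dvd_mul_of_dvd_left (pow_dvd_pow 2 h) _
    have := h1 2 h4
    rw [Nat.isUnit_iff] at this
    omega
  have he : e < 2 := by
    by_contra h
    push Not at h
    have h4 : 3 * 3 ∣ Y := by
      rw [hYX, ← pow_two]
      exact dvd_mul_of_dvd_left (pow_dvd_pow 3 h) _
    have := h2 3 h4
    rw [Nat.isUnit_iff] at this
    omega
  have hX2 : X % 2 = 1 := by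
    by_contra h
    apply hY
    rw [hYX]
    exact dvd_mul_of_dvd_right (by omega) _
  have hN : x.natAbs = 2 ^ c * 3 ^ e * X := by rw [hxY, hYX, mul_assoc]
  have hs : x.sign = 1 ∨ x.sign = -1 := by
    rcases lt_or_gt_of_ne hx.ne_zero with h | h
    · exact Or.inr (Int.sign_eq_neg_one_of_neg h)
    · exact Or.inl (Int.sign_eq_one_of_pos h)
  exact ⟨x.sign, c, e, X, hs, hc, he, hX2, by omega, by rw [← hN]; exact (Int.sign_mul_natAbs x).symm,
    rfl, hN, h3⟩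

theorem dvd_parts {x s : ℤ} {c e X : ℕ} (hs : s = 1 ∨ s = -1) (hc : c < 2) (he : e < 2)
    (hX2 : X % 2 = 1) (hX3 : X % 3 ≠ 0) (hx : x = s * (2 ^ c * 3 ^ e * X : ℕ)) :
    ((2 : ℤ) ∣ x ↔ c = 1) ∧ ((3 : ℤ) ∣ x ↔ e = 1) := by
  have h2 : (X : ℤ) % 2 = 1 := by omega
  have h3 : (X : ℤ) % 3 ≠ 0 := by omega
  rcases (by omega : c = 0 ∨ c = 1) with rfl | rfl <;>
    rcases (by omega : e = 0 ∨ e = 1) with rfl | rfl <;> rcases hs with rfl | rfl
  · have : x = X := by rw [hx]; push_cast; ring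
    omega
  · have : x = -X := by rw [hx]; push_cast; ring
    omega
  · have : x = 3 * X := by rw [hx]; push_cast; ring
    omega
  · have : x = -(3 * X) := by rw [hx]; push_cast; ring
    omega
  · have : x = 2 * X := by rw [hx]; push_cast; ring
    omega
  · have : x = -(2 * X) := by rw [hx]; push_cast; ring
    omega
  · have : x = 6 * X := by rw [hx]; push_cast; ring
    omega
  · have : x = -(6 * X) := by rw [hx]; push_cast; ring
    omega

theorem mem_res {n : ℕ} (h2 : n % 2 = 1) (h3 : n % 3 ≠ 0) :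
    n % 24 ∈ [1, 5, 7, 11, 13, 17, 19, 23] := by
  have h : n % 24 = 1 ∨ n % 24 = 5 ∨ n % 24 = 7 ∨ n % 24 = 11 ∨ n % 24 = 13 ∨ n % 24 = 17 ∨
    n % 24 = 19 ∨ n % 24 = 23 := by omega
  simp only [List.mem_cons, List.not_mem_nil, or_false]
  exact h

/-- quadratic reciprocity for the pair `m < 0`, `x` -/
theorem rec_main {m x s s' : ℤ} {a b M c e X : ℕ} (hs : s = 1 ∨ s = -1) (hs' : s' = -1)
    (ha : a < 2) (hb : b < 2) (hc : c < 2) (he : e < 2) (hM2 : M % 2 = 1) (hM3 : M % 3 ≠ 0)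
    (hX2 : X % 2 = 1) (hX3 : X % 3 ≠ 0) (hm : m = s' * (2 ^ a * 3 ^ b * M : ℕ))
    (hx : x = s * (2 ^ c * 3 ^ e * X : ℕ)) (h8 : m % 8 = 1 ∨ x % 8 = 1 ∨ m % 8 = 5)
    (h3 : m % 3 = 1 ∨ ¬ (3 : ℤ) ∣ x) :
    J(m | X) = s * (if m % 8 = 5 ∧ (2 : ℤ) ∣ x then -1 else 1) *
      (if (3 : ℤ) ∣ m then J(x | 3) else 1) * J(x | M) := by
  subst hs'
  have hMo : Odd M := Nat.odd_iff.2 hM2
  have hXo : Odd X := Nat.odd_iff.2 hX2
  have e1 : J(m | X) = f4 (X % 24) * f8 (X % 24) ^ a * f12 (X % 24) ^ b *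
      fq (M % 24) (X % 24) * J(X | M) := by
    have e0 : m = -1 * (2 ^ a * 3 ^ b * M) := by rw [hm]; push_cast; ring
    rw [e0, mul_left, mul_left, mul_left, pow_left, pow_left, f4_eq hX2, f8_eq hX2,
      f12_eq hX2 hX3, fq_eq hM2 hX2]
    ring
  have e2 : J(x | M) = ((if s = -1 then f4 (M % 24) else 1) * f8 (M % 24) ^ c *
      f12 (M % 24) ^ e) * J(X | M) := by
    have e0 : x = s * (2 ^ c * 3 ^ e * X) := by rw [hx]; push_cast; ring
    have es : J(s | M) = if s = -1 then f4 (M % 24) else 1 := by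
      rcases hs with rfl | rfl
      · rw [if_neg (by norm_num)]
        exact one_left _
      · rw [if_pos rfl, f4_eq hM2]
    rw [e0, mul_left, mul_left, mul_left, pow_left, pow_left, es, f8_eq hM2,
      f12_eq hM2 hM3]
    ring
  have hdiv : ∀ (u v w : ℕ) (y : ℕ), u < 2 → v < 2 →
      ((2 ^ u * 3 ^ v * y : ℕ) : ℤ) % 24 = ((2 ^ u * 3 ^ v * (y % 24) : ℕ) : ℤ) % 24 := by
    intro u v _ y _ _
    norm_cast
    rw [Nat.mul_mod, Nat.mul_mod (2 ^ u * 3 ^ v) (y % 24), Nat.mod_mod]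
  have hm24 : m % 24 = (-(2 ^ a * 3 ^ b * (M % 24) : ℕ) : ℤ) % 24 := by
    have := hdiv a b 0 M ha hb
    rw [hm]
    omega
  have hx24 : x % 24 = (s * (2 ^ c * 3 ^ e * (X % 24) : ℕ)) % 24 := by
    have := hdiv c e 0 X hc he
    rw [hx]
    rcases hs with rfl | rfl <;> omega
  have hck := af_check (M % 24) (mem_res hM2 hM3) (X % 24) (mem_res hX2 hX3) a ha b hb c hc e he
  have hCs : Cs (M % 24) (X % 24) a b c e s := by
    rcases hs with rfl | rfl
    · exact hck.1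
    · exact hck.2
  have h2x := (dvd_parts hs hc he hX2 hX3 hx).1
  have h3x := (dvd_parts hs hc he hX2 hX3 hx).2
  have h3m := (dvd_parts (Or.inr rfl) ha hb hM2 hM3 hm).2
  rw [Cs] at hCs
  have hC2 := hCs (by omega) (by
    rcases h3 with h | h
    · left; omega
    · right
      rw [h3x] at h
      omega)
  have e3 : (if (3 : ℤ) ∣ m then J(x | 3) else 1) =
      (if b = 1 then f3 (s * (2 ^ c * 3 ^ e * (X % 24) : ℕ)) else 1) := by
    by_cases hb1 : b = 1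
    · rw [if_pos hb1, if_pos (h3m.2 hb1), f3_eq]
      · unfold f3
        congr 1
        apply propext
        constructor <;> intro h <;> omega
      · rcases h3 with h | h
        · have := h3m.2 hb1
          omega
        · exact h
    · rw [if_neg hb1, if_neg (fun h => hb1 (h3m.1 h))]
  have e4 : (if m % 8 = 5 ∧ (2 : ℤ) ∣ x then (-1 : ℤ) else 1) =
      (if (-(2 ^ a * 3 ^ b * (M % 24) : ℕ) : ℤ) % 8 = 5 ∧ c = 1 then -1 else 1) := by
    congr 1
    apply propext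
    rw [h2x]
    constructor <;> rintro ⟨h, h'⟩ <;> exact ⟨by omega, h'⟩
  rw [e1, e2, e3, e4, hC2]
  ring

end Pool.Agent.H80.SU
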